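import Mathlib

/-!
# The weighted Wiener algebra as `ℓ¹(ℤ)` with a weighted convolution
-/

set_option autoImplicit false

namespace Pool.Agent.Helper80.B9

open Finset

/-- The space `ℓ¹(ℤ)`. -/
noncomputable abbrev X := lp (fun _ : ℤ => ℂ) 1

lemma X_norm_eq (u : X) : ‖u‖ = ∑' k, ‖u k‖ := by
  have := lp.norm_eq_tsum_rpow (p := 1) (by simp) u
  simpa using this

lemma X_summable (u : X) : Summable fun k => ‖u k‖ := by
  have := (lp.memℓp u).summable (by simp)
  simpa using this

lemma X_norm_apply_le (u : X) (k : ℤ) : ‖u k‖ ≤ ‖u‖ := lp.norm_apply_le_norm (by simp) u k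

lemma X_sum_le (u : X) (s : Finset ℤ) : ∑ k ∈ s, ‖u k‖ ≤ ‖u‖ := by
  rw [X_norm_eq]
  exact (X_summable u).sum_le_tsum s (fun _ _ => norm_nonneg _)

lemma X_norm_le (u : X) {C : ℝ} (h : ∀ s : Finset ℤ, ∑ k ∈ s, ‖u k‖ ≤ C) : ‖u‖ ≤ C := by
  rw [X_norm_eq]
  exact (X_summable u).tsum_le_of_sum_le h

/-- Build an element of `ℓ¹`. -/
def mkX (f : ℤ → ℂ) (hf : Summable fun k => ‖f k‖) : X :=
  ⟨f, by
    apply memℓp_gen
    simpa using hf⟩

@[simp] lemma mkX_apply (f : ℤ → ℂ) (hf : Summable fun k => ‖f k‖) (k : ℤ) : mkX f hf k = f k := rfl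

@[simp] lemma X_add_apply (u v : X) (k : ℤ) : (u + v) k = u k + v k := rfl
@[simp] lemma X_sub_apply (u v : X) (k : ℤ) : (u - v) k = u k - v k := rfl
@[simp] lemma X_neg_apply (u : X) (k : ℤ) : (-u) k = -(u k) := rfl
@[simp] lemma X_smul_apply (c : ℂ) (u : X) (k : ℤ) : (c • u) k = c * u k := rfl
@[simp] lemma X_zero_apply (k : ℤ) : (0 : X) k = 0 := rfl

/-- Coordinate functionals. -/
noncomputable def ev (k : ℤ) : X →L[ℂ] ℂ :=
  LinearMap.mkContinuous
    { toFun := fun u => u k
      map_add' := fun _ _ => rfl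
      map_smul' := fun _ _ => rfl } 1 (fun u => by
        rw [one_mul]; exact X_norm_apply_le u k)

@[simp] lemma ev_apply (k : ℤ) (u : X) : ev k u = u k := rfl

lemma continuous_coord {α : Type*} [TopologicalSpace α] {u : α → X} (hu : Continuous u) (k : ℤ) :
    Continuous fun t => u t k := (ev k).continuous.comp hu

/-- Unit vectors. -/
noncomputable def sg (k : ℤ) (a : ℂ) : X := lp.single 1 k a

lemma sg_apply (k : ℤ) (a : ℂ) (j : ℤ) : sg k a j = if j = k then a else 0 := by
  rw [sg, lp.single_apply, Pi.single_apply]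

lemma norm_sg (k : ℤ) (a : ℂ) : ‖sg k a‖ = ‖a‖ := by
  rw [sg, lp.norm_single (by simp)]

section weight

variable (ν : ℝ)

/-- The weight `ν ^ |k|`. -/
noncomputable def wt (k : ℤ) : ℝ := ν ^ k.natAbs

/-- The structure constants of the weighted convolution. -/
noncomputable def rho (j l : ℤ) : ℝ := wt ν (j + l) / (wt ν j * wt ν l)

variable {ν} (hν : 1 ≤ ν)
include hν

lemma wt_pos (k : ℤ) : 0 < wt ν k := pow_pos (by linarith) _

lemma wt_one_le (k : ℤ) : 1 ≤ wt ν k := one_le_pow₀ hν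

lemma rho_nonneg (j l : ℤ) : 0 ≤ rho ν j l :=
  div_nonneg (wt_pos hν _).le (mul_nonneg (wt_pos hν _).le (wt_pos hν _).le)

lemma rho_le_one (j l : ℤ) : rho ν j l ≤ 1 := by
  rw [rho, div_le_one (mul_pos (wt_pos hν _) (wt_pos hν _)), wt, wt, wt, ← pow_add]
  exact pow_le_pow_right₀ hν (Int.natAbs_add_le j l)

omit hν in
lemma rho_comm (j l : ℤ) : rho ν j l = rho ν l j := by
  rw [rho, rho, add_comm, mul_comm]

lemma rho_zero (l : ℤ) : rho ν 0 l = 1 := by
  rw [rho, zero_add]
  have : wt ν 0 = 1 := by simp [wt]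
  rw [this, one_mul, div_self (wt_pos hν l).ne']

end weight

section conv

variable (ν : ℝ) [hν : Fact (1 ≤ ν)]

lemma norm_rho_mul_le (j l : ℤ) (c : ℂ) : ‖(rho ν j l : ℂ) * c‖ ≤ ‖c‖ := by
  rw [norm_mul, Complex.norm_real, Real.norm_of_nonneg (rho_nonneg hν.out j l)]
  calc _ ≤ 1 * ‖c‖ := by
        apply mul_le_mul_of_nonneg_right (rho_le_one hν.out j l) (norm_nonneg _)
    _ = _ := one_mul _

lemma sh_summable (j : ℤ) (v : X) :
    Summable fun k : ℤ => ‖(rho ν j (k - j) : ℂ) * v (k - j)‖ := by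
  have h1 : Summable fun k : ℤ => ‖v (k - j)‖ :=
    (X_summable v).comp_injective (sub_left_injective (b := j))
  exact Summable.of_nonneg_of_le (fun _ => norm_nonneg _)
    (fun k => norm_rho_mul_le ν j (k - j) _) h1

/-- Weighted shift. -/
noncomputable def sh (j : ℤ) (v : X) : X := mkX _ (sh_summable ν j v)

@[simp] lemma sh_apply (j : ℤ) (v : X) (k : ℤ) :
    sh ν j v k = (rho ν j (k - j) : ℂ) * v (k - j) := rfl

lemma norm_sh_le (j : ℤ) (v : X) : ‖sh ν j v‖ ≤ ‖v‖ := by
  rw [X_norm_eq, X_norm_eq]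
  have h1 : ∑' k : ℤ, ‖v (k - j)‖ = ∑' k, ‖v k‖ := (Equiv.subRight j).tsum_eq (fun k => ‖v k‖)
  rw [← h1]
  apply Summable.tsum_le_tsum (fun k => norm_rho_mul_le ν j (k - j) _) (sh_summable ν j v)
  exact (X_summable v).comp_injective (sub_left_injective (b := j))

lemma sh_add (j : ℤ) (v w : X) : sh ν j (v + w) = sh ν j v + sh ν j w := by
  ext k
  simp only [sh_apply, X_add_apply]
  ring

lemma sh_smul (j : ℤ) (c : ℂ) (v : X) : sh ν j (c • v) = c • sh ν j v := by
  ext k
  change sh ν j (c • v) k = c * sh ν j v k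
  simp only [sh_apply, X_smul_apply]
  ring

lemma conv_summable (u v : X) : Summable fun j : ℤ => u j • sh ν j v := by
  apply Summable.of_norm_bounded (g := fun j => ‖u j‖ * ‖v‖) ((X_summable u).mul_right _)
  intro j
  rw [norm_smul]
  exact mul_le_mul_of_nonneg_left (norm_sh_le ν j v) (norm_nonneg _)

lemma conv_summable_norm (u v : X) : Summable fun j : ℤ => ‖u j • sh ν j v‖ := by
  apply Summable.of_nonneg_of_le (fun _ => norm_nonneg _) _ ((X_summable u).mul_right ‖v‖)
  intro j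
  rw [norm_smul]
  exact mul_le_mul_of_nonneg_left (norm_sh_le ν j v) (norm_nonneg _)

/-- The weighted convolution as a bounded bilinear map. -/
noncomputable def BL : X →L[ℂ] X →L[ℂ] X :=
  LinearMap.mkContinuous₂ (LinearMap.mk₂ ℂ (fun u v => ∑' j : ℤ, u j • sh ν j v)
    (fun u u' v => by
      rw [← (conv_summable ν u v).tsum_add (conv_summable ν u' v)]
      apply tsum_congr
      intro j
      rw [X_add_apply, add_smul])
    (fun c u v => by
      rw [← (conv_summable ν u v).tsum_const_smul]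
      apply tsum_congr
      intro j
      rw [X_smul_apply, mul_smul])
    (fun u v v' => by
      rw [← (conv_summable ν u v).tsum_add (conv_summable ν u v')]
      apply tsum_congr
      intro j
      rw [sh_add, smul_add])
    (fun c u v => by
      rw [← (conv_summable ν u v).tsum_const_smul]
      apply tsum_congr
      intro j
      rw [sh_smul, smul_comm])) 1
  (fun u v => by
    rw [one_mul, LinearMap.mk₂_apply]
    refine (norm_tsum_le_tsum_norm (conv_summable_norm ν u v)).trans ?_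
    rw [X_norm_eq u, ← tsum_mul_right]
    apply Summable.tsum_le_tsum _ (conv_summable_norm ν u v) ((X_summable u).mul_right _)
    intro j
    rw [norm_smul]
    exact mul_le_mul_of_nonneg_left (norm_sh_le ν j v) (norm_nonneg _))

/-- The weighted convolution. -/
noncomputable def B (u v : X) : X := BL ν u v

lemma B_def (u v : X) : B ν u v = ∑' j : ℤ, u j • sh ν j v := rfl

lemma B_norm_le (u v : X) : ‖B ν u v‖ ≤ ‖u‖ * ‖v‖ := by
  rw [B_def]
  refine (norm_tsum_le_tsum_norm (conv_summable_norm ν u v)).trans ?_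
  rw [X_norm_eq u, ← tsum_mul_right]
  apply Summable.tsum_le_tsum _ (conv_summable_norm ν u v) ((X_summable u).mul_right _)
  intro j
  rw [norm_smul]
  exact mul_le_mul_of_nonneg_left (norm_sh_le ν j v) (norm_nonneg _)

lemma B_add_left (u u' v : X) : B ν (u + u') v = B ν u v + B ν u' v := by simp [B]
lemma B_add_right (u v v' : X) : B ν u (v + v') = B ν u v + B ν u v' := by simp [B]
lemma B_smul_left (c : ℂ) (u v : X) : B ν (c • u) v = c • B ν u v := by simp [B]
lemma B_smul_right (c : ℂ) (u v : X) : B ν u (c • v) = c • B ν u v := by simp [B]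
lemma B_sub_left (u u' v : X) : B ν (u - u') v = B ν u v - B ν u' v := by simp [B]
lemma B_sub_right (u v v' : X) : B ν u (v - v') = B ν u v - B ν u v' := by simp [B]

lemma B_continuous {α : Type*} [TopologicalSpace α] {u v : α → X} (hu : Continuous u)
    (hv : Continuous v) : Continuous fun t => B ν (u t) (v t) := by
  unfold B
  exact ((BL ν).continuous.comp hu).clm_apply hv

lemma B_apply (u v : X) (k : ℤ) :
    B ν u v k = ∑' j : ℤ, u j * ((rho ν j (k - j) : ℂ) * v (k - j)) := by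
  have h := (ev k).map_tsum (conv_summable ν u v)
  rw [← B_def] at h
  rw [ev_apply] at h
  rw [h]
  rfl

lemma B_comm (u v : X) : B ν u v = B ν v u := by
  ext k
  rw [B_apply, B_apply, ← (Equiv.subLeft k).tsum_eq]
  apply tsum_congr
  intro j
  simp only [Equiv.subLeft_apply, sub_sub_cancel]
  rw [rho_comm (k - j) j]
  ring

lemma B_sub_self (u c : X) : B ν u u - B ν c c = B ν (u - c) (u + c) := by
  rw [B_sub_left, B_add_right, B_add_right, B_comm ν u c]
  abel

lemma B_self_sub_norm_le (u c : X) : ‖B ν u u - B ν c c‖ ≤ ‖u - c‖ * ‖u + c‖ := by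
  rw [B_sub_self]; exact B_norm_le ν _ _

lemma B_sg_zero (a : ℂ) (v : X) : B ν (sg 0 a) v = a • v := by
  ext k
  rw [B_apply, tsum_eq_single 0]
  · rw [sg_apply, if_pos rfl, rho_zero hν.out, sub_zero]
    simp
  · intro j hj
    rw [sg_apply, if_neg hj, zero_mul]

end conv

/-- The mean-free part. -/
noncomputable def mf (u : X) : X := u - sg 0 (u 0)

lemma mf_apply (u : X) (k : ℤ) : mf u k = if k = 0 then 0 else u k := by
  rw [mf, X_sub_apply, sg_apply]
  split_ifs with h
  · rw [h, sub_self]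
  · rw [sub_zero]

@[simp] lemma mf_zero_coord (u : X) : mf u 0 = 0 := by rw [mf_apply, if_pos rfl]

lemma mf_coord {k : ℤ} (hk : k ≠ 0) (u : X) : mf u k = u k := by rw [mf_apply, if_neg hk]

lemma eq_sg_add_mf (u : X) : u = sg 0 (u 0) + mf u := by rw [mf]; abel

lemma norm_eq_mf (u : X) : ‖u‖ = ‖u 0‖ + ‖mf u‖ := by
  rw [X_norm_eq u, X_norm_eq (mf u), (X_summable u).tsum_eq_add_tsum_ite 0]
  congr 1
  apply tsum_congr
  intro k
  rw [mf_apply]
  split_ifs <;> simp

lemma norm_mf_le (u : X) : ‖mf u‖ ≤ ‖u‖ := by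
  rw [norm_eq_mf u]; linarith [norm_nonneg (u 0)]

lemma mf_sub (u v : X) : mf (u - v) = mf u - mf v := by
  ext k
  change mf (u - v) k = mf u k - mf v k
  rw [mf_apply, mf_apply, mf_apply]
  split_ifs <;> simp

lemma continuous_mf {α : Type*} [TopologicalSpace α] {u : α → X} (hu : Continuous u) :
    Continuous fun t => mf (u t) := by
  have h : ∀ u : X, mf u = u - (u 0) • sg 0 1 := by
    intro u
    ext k
    change mf u k = u k - (u 0) * sg 0 1 k
    rw [mf_apply, sg_apply]
    split_ifs with h <;> simp [h]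
  simp only [h]
  exact hu.sub ((continuous_coord hu 0).smul continuous_const)

section conv2
variable (ν : ℝ) [hν : Fact (1 ≤ ν)]

lemma B_self_expand (u : X) :
    B ν u u = sg 0 ((u 0) ^ 2) + (2 * u 0) • mf u + B ν (mf u) (mf u) := by
  conv_lhs => rw [eq_sg_add_mf u]
  rw [B_add_left, B_add_right, B_add_right, B_comm ν (mf u) (sg 0 (u 0)), B_sg_zero, B_sg_zero]
  have : (u 0) • sg 0 (u 0) = sg 0 ((u 0) ^ 2) := by
    ext k
    change u 0 * sg 0 (u 0) k = _
    rw [sg_apply, sg_apply]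
    split_ifs <;> ring
  rw [this, two_mul, add_smul]
  abel

lemma B_self_zero (u : X) : B ν u u 0 = (u 0) ^ 2 + B ν (mf u) (mf u) 0 := by
  rw [B_self_expand ν u]
  simp [sg_apply]

lemma B_self_coord {k : ℤ} (hk : k ≠ 0) (u : X) :
    B ν u u k = 2 * u 0 * u k + B ν (mf u) (mf u) k := by
  conv_lhs => rw [B_self_expand ν u]
  simp [sg_apply, hk, mf_coord hk]

lemma norm_mf_B_le (u : X) : ‖mf (B ν u u)‖ ≤ (2 * ‖u 0‖ + ‖mf u‖) * ‖mf u‖ := by
  have h : mf (B ν u u) = (2 * u 0) • mf u + mf (B ν (mf u) (mf u)) := by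
    ext k
    change mf (B ν u u) k = (2 * u 0) * mf u k + mf (B ν (mf u) (mf u)) k
    rw [mf_apply (B ν u u), mf_apply (B ν (mf u) (mf u))]
    split_ifs with hk
    · rw [hk]; simp
    · rw [B_self_coord ν hk, mf_coord hk]
  rw [h]
  refine (norm_add_le _ _).trans ?_
  rw [norm_smul, norm_mul, Complex.norm_ofNat, add_mul]
  gcongr
  exact (norm_mf_le _).trans (B_norm_le ν _ _)

lemma norm_B_mf_coord_le (u : X) (k : ℤ) : ‖B ν (mf u) (mf u) k‖ ≤ ‖mf u‖ ^ 2 := by
  rw [sq]
  exact (X_norm_apply_le _ k).trans (B_norm_le ν _ _)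

end conv2

end Pool.Agent.Helper80.B9
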