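import Pool.Agent.Helper80.B9A139.Basic

/-!
# Linear and nonlinear flows, basic estimates
-/

set_option autoImplicit false

namespace Pool.Agent.Helper80.B9

open Finset MeasureTheory

/-- `4 π² k²`. -/
noncomputable def om (k : ℤ) : ℝ := (2 * Real.pi * k) ^ 2

lemma om_nonneg (k : ℤ) : 0 ≤ om k := sq_nonneg _

/-- `u` solves `u' = θ (u_xx + g)` on `[a, b]` (coefficientwise, integrated form). -/
def Lin (θ : ℂ) (u g : ℝ → X) (a b : ℝ) : Prop :=
  ∀ k : ℤ, ∀ t ∈ Set.Icc a b, u t k = u a k + ∫ σ in a..t, θ * (-(om k : ℂ) * u σ k + g σ k)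

section scalar

lemma scalar_formula {μ : ℂ} {f r : ℝ → ℂ} (hf : Continuous f) (hr : Continuous r) {a b : ℝ}
    (h : ∀ t ∈ Set.Icc a b, f t = f a + ∫ σ in a..t, (-μ * f σ + r σ)) {t : ℝ}
    (ht : t ∈ Set.Icc a b) :
    f t = Complex.exp (-μ * (t - a)) * f a + ∫ σ in a..t, Complex.exp (-μ * (t - σ)) * r σ := by
  set ft : ℝ → ℂ := fun t => f a + ∫ σ in a..t, (-μ * f σ + r σ) with hft
  have hc : Continuous fun σ => (-μ * f σ + r σ) := (continuous_const.mul hf).add hr
  have hd : ∀ s, HasDerivAt ft (-μ * f s + r s) s := fun s =>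
    (hc.integral_hasStrictDerivAt a s).hasDerivAt.const_add _
  have hE : ∀ s : ℝ, HasDerivAt (fun s : ℝ => Complex.exp (μ * s)) (Complex.exp (μ * s) * μ) s := by
    intro s
    have h1 : HasDerivAt (fun s : ℝ => μ * (s : ℂ)) (μ * 1) s :=
      (Complex.ofRealCLM.hasDerivAt (x := s)).const_mul μ
    rw [mul_one] at h1
    exact h1.cexp
  have hF : ∀ s ∈ Set.uIcc a t, HasDerivAt (fun s : ℝ => Complex.exp (μ * s) * ft s)
      (Complex.exp (μ * s) * r s) s := by
    intro s hs
    rw [Set.uIcc_of_le ht.1] at hs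
    have h2 : HasDerivAt (fun s : ℝ => Complex.exp (μ * s) * ft s)
        (Complex.exp (μ * s) * μ * ft s + Complex.exp (μ * s) * (-μ * f s + r s)) s :=
      (hE s).mul (hd s)
    apply h2.congr_deriv
    have h3 : ft s = f s := by
      rw [hft]
      exact (h s ⟨hs.1, hs.2.trans ht.2⟩).symm
    rw [h3]
    ring
  have hci : Continuous fun s : ℝ => Complex.exp (μ * s) * r s :=
    (Complex.continuous_exp.comp (continuous_const.mul Complex.continuous_ofReal)).mul hr
  have h4 := intervalIntegral.integral_eq_sub_of_hasDerivAt hF (hci.intervalIntegrable a t)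
  have h5 : ft t = f t := (h t ht).symm
  have h6 : ft a = f a := by rw [hft]; simp
  rw [h5, h6] at h4
  have h7 : ∫ σ in a..t, Complex.exp (-μ * (t - σ)) * r σ =
      Complex.exp (-μ * t) * ∫ σ in a..t, Complex.exp (μ * σ) * r σ := by
    rw [← intervalIntegral.integral_const_mul]
    apply intervalIntegral.integral_congr
    intro s _
    simp only
    rw [← mul_assoc, ← Complex.exp_add]
    congr 2
    ring
  have e1 : Complex.exp (-μ * t) * Complex.exp (μ * t) = 1 := by
    rw [← Complex.exp_add, show -μ * (t : ℂ) + μ * t = 0 by ring, Complex.exp_zero]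
  have e2 : Complex.exp (-μ * (t - a)) = Complex.exp (-μ * t) * Complex.exp (μ * a) := by
    rw [← Complex.exp_add]
    congr 1
    ring
  rw [h7, h4, e2]
  linear_combination (-f t) * e1

lemma scalar_est {μ : ℂ} {f r : ℝ → ℂ} (hf : Continuous f) (hr : Continuous r) {a b κ : ℝ}
    (hκ : κ ≤ μ.re)
    (h : ∀ t ∈ Set.Icc a b, f t = f a + ∫ σ in a..t, (-μ * f σ + r σ)) {t : ℝ}
    (ht : t ∈ Set.Icc a b) :
    ‖f t‖ ≤ Real.exp (-κ * (t - a)) * ‖f a‖ + ∫ σ in a..t, Real.exp (-κ * (t - σ)) * ‖r σ‖ := by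
  have hexp : ∀ s, s ≤ t → ‖Complex.exp (-μ * (t - s))‖ ≤ Real.exp (-κ * (t - s)) := by
    intro s hs
    rw [Complex.norm_exp]
    apply Real.exp_le_exp.mpr
    have : (-μ * ((t : ℂ) - s)).re = -μ.re * (t - s) := by
      simp [Complex.mul_re]
    rw [this]
    have h1 : 0 ≤ t - s := by linarith
    nlinarith
  rw [scalar_formula hf hr h ht]
  refine (norm_add_le _ _).trans ?_
  apply add_le_add
  · rw [norm_mul]
    exact mul_le_mul_of_nonneg_right (hexp a ht.1) (norm_nonneg _)
  · apply intervalIntegral.norm_integral_le_of_norm_le ht.1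
    · apply Filter.Eventually.of_forall
      intro s hs
      rw [norm_mul]
      exact mul_le_mul_of_nonneg_right (hexp s hs.2) (norm_nonneg _)
    · apply Continuous.intervalIntegrable
      fun_prop

end scalar

section lin

variable {θ : ℂ} {u g : ℝ → X} {a b : ℝ}

lemma Lin.mono (h : Lin θ u g a b) (hu : Continuous u) (hg : Continuous g) {a' b' : ℝ}
    (ha : a ≤ a') (hb : b' ≤ b) (hab : a' ≤ b') : Lin θ u g a' b' := by
  intro k t ht
  have hc : Continuous fun σ => θ * (-(om k : ℂ) * u σ k + g σ k) :=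
    continuous_const.mul ((continuous_const.mul (continuous_coord hu k)).add (continuous_coord hg k))
  have h1 := h k t ⟨ha.trans ht.1, ht.2.trans hb⟩
  have h2 := h k a' ⟨ha, hab.trans hb⟩
  rw [h1, h2, add_assoc, intervalIntegral.integral_add_adjacent_intervals
    (hc.intervalIntegrable _ _) (hc.intervalIntegrable _ _)]

lemma Lin.glue {c : ℝ} (h : Lin θ u g a b) (h' : Lin θ u g b c) (hu : Continuous u)
    (hg : Continuous g) (hab : a ≤ b) : Lin θ u g a c := by
  intro k t ht
  by_cases htb : t ≤ b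
  · exact h k t ⟨ht.1, htb⟩
  · push Not at htb
    have hc : Continuous fun σ => θ * (-(om k : ℂ) * u σ k + g σ k) :=
      continuous_const.mul ((continuous_const.mul (continuous_coord hu k)).add
        (continuous_coord hg k))
    rw [h' k t ⟨htb.le, ht.2⟩, h k b ⟨hab, le_rfl⟩, add_assoc,
      intervalIntegral.integral_add_adjacent_intervals
      (hc.intervalIntegrable _ _) (hc.intervalIntegrable _ _)]

lemma Lin.shift (h : Lin θ u g a b) (c : ℝ) :
    Lin θ (fun t => u (t + c)) (fun t => g (t + c)) (a - c) (b - c) := by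
  intro k t ht
  have h1 := h k (t + c) ⟨by linarith [ht.1], by linarith [ht.2]⟩
  have h2 := intervalIntegral.integral_comp_add_right
    (f := fun σ => θ * (-(om k : ℂ) * u σ k + g σ k)) (a := a - c) (b := t) c
  simp only [sub_add_cancel] at h2 ⊢
  rw [h1, h2]

lemma Lin.reverse (h : Lin θ u g a b) (hu : Continuous u) (hg : Continuous g) (c : ℝ)
    (hab : a ≤ b) :
    Lin (-θ) (fun t => u (c - t)) (fun t => g (c - t)) (c - b) (c - a) := by
  intro k t ht
  have hc : Continuous fun σ => θ * (-(om k : ℂ) * u σ k + g σ k) :=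
    continuous_const.mul ((continuous_const.mul (continuous_coord hu k)).add (continuous_coord hg k))
  have h1 := h k (c - t) ⟨by linarith [ht.2], by linarith [ht.1]⟩
  have h3 := h k b ⟨hab, le_rfl⟩
  have h2 := intervalIntegral.integral_comp_sub_left
    (f := fun σ => (-θ) * (-(om k : ℂ) * u σ k + g σ k)) (a := c - b) (b := t) c
  simp only [sub_sub_cancel] at h2 ⊢
  rw [h1, h2, h3, add_assoc]
  congr 1
  have h4 : ∫ σ in (c - t)..b, (-θ) * (-(om k : ℂ) * u σ k + g σ k) =
      ∫ σ in b..(c - t), θ * (-(om k : ℂ) * u σ k + g σ k) := by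
    rw [intervalIntegral.integral_symm, ← intervalIntegral.integral_neg]
    apply intervalIntegral.integral_congr
    intro s _
    ring
  rw [h4, intervalIntegral.integral_add_adjacent_intervals
      (hc.intervalIntegrable _ _) (hc.intervalIntegrable _ _)]

lemma Lin.congr {u' g' : ℝ → X} (h : Lin θ u g a b) (hu : ∀ t ∈ Set.Icc a b, u' t = u t)
    (hg : ∀ t ∈ Set.Icc a b, g' t = g t) : Lin θ u' g' a b := by
  intro k t ht
  rw [hu t ht, hu a ⟨le_rfl, ht.1.trans ht.2⟩, h k t ht]
  congr 1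
  apply intervalIntegral.integral_congr
  intro s hs
  rw [Set.uIcc_of_le ht.1] at hs
  have hs' : s ∈ Set.Icc a b := ⟨hs.1, hs.2.trans ht.2⟩
  simp only [hu s hs', hg s hs']

lemma Lin.sub {u' g' : ℝ → X} (h : Lin θ u g a b) (h' : Lin θ u' g' a b) (hu : Continuous u)
    (hg : Continuous g) (hu' : Continuous u') (hg' : Continuous g') :
    Lin θ (fun t => u t - u' t) (fun t => g t - g' t) a b := by
  intro k t ht
  have hc : Continuous fun σ => θ * (-(om k : ℂ) * u σ k + g σ k) :=
    continuous_const.mul ((continuous_const.mul (continuous_coord hu k)).add (continuous_coord hg k))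
  have hc' : Continuous fun σ => θ * (-(om k : ℂ) * u' σ k + g' σ k) :=
    continuous_const.mul ((continuous_const.mul (continuous_coord hu' k)).add
      (continuous_coord hg' k))
  simp only [X_sub_apply]
  rw [h k t ht, h' k t ht]
  have h1 := intervalIntegral.integral_sub (hc.intervalIntegrable (μ := volume) a t)
    (hc'.intervalIntegrable (μ := volume) a t)
  have h2 : (∫ σ in a..t, θ * (-(om k : ℂ) * (u σ k - u' σ k) + (g σ k - g' σ k))) =
      ∫ σ in a..t, (θ * (-(om k : ℂ) * u σ k + g σ k) - θ * (-(om k : ℂ) * u' σ k + g' σ k)) := by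
    apply intervalIntegral.integral_congr
    intro s _
    ring
  rw [h2, h1]
  ring

lemma Lin.mf (h : Lin θ u g a b) : Lin θ (fun t => mf (u t)) (fun t => mf (g t)) a b := by
  intro k t ht
  simp only [mf_apply]
  split_ifs with hk
  · simp
  · exact h k t ht

/-- Main norm estimate. -/
lemma Lin.norm_est (h : Lin θ u g a b) (hu : Continuous u) (hg : Continuous g) {κ : ℝ}
    (hκ : ∀ k, (∀ σ, u σ k = 0) ∨ κ ≤ (θ * om k).re) {t : ℝ} (ht : t ∈ Set.Icc a b) :
    ‖u t‖ ≤ Real.exp (-κ * (t - a)) * ‖u a‖ +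
      ‖θ‖ * ∫ σ in a..t, Real.exp (-κ * (t - σ)) * ‖g σ‖ := by
  apply X_norm_le
  intro s
  have h1 : ∀ k ∈ s, ‖u t k‖ ≤ Real.exp (-κ * (t - a)) * ‖u a k‖ +
      ∫ σ in a..t, Real.exp (-κ * (t - σ)) * ‖θ * g σ k‖ := by
    intro k _
    rcases hκ k with h0 | hk
    · rw [h0 t, h0 a]
      simp only [norm_zero, mul_zero, zero_add]
      apply intervalIntegral.integral_nonneg ht.1
      intro s _
      positivity
    · apply scalar_est (μ := θ * om k) (r := fun σ => θ * g σ k) (continuous_coord hu k)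
        (continuous_const.mul (continuous_coord hg k)) hk _ ht
      intro t ht
      rw [h k t ht]
      congr 1
      apply intervalIntegral.integral_congr
      intro s _
      ring
  have hint : ∀ k, IntervalIntegrable
      (fun σ => Real.exp (-κ * (t - σ)) * ‖θ * g σ k‖) volume a t := by
    intro k
    apply Continuous.intervalIntegrable
    have := continuous_coord hg k
    fun_prop
  refine (Finset.sum_le_sum h1).trans ?_
  rw [Finset.sum_add_distrib, ← Finset.mul_sum, ← intervalIntegral.integral_finsetSum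
    (fun k _ => hint k)]
  apply add_le_add
  · exact mul_le_mul_of_nonneg_left (X_sum_le _ _) (Real.exp_pos _).le
  · rw [← intervalIntegral.integral_const_mul]
    apply intervalIntegral.integral_mono_on ht.1
    · apply Continuous.intervalIntegrable
      apply continuous_finsetSum
      intro k _
      have := continuous_coord hg k
      fun_prop
    · apply Continuous.intervalIntegrable
      have := hg.norm
      fun_prop
    · intro σ _
      rw [← Finset.mul_sum]
      have h2 : ∑ k ∈ s, ‖θ * g σ k‖ ≤ ‖θ‖ * ‖g σ‖ := by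
        simp only [norm_mul]
        rw [← Finset.mul_sum]
        exact mul_le_mul_of_nonneg_left (X_sum_le _ _) (norm_nonneg _)
      calc _ ≤ Real.exp (-κ * (t - σ)) * (‖θ‖ * ‖g σ‖) :=
            mul_le_mul_of_nonneg_left h2 (Real.exp_pos _).le
        _ = _ := by ring

/-- Norm estimate without decay. -/
lemma Lin.norm_est0 (h : Lin θ u g a b) (hu : Continuous u) (hg : Continuous g) (hθ : 0 ≤ θ.re)
    {t : ℝ} (ht : t ∈ Set.Icc a b) : ‖u t‖ ≤ ‖u a‖ + ‖θ‖ * ∫ σ in a..t, ‖g σ‖ := by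
  have h1 := h.norm_est hu hg (κ := 0) (fun k => Or.inr (by
    rw [Complex.re_mul_ofReal]
    exact mul_nonneg hθ (om_nonneg k))) ht
  simpa using h1

end lin

section gronwall

lemma gronwall {D : ℝ → ℝ} (hD : Continuous D) {a b c K : ℝ} (hK : 0 ≤ K)
    (h : ∀ t ∈ Set.Icc a b, D t ≤ c + K * ∫ σ in a..t, D σ) {t : ℝ} (ht : t ∈ Set.Icc a b) :
    D t ≤ c * Real.exp (K * (t - a)) := by
  set Z : ℝ → ℝ := fun t => c + K * ∫ σ in a..t, D σ with hZ
  have hdZ : ∀ s, HasDerivAt Z (K * D s) s := fun s =>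
    ((hD.integral_hasStrictDerivAt a s).hasDerivAt.const_mul K).const_add c
  set W : ℝ → ℝ := fun s => Z s * Real.exp (-K * (s - a)) with hW
  have hdW : ∀ s, HasDerivAt W (K * D s * Real.exp (-K * (s - a)) +
      Z s * (Real.exp (-K * (s - a)) * (-K))) s := by
    intro s
    apply (hdZ s).mul
    have h1 : HasDerivAt (fun s : ℝ => -K * (s - a)) (-K * 1) s :=
      ((hasDerivAt_id s).sub_const a).const_mul (-K)
    rw [mul_one] at h1
    exact h1.exp
  have hanti : AntitoneOn W (Set.Icc a b) := by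
    apply antitoneOn_of_deriv_nonpos (convex_Icc a b)
    · exact fun s _ => (hdW s).continuousAt.continuousWithinAt
    · exact fun s _ => (hdW s).differentiableAt.differentiableWithinAt
    · intro s hs
      rw [(hdW s).deriv]
      have h2 : D s ≤ Z s := h s (interior_subset hs)
      have h3 := Real.exp_pos (-K * (s - a))
      have : K * D s * Real.exp (-K * (s - a)) + Z s * (Real.exp (-K * (s - a)) * (-K)) =
        -(K * (Z s - D s) * Real.exp (-K * (s - a))) := by ring
      rw [this]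
      have : 0 ≤ K * (Z s - D s) * Real.exp (-K * (s - a)) :=
        mul_nonneg (mul_nonneg hK (by linarith)) h3.le
      linarith
  have h4 := hanti ⟨le_rfl, ht.1.trans ht.2⟩ ht ht.1
  have h5 : W a = c := by simp [hW, hZ]
  rw [h5] at h4
  have h6 : D t ≤ Z t := h t ht
  have h7 : Z t = W t * Real.exp (K * (t - a)) := by
    rw [hW]
    simp only
    rw [mul_assoc, ← Real.exp_add]
    simp
  rw [h7] at h6
  exact h6.trans (mul_le_mul_of_nonneg_right h4 (Real.exp_pos _).le)

lemma no_exit {f : ℝ → ℝ} (hf : Continuous f) {a b M : ℝ} (h0 : f a ≤ M)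
    (h : ∀ t ∈ Set.Icc a b, (∀ s ∈ Set.Icc a t, f s ≤ M) → f t < M) :
    ∀ t ∈ Set.Icc a b, f t < M := by
  by_contra hc
  push Not at hc
  obtain ⟨t0, ht0, hM⟩ := hc
  set S : Set ℝ := Set.Icc a t0 ∩ f ⁻¹' (Set.Ici M) with hS
  have hne : S.Nonempty := ⟨t0, ⟨ht0.1, le_rfl⟩, hM⟩
  have hcl : IsCompact S := isCompact_Icc.inter_right (isClosed_Ici.preimage hf)
  obtain ⟨t1, ht1S, hmin⟩ := hcl.exists_isLeast hne
  have ht1 : t1 ∈ Set.Icc a b := ⟨ht1S.1.1, ht1S.1.2.trans ht0.2⟩
  have hlt : ∀ s ∈ Set.Icc a t1, s < t1 → f s < M := by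
    intro s hs hst
    by_contra hcon
    push Not at hcon
    have : s ∈ S := ⟨⟨hs.1, hs.2.trans ht1S.1.2⟩, hcon⟩
    exact absurd (hmin this) (not_le.mpr hst)
  have hft1 : f t1 ≤ M := by
    rcases eq_or_lt_of_le ht1.1 with heq | hlt1
    · rw [← heq]; exact h0
    · have hcont : Filter.Tendsto f (nhdsWithin t1 (Set.Iio t1)) (nhds (f t1)) :=
        hf.continuousAt.continuousWithinAt
      apply le_of_tendsto hcont
      have : Set.Ioo a t1 ∈ nhdsWithin t1 (Set.Iio t1) := Ioo_mem_nhdsLT hlt1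
      filter_upwards [this] with s hs
      exact (hlt s ⟨hs.1.le, hs.2.le⟩ hs.2).le
  have h2 : f t1 < M := h t1 ht1 (fun s hs => by
    rcases eq_or_lt_of_le hs.2 with heq | hlt2
    · rw [heq]; exact hft1
    · exact (hlt s hs hlt2).le)
  have h3 : M ≤ f t1 := ht1S.2
  linarith

end gronwall

section sol

variable (ν : ℝ) [hν : Fact (1 ≤ ν)]

/-- `u` solves `u' = θ (u_xx + u²)` on `[a, b]`. -/
def Sol (θ : ℂ) (u : ℝ → X) (a b : ℝ) : Prop := Lin θ u (fun σ => B ν (u σ) (u σ)) a b

variable {ν}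

/-- Stability of solutions. -/
lemma pert {θ : ℂ} (hre : 0 ≤ θ.re) (hθ : ‖θ‖ ≤ 1) {u c : ℝ → X} (hu : Continuous u)
    (hc : Continuous c) {a b m : ℝ} (hm : 0 ≤ m) (Lu : Sol ν θ u a b) (Lc : Sol ν θ c a b)
    (hcm : ∀ t ∈ Set.Icc a b, ‖c t‖ ≤ m)
    (hd : ‖u a - c a‖ * Real.exp ((2 * m + 1) * (b - a)) < 1) {t : ℝ} (ht : t ∈ Set.Icc a b) :
    ‖u t - c t‖ ≤ ‖u a - c a‖ * Real.exp ((2 * m + 1) * (t - a)) := by
  have hab : a ≤ b := ht.1.trans ht.2
  have hD : Continuous fun t => ‖u t - c t‖ := (hu.sub hc).norm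
  have hBu := B_continuous ν hu hu
  have hBc := B_continuous ν hc hc
  have key : ∀ t ∈ Set.Icc a b, (∀ s ∈ Set.Icc a t, ‖u s - c s‖ ≤ 1) →
      ‖u t - c t‖ ≤ ‖u a - c a‖ * Real.exp ((2 * m + 1) * (t - a)) := by
    intro t ht hs
    apply gronwall hD (b := t) (by linarith) _ ⟨ht.1, le_rfl⟩
    intro t' ht'
    have h1 := (Lu.sub Lc hu hBu hc hBc).norm_est0 (hu.sub hc) (hBu.sub hBc) hre
      (t := t') ⟨ht'.1, ht'.2.trans ht.2⟩
    refine h1.trans ?_
    have h0 : 0 ≤ ∫ σ in a..t', ‖B ν (u σ) (u σ) - B ν (c σ) (c σ)‖ :=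
      intervalIntegral.integral_nonneg ht'.1 (fun _ _ => norm_nonneg _)
    have h2 : ‖θ‖ * ∫ σ in a..t', ‖B ν (u σ) (u σ) - B ν (c σ) (c σ)‖ ≤
        ∫ σ in a..t', ‖B ν (u σ) (u σ) - B ν (c σ) (c σ)‖ := by
      calc _ ≤ 1 * ∫ σ in a..t', ‖B ν (u σ) (u σ) - B ν (c σ) (c σ)‖ :=
            mul_le_mul_of_nonneg_right hθ h0
        _ = _ := one_mul _
    have h3 : ∫ σ in a..t', ‖B ν (u σ) (u σ) - B ν (c σ) (c σ)‖ ≤
        (2 * m + 1) * ∫ σ in a..t', ‖u σ - c σ‖ := by
      rw [← intervalIntegral.integral_const_mul]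
      apply intervalIntegral.integral_mono_on ht'.1
      · exact ((hBu.sub hBc).norm).intervalIntegrable _ _
      · exact (continuous_const.mul hD).intervalIntegrable _ _
      · intro σ hσ
        refine (B_self_sub_norm_le ν _ _).trans ?_
        rw [mul_comm]
        apply mul_le_mul_of_nonneg_right _ (norm_nonneg _)
        have h4 : u σ + c σ = (u σ - c σ) + (2 : ℂ) • c σ := by
          rw [two_smul]; abel
        rw [h4]
        refine (norm_add_le _ _).trans ?_
        rw [norm_smul, Complex.norm_ofNat]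
        have h5 := hs σ ⟨hσ.1, hσ.2.trans ht'.2⟩
        have h6 := hcm σ ⟨hσ.1, hσ.2.trans (ht'.2.trans ht.2)⟩
        linarith
    linarith
  have hexp1 : ∀ t ∈ Set.Icc a b, ‖u a - c a‖ * Real.exp ((2 * m + 1) * (t - a)) ≤
      ‖u a - c a‖ * Real.exp ((2 * m + 1) * (b - a)) := by
    intro t ht
    apply mul_le_mul_of_nonneg_left _ (norm_nonneg _)
    apply Real.exp_le_exp.mpr
    apply mul_le_mul_of_nonneg_left _ (by linarith)
    linarith [ht.2]
  have hlt : ∀ t ∈ Set.Icc a b, ‖u t - c t‖ < 1 := by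
    apply no_exit hD
    · have := hexp1 a ⟨le_rfl, hab⟩
      simp only [sub_self, mul_zero, Real.exp_zero, mul_one] at this
      linarith
    · intro t ht hs
      exact (key t ht hs).trans_lt ((hexp1 t ht).trans_lt hd)
  exact key t ht (fun s hs => (hlt s ⟨hs.1, hs.2.trans ht.2⟩).le)

/-- Uniqueness. -/
lemma uniq {θ : ℂ} (hre : 0 ≤ θ.re) (hθ : ‖θ‖ ≤ 1) {u c : ℝ → X} (hu : Continuous u)
    (hc : Continuous c) {a b : ℝ} (Lu : Sol ν θ u a b) (Lc : Sol ν θ c a b)
    (h : u a = c a) {t : ℝ} (ht : t ∈ Set.Icc a b) : u t = c t := by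
  obtain ⟨m, hm⟩ := (isCompact_Icc (a := a) (b := b)).exists_bound_of_continuousOn hc.continuousOn
  have h1 := pert hre hθ hu hc (m := max m 0) (le_max_right _ _) Lu Lc
    (fun t ht => (hm t ht).trans (le_max_left _ _)) (by rw [h]; simp) ht
  rw [h, sub_self, norm_zero, zero_mul] at h1
  exact sub_eq_zero.mp (norm_le_zero_iff.mp h1)

end sol

end Pool.Agent.Helper80.B9
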