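import Pool.Agent.Helper80.B9A139.Defs
import Pool.Agent.Helper80.B9A139.Flow

/-!
# From functions on the circle to `ℓ¹`
-/

set_option autoImplicit false
set_option linter.unusedSectionVars false

namespace Pool.Agent.Helper80.B9

open Finset MeasureTheory Pool.Agent.Helper80.B9A139
open scoped ComplexConjugate

lemma integrable_cm (f : C(UnitAddCircle, ℂ)) : Integrable f (AddCircle.haarAddCircle (T := 1)) :=
  f.continuous.integrable_of_hasCompactSupport (HasCompactSupport.of_compactSpace _)

lemma norm_fourierCoeff_le (f : C(UnitAddCircle, ℂ)) (k : ℤ) : ‖fourierCoeff f k‖ ≤ ‖f‖ := by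
  rw [fourierCoeff]
  have h := norm_integral_le_of_norm_le_const (μ := AddCircle.haarAddCircle (T := 1))
    (f := fun t => fourier (-k) t • f t) (C := ‖f‖) (Filter.Eventually.of_forall (fun t => by
      rw [norm_smul]
      have h1 : ‖fourier (-k) t‖ = 1 := by rw [fourier_apply, Circle.norm_coe]
      rw [h1, one_mul]
      exact f.norm_coe_le_norm t))
  simpa using h

/-- Fourier coefficients as continuous functionals. -/
noncomputable def fc (k : ℤ) : C(UnitAddCircle, ℂ) →L[ℂ] ℂ :=
  LinearMap.mkContinuous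
    { toFun := fun f => fourierCoeff f k
      map_add' := fun f g => by
        have := fourierCoeff.add (integrable_cm f) (integrable_cm g)
        exact congrFun this k
      map_smul' := fun c f => fourierCoeff.const_smul f c k } 1 (fun f => by
        rw [one_mul]; exact norm_fourierCoeff_le f k)

lemma fc_apply (k : ℤ) (f : C(UnitAddCircle, ℂ)) : fc k f = fourierCoeff f k := rfl

lemma fourierCoeff_sub' (f g : C(UnitAddCircle, ℂ)) (k : ℤ) :
    fourierCoeff (f - g : C(UnitAddCircle, ℂ)) k = fourierCoeff f k - fourierCoeff g k := by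
  rw [← fc_apply, ← fc_apply, ← fc_apply, map_sub]

lemma fourierCoeff_fourier_mul (j k : ℤ) (g : C(UnitAddCircle, ℂ)) :
    fourierCoeff ((fourier j : C(UnitAddCircle, ℂ)) * g : C(UnitAddCircle, ℂ)) k =
      fourierCoeff g (k - j) := by
  rw [fourierCoeff, fourierCoeff]
  congr 1
  funext t
  simp only [ContinuousMap.coe_mul, Pi.mul_apply, smul_eq_mul]
  rw [← mul_assoc, ← fourier_add]
  congr 3
  ring

lemma fourierCoeff_star (f : C(UnitAddCircle, ℂ)) (k : ℤ) :
    fourierCoeff (star f : C(UnitAddCircle, ℂ)) k = conj (fourierCoeff f (-k)) := by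
  rw [fourierCoeff, fourierCoeff, ← integral_conj]
  congr 1
  funext t
  simp only [ContinuousMap.star_apply, smul_eq_mul, map_mul, neg_neg]
  rw [fourier_neg]
  rfl

section
variable {ν : ℝ} (hν : 1 ≤ ν)
include hν

lemma summable_fourierCoeff {f : C(UnitAddCircle, ℂ)} (hf : InWiener ν f) :
    Summable (fourierCoeff f) := by
  apply Summable.of_norm
  apply Summable.of_nonneg_of_le (fun _ => norm_nonneg _) _ hf
  intro k
  exact le_mul_of_one_le_right (norm_nonneg _) (one_le_pow₀ hν)

lemma fourierCoeff_mul_tsum {f : C(UnitAddCircle, ℂ)} (hf : InWiener ν f)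
    (g : C(UnitAddCircle, ℂ)) (k : ℤ) :
    fourierCoeff (f * g : C(UnitAddCircle, ℂ)) k =
      ∑' j, fourierCoeff f j * fourierCoeff g (k - j) := by
  have h1 := hasSum_fourier_series_of_summable (summable_fourierCoeff hν hf)
  have h2 := (h1.mul_right g).mapL (fc k)
  rw [fc_apply] at h2
  rw [← h2.tsum_eq]
  apply tsum_congr
  intro j
  rw [smul_mul_assoc, map_smul, smul_eq_mul, fc_apply, fourierCoeff_fourier_mul]

end

/-- The weighted coefficient sequence. -/
noncomputable def toX (ν : ℝ) (f : C(UnitAddCircle, ℂ)) : X := by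
  classical
  exact if h : InWiener ν f then mkX (fun k => (fourierCoeff f k) * (wt ν k : ℂ)) (by
    unfold InWiener at h
    refine (summable_congr (fun k => ?_)).mp (h.norm)
    rw [norm_mul, norm_mul, norm_norm, Complex.norm_real]
    rfl) else 0

lemma toX_apply {ν : ℝ} {f : C(UnitAddCircle, ℂ)} (h : InWiener ν f) (k : ℤ) :
    toX ν f k = (fourierCoeff f k) * (wt ν k : ℂ) := by
  rw [toX, dif_pos h, mkX_apply]

section
variable {ν : ℝ} [hν : Fact (1 ≤ ν)]

lemma norm_toX {f : C(UnitAddCircle, ℂ)} (h : InWiener ν f) : ‖toX ν f‖ = wienerNorm ν f := by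
  rw [X_norm_eq, wienerNorm]
  apply tsum_congr
  intro k
  rw [toX_apply h, norm_mul, Complex.norm_real, Real.norm_of_nonneg (wt_pos hν.out k).le]
  rfl

lemma InWiener.sub' {f g : C(UnitAddCircle, ℂ)} (hf : InWiener ν f) (hg : InWiener ν g) :
    InWiener ν (f - g) := by
  have hpos : ∀ k : ℤ, 0 ≤ ν ^ k.natAbs := fun k => (wt_pos hν.out k).le
  apply Summable.of_nonneg_of_le (fun k => mul_nonneg (norm_nonneg _) (hpos k)) _ (hf.add hg)
  intro k
  rw [fourierCoeff_sub', ← add_mul]
  exact mul_le_mul_of_nonneg_right (norm_sub_le _ _) (hpos k)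

lemma toX_sub {f g : C(UnitAddCircle, ℂ)} (hf : InWiener ν f) (hg : InWiener ν g) :
    toX ν (f - g) = toX ν f - toX ν g := by
  ext k
  change toX ν (f - g) k = toX ν f k - toX ν g k
  rw [toX_apply (InWiener.sub' hf hg), toX_apply hf, toX_apply hg, fourierCoeff_sub', sub_mul]

lemma B_toX {f : C(UnitAddCircle, ℂ)} (h : InWiener ν f) (k : ℤ) :
    B ν (toX ν f) (toX ν f) k =
      fourierCoeff (f * f : C(UnitAddCircle, ℂ)) k * (wt ν k : ℂ) := by
  rw [B_apply, fourierCoeff_mul_tsum hν.out h, ← tsum_mul_right]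
  apply tsum_congr
  intro j
  rw [toX_apply h, toX_apply h, rho]
  have h1 : (wt ν j : ℂ) ≠ 0 := by exact_mod_cast (wt_pos hν.out j).ne'
  have h2 : (wt ν (k - j) : ℂ) ≠ 0 := by exact_mod_cast (wt_pos hν.out (k - j)).ne'
  have h3 : j + (k - j) = k := by ring
  rw [h3]
  push_cast
  field_simp

/-- The function with given weighted coefficients. -/
noncomputable def ofX (ν : ℝ) (v : X) : C(UnitAddCircle, ℂ) :=
  ∑' k : ℤ, (v k / (wt ν k : ℂ)) • (fourier k : C(UnitAddCircle, ℂ))

lemma ofX_summable (v : X) :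
    Summable fun k : ℤ => (v k / (wt ν k : ℂ)) • (fourier k : C(UnitAddCircle, ℂ)) := by
  apply Summable.of_norm_bounded (g := fun k => ‖v k‖) (X_summable v)
  intro k
  rw [norm_smul, fourier_norm, mul_one, norm_div, Complex.norm_real,
    Real.norm_of_nonneg (wt_pos hν.out k).le]
  exact div_le_self (norm_nonneg _) (wt_one_le hν.out k)

lemma fourierCoeff_ofX (v : X) (k : ℤ) : fourierCoeff (ofX ν v) k = v k / (wt ν k : ℂ) := by
  have h := ((ofX_summable (ν := ν) v).hasSum).mapL (fc k)
  rw [← ofX, fc_apply] at h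
  rw [← h.tsum_eq, tsum_eq_single k]
  · rw [map_smul, fc_apply, fourierCoeff_fourier, Pi.single_eq_same, smul_eq_mul, mul_one]
  · intro j hj
    rw [map_smul, fc_apply, fourierCoeff_fourier, Pi.single_eq_of_ne hj.symm, smul_zero]

lemma ofX_inWiener (v : X) : InWiener ν (ofX ν v) := by
  refine (summable_congr (fun k => ?_)).mpr (X_summable v)
  rw [fourierCoeff_ofX, norm_div, Complex.norm_real, Real.norm_of_nonneg (wt_pos hν.out k).le]
  have h1 : wt ν k ≠ 0 := (wt_pos hν.out k).ne'
  change ‖v k‖ / wt ν k * wt ν k = _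
  field_simp

lemma toX_ofX (v : X) : toX ν (ofX ν v) = v := by
  ext k
  change toX ν (ofX ν v) k = v k
  rw [toX_apply (ofX_inWiener v), fourierCoeff_ofX]
  have h1 : (wt ν k : ℂ) ≠ 0 := by exact_mod_cast (wt_pos hν.out k).ne'
  field_simp

lemma ofX_real {v : X} (hv : ∀ k, (v k).im = 0 ∧ v (-k) = v k) : IsReal (ofX ν v) := by
  intro x
  have h1 := ((ofX_summable (ν := ν) v).hasSum).mapL (ContinuousMap.evalCLM ℂ x)
  have h2 : ofX ν v x = ∑' k : ℤ, (v k / (wt ν k : ℂ)) * fourier k x := by
    rw [← ofX] at h1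
    exact h1.tsum_eq.symm
  have h3 : conj (ofX ν v x) = ofX ν v x := by
    rw [h2, Complex.conj_tsum, ← (Equiv.neg ℤ).tsum_eq]
    apply tsum_congr
    intro k
    simp only [Equiv.neg_apply, map_mul, map_div₀, Complex.conj_ofReal]
    have h4 : conj (v (-k)) = v k := by
      rw [(hv k).2]
      exact Complex.conj_eq_iff_im.mpr (hv k).1
    have h5 : wt ν (-k) = wt ν k := by rw [wt, wt, Int.natAbs_neg]
    rw [h4, h5, fourier_neg, Complex.conj_conj]
  exact Complex.conj_eq_iff_im.mp h3

lemma InWiener_star {f : C(UnitAddCircle, ℂ)} (h : InWiener ν f) : InWiener ν (star f) := by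
  have h1 := (Equiv.neg ℤ).summable_iff.mpr h
  refine (summable_congr (fun k => ?_)).mpr h1
  simp only [Function.comp_apply, Equiv.neg_apply, Int.natAbs_neg]
  rw [fourierCoeff_star, RCLike.norm_conj]

lemma wienerNorm_star (f : C(UnitAddCircle, ℂ)) : wienerNorm ν (star f) = wienerNorm ν f := by
  rw [wienerNorm, wienerNorm, ← (Equiv.neg ℤ).tsum_eq (fun k : ℤ => ‖fourierCoeff f k‖ * _)]
  apply tsum_congr
  intro k
  simp only [Equiv.neg_apply, Int.natAbs_neg]
  rw [fourierCoeff_star, RCLike.norm_conj]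

/-- Time reversal. -/
lemma reverse_solution {u : ℝ → C(UnitAddCircle, ℂ)} (h : IsSolutionOn ν (Set.Iic 0) u) :
    IsSolutionOn ν (Set.Ici 0) (fun t => star (u (-t))) := by
  have hmem : ∀ t ∈ Set.Ici (0 : ℝ), -t ∈ Set.Iic (0 : ℝ) := by
    intro t ht
    rw [Set.mem_Iic]; rw [Set.mem_Ici] at ht; linarith
  have hneg : ∀ t : ℝ, Filter.Tendsto (fun s : ℝ => -s) (nhdsWithin t (Set.Ici 0))
      (nhdsWithin (-t) (Set.Iic 0)) := by
    intro t
    apply tendsto_nhdsWithin_of_tendsto_nhds_of_eventually_within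
    · exact (continuous_neg.tendsto t).mono_left nhdsWithin_le_nhds
    · filter_upwards [self_mem_nhdsWithin] with s hs
      exact hmem s hs
  refine ⟨?_, ?_, ?_⟩
  · intro t ht
    exact InWiener_star (h.mem _ (hmem t ht))
  · intro t ht
    have h1 := (h.cont (-t) (hmem t ht)).comp (hneg t)
    refine h1.congr (fun s => ?_)
    have e : star (u (-s)) - star (u (-t)) = star (u (-s) - u (-t)) := by
      ext x; simp
    simp only [Function.comp_apply]
    rw [e, wienerNorm_star]
  · intro k t ht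
    have h1 := h.eqn (-k) (-t) (hmem t ht)
    have h2 : HasDerivWithinAt (fun s : ℝ => -s) (-1) (Set.Ici 0) t :=
      (hasDerivAt_neg t).hasDerivWithinAt
    have h3 := h1.scomp t h2 (fun s hs => hmem s hs)
    have h4 := (Complex.conjCLE.hasFDerivAt (x := fourierCoeff (u (-t)) (-k))).comp_hasDerivWithinAt
      t h3
    have h5 : (fun s => fourierCoeff (star (u (-s)) : C(UnitAddCircle, ℂ)) k) =
        (fun s => Complex.conjCLE (fourierCoeff (u (-s)) (-k))) := by
      funext s
      rw [fourierCoeff_star]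
      rfl
    rw [h5]
    refine h4.congr_deriv ?_
    have h6 : fourierCoeff (star (u (-t)) * star (u (-t)) : C(UnitAddCircle, ℂ)) k =
        conj (fourierCoeff (u (-t) * u (-t) : C(UnitAddCircle, ℂ)) (-k)) := by
      rw [← fourierCoeff_star, star_mul]
    have h7 : conj (2 : ℂ) = 2 := Complex.conj_eq_iff_im.mpr (by simp)
    rw [h6, fourierCoeff_star]
    change conj ((-1 : ℝ) • (Complex.I * (-(2 * (Real.pi : ℂ) * ((-k : ℤ) : ℂ)) ^ 2 *
      fourierCoeff (u (-t)) (-k) + fourierCoeff (u (-t) * u (-t) : C(UnitAddCircle, ℂ)) (-k)))) = _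
    simp only [Complex.real_smul, map_mul, map_add, map_neg, map_pow, Complex.conj_I,
      Complex.conj_ofReal, h7, Complex.ofReal_neg, Complex.ofReal_one, map_one, Int.cast_neg,
      map_intCast]
    ring

end

end Pool.Agent.Helper80.B9
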