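import Pool.Agent.Helper80.B9A139.Local

/-!
# Commutation of the heat flow and the Schrödinger flow
-/

set_option autoImplicit false

namespace Pool.Agent.Helper80.B9

open Finset MeasureTheory

variable {ν : ℝ} [hν : Fact (1 ≤ ν)]

/-- A heat solution `U` together with Schrödinger solutions `F σ` issued from all `U σ`. -/
structure Fam (ν : ℝ) [Fact (1 ≤ ν)] (U : ℝ → X) (F : ℝ → ℝ → X) : Prop where
  hU : Continuous U
  sU : ∀ b, 0 ≤ b → Sol ν 1 U 0 b
  F0 : ∀ σ, 0 ≤ σ → F σ 0 = U σ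
  cF : ∀ σ, 0 ≤ σ → Continuous (F σ)
  sF : ∀ σ, 0 ≤ σ → ∀ b, 0 ≤ b → Sol ν Complex.I (F σ) 0 b

/-- The family clipped in `σ`. -/
def Fc (F : ℝ → ℝ → X) (t σ : ℝ) : X := F (max σ 0) t

lemma Fc_of_nonneg (F : ℝ → ℝ → X) (t : ℝ) {σ : ℝ} (hσ : 0 ≤ σ) : Fc F t σ = F σ t := by
  rw [Fc, max_eq_left hσ]

variable {U : ℝ → X} {F : ℝ → ℝ → X}

lemma Fam.cont_dep (h : Fam ν U F) {T σ₀ ε : ℝ} (hσ₀ : 0 ≤ σ₀) (hε : 0 < ε) :
    ∃ δ > 0, ∀ σ, 0 ≤ σ → |σ - σ₀| < δ → ∀ t ∈ Set.Icc 0 T, ‖F σ t - F σ₀ t‖ ≤ ε := by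
  by_cases hT : T < 0
  · refine ⟨1, one_pos, fun σ _ _ t ht => ?_⟩
    exact absurd (ht.1.trans ht.2) (not_le.mpr hT)
  push Not at hT
  obtain ⟨m, hm⟩ := (isCompact_Icc (a := (0 : ℝ)) (b := T)).exists_bound_of_continuousOn
    (h.cF σ₀ hσ₀).continuousOn
  set m' := max m 0 with hm'
  set K := Real.exp ((2 * m' + 1) * (T - 0)) with hK
  have hKpos : 0 < K := Real.exp_pos _
  have hη : 0 < min (1 / 2) ε / K := by positivity
  obtain ⟨δ, hδ, hδ'⟩ := Metric.continuousAt_iff.mp (h.hU.continuousAt (x := σ₀)) _ hη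
  refine ⟨δ, hδ, fun σ hσ hd t ht => ?_⟩
  have h1 := hδ' (x := σ) (by rwa [Real.dist_eq])
  rw [dist_eq_norm] at h1
  have h2 : ‖F σ 0 - F σ₀ 0‖ * K < min (1 / 2) ε := by
    rw [h.F0 σ hσ, h.F0 σ₀ hσ₀]
    rwa [lt_div_iff₀ hKpos] at h1
  have h3 := pert (by simp) (by simp) (h.cF σ hσ) (h.cF σ₀ hσ₀) (le_max_right m 0)
    (h.sF σ hσ T hT) (h.sF σ₀ hσ₀ T hT)
    (fun t ht => (hm t ht).trans (le_max_left _ _))
    (by
      have := min_le_left (1 / 2 : ℝ) ε
      linarith) ht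
  refine h3.trans ?_
  have h4 : Real.exp ((2 * m' + 1) * (t - 0)) ≤ K := by
    apply Real.exp_le_exp.mpr
    apply mul_le_mul_of_nonneg_left _ (by positivity)
    linarith [ht.2]
  have h5 := mul_le_mul_of_nonneg_left h4 (norm_nonneg (F σ 0 - F σ₀ 0))
  have := min_le_right (1 / 2 : ℝ) ε
  linarith

lemma Fam.bounded (h : Fam ν U F) (S T : ℝ) :
    ∃ M, ∀ σ ∈ Set.Icc 0 S, ∀ t ∈ Set.Icc 0 T, ‖F σ t‖ ≤ M := by
  apply (isCompact_Icc (a := (0 : ℝ)) (b := S)).induction_on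
    (p := fun s => ∃ M, ∀ σ ∈ s, ∀ t ∈ Set.Icc 0 T, ‖F σ t‖ ≤ M)
  · exact ⟨0, by simp⟩
  · rintro s t hst ⟨M, hM⟩
    exact ⟨M, fun σ hσ => hM σ (hst hσ)⟩
  · rintro s t ⟨M, hM⟩ ⟨M', hM'⟩
    refine ⟨max M M', fun σ hσ τ hτ => ?_⟩
    rcases hσ with hσ | hσ
    · exact (hM σ hσ τ hτ).trans (le_max_left _ _)
    · exact (hM' σ hσ τ hτ).trans (le_max_right _ _)
  · intro σ₀ hσ₀
    obtain ⟨m, hm⟩ := (isCompact_Icc (a := (0 : ℝ)) (b := T)).exists_bound_of_continuousOn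
      (h.cF σ₀ hσ₀.1).continuousOn
    obtain ⟨δ, hδ, hδ'⟩ := h.cont_dep (T := T) hσ₀.1 one_pos
    refine ⟨Metric.ball σ₀ δ ∩ Set.Icc 0 S, ?_, m + 1, ?_⟩
    · exact Filter.inter_mem (mem_nhdsWithin_of_mem_nhds (Metric.ball_mem_nhds σ₀ hδ))
        self_mem_nhdsWithin
    · rintro σ ⟨hσ, hσ'⟩ t ht
      have h1 := hδ' σ hσ'.1 (by rwa [Metric.mem_ball, Real.dist_eq] at hσ) t ht
      have h2 := hm t ht
      have h3 : F σ t = (F σ t - F σ₀ t) + F σ₀ t := by abel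
      rw [h3]
      refine (norm_add_le _ _).trans ?_
      linarith

lemma Fam.continuous_Fc (h : Fam ν U F) {t : ℝ} (ht : 0 ≤ t) : Continuous (Fc F t) := by
  have h1 : ContinuousOn (fun σ => F σ t) (Set.Ici 0) := by
    intro σ₀ hσ₀
    rw [Metric.continuousWithinAt_iff]
    intro ε hε
    obtain ⟨δ, hδ, hδ'⟩ := h.cont_dep (T := t) hσ₀ (half_pos hε)
    refine ⟨δ, hδ, fun σ hσ hd => ?_⟩
    rw [dist_eq_norm]
    have := hδ' σ hσ (by rwa [Real.dist_eq] at hd) t ⟨ht, le_rfl⟩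
    linarith
  exact h1.comp_continuous (continuous_id.max continuous_const)
    (fun σ => Set.mem_Ici.mpr (le_max_right _ _))

/-- Local propagation in `t`. -/
lemma Fam.step (h : Fam ν U F) {σ₀ t₀ a M : ℝ} (hσ₀ : 0 ≤ σ₀) (ht₀ : 0 ≤ t₀) (ha : 0 ≤ a)
    (hM : ‖F σ₀ t₀‖ ≤ M) (haM : 16 * M * a ≤ 1)
    (hQ : Sol ν 1 (fun s => Fc F t₀ (s + σ₀)) 0 a) {τ : ℝ} (hτ : τ ∈ Set.Icc 0 a) :
    Sol ν 1 (fun s => Fc F (t₀ + τ) (s + σ₀)) 0 a := by
  obtain ⟨G, hG, hG0, -, hGh, hGv⟩ := local_sol ν (F σ₀ t₀) hM ha haM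
  have hcF := h.continuous_Fc ht₀
  -- on the bottom side
  have h1 : ∀ s ∈ Set.Icc 0 a, Fc F t₀ (s + σ₀) = G s := by
    intro s hs
    have h2 := hGh 0 ⟨by linarith, ha⟩
    have h3 := uniq (u := fun s => Fc F t₀ (s + σ₀)) (c := fun s : ℝ => G (s + (0 : ℝ) * Complex.I))
      (by simp) (by simp) (hcF.comp (continuous_id.add continuous_const))
      (hG.comp (by fun_prop)) hQ h2 (by
        simp only [zero_add, Complex.ofReal_zero, zero_mul]
        rw [Fc_of_nonneg F t₀ hσ₀, hG0]) hs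
    simpa using h3
  -- vertical propagation
  have h2 : ∀ s ∈ Set.Icc 0 a, Fc F (t₀ + τ) (s + σ₀) = G (s + τ * Complex.I) := by
    intro s hs
    have hsσ : 0 ≤ s + σ₀ := by linarith [hs.1]
    rw [Fc_of_nonneg F _ hsσ]
    have hcs := h.cF (s + σ₀) hsσ
    have h3 : Sol ν Complex.I (fun t => F (s + σ₀) (t + t₀)) 0 a := by
      have h4 := (h.sF (s + σ₀) hsσ (a + t₀) (by linarith)).mono hcs (B_continuous ν hcs hcs)
        (a' := t₀) (b' := a + t₀) ht₀ le_rfl (by linarith)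
      have h5 := h4.shift t₀
      simp only [sub_self, add_sub_cancel_right] at h5
      exact h5
    have h6 : Sol ν Complex.I (fun t : ℝ => G (s + t * Complex.I)) 0 a := by
      have hcG : Continuous fun t : ℝ => G (s + t * Complex.I) := hG.comp (by fun_prop)
      exact (hGv s hs).mono hcG (B_continuous ν hcG hcG) (by linarith) le_rfl ha
    have h7 := uniq (u := fun t => F (s + σ₀) (t + t₀)) (c := fun t : ℝ => G (s + t * Complex.I))
      (by simp) (by simp) (hcs.comp (continuous_id.add continuous_const))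
      (hG.comp (by fun_prop)) h3 h6 (by
        simp only [zero_add, Complex.ofReal_zero, zero_mul, add_zero]
        rw [← h1 s hs, Fc_of_nonneg F _ hsσ]) hτ
    rw [add_comm t₀ τ]
    exact h7
  have h3 := hGh τ ⟨by linarith [hτ.1], hτ.2⟩
  apply h3.congr h2
  intro s hs
  simp only [h2 s hs]

/-- The commutation theorem: for fixed `t`, `σ ↦ F σ t` is a heat solution. -/
theorem Fam.heat (h : Fam ν U F) {t : ℝ} (ht : 0 ≤ t) (S : ℝ) (hS : 0 ≤ S) :
    Sol ν 1 (Fc F t) 0 S := by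
  obtain ⟨M0, hM0⟩ := h.bounded (S + 1) t
  set M := max M0 1 with hM
  have hM1 : 1 ≤ M := le_max_right _ _
  set a := 1 / (16 * M) with ha
  have hapos : 0 < a := by positivity
  have haM : 16 * M * a ≤ 1 := by
    rw [ha, mul_one_div, div_self (by positivity)]
  -- local statement in `σ`
  have hloc : ∀ σ₀ ∈ Set.Icc 0 S, Sol ν 1 (fun s => Fc F t (s + σ₀)) 0 a := by
    intro σ₀ hσ₀
    have hind : ∀ n : ℕ, ∀ t' ∈ Set.Icc 0 t, t' ≤ n * a →
        Sol ν 1 (fun s => Fc F t' (s + σ₀)) 0 a := by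
      intro n
      induction n with
      | zero =>
        intro t' ht' h0
        have : t' = 0 := le_antisymm (by simpa using h0) ht'.1
        rw [this]
        have h1 := (h.sU (a + σ₀) (by linarith [hσ₀.1])).mono h.hU
          (B_continuous ν h.hU h.hU) (a' := σ₀) (b' := a + σ₀) hσ₀.1 le_rfl (by linarith)
        have h2 := h1.shift σ₀
        simp only [sub_self, add_sub_cancel_right] at h2
        have h3 : ∀ s ∈ Set.Icc 0 a, Fc F 0 (s + σ₀) = U (s + σ₀) := by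
          intro s hs
          have : 0 ≤ s + σ₀ := by linarith [hs.1, hσ₀.1]
          rw [Fc_of_nonneg F 0 this, h.F0 _ this]
        apply Lin.congr h2 h3
        intro s hs
        simp only [h3 s hs]
      | succ n ih =>
        intro t' ht' hn
        by_cases hle : t' ≤ n * a
        · exact ih t' ht' hle
        · push Not at hle
          have hn0 : 0 ≤ (n : ℝ) * a := by positivity
          have h1 := ih (n * a) ⟨hn0, hle.le.trans ht'.2⟩ le_rfl
          have h2 := h.step hσ₀.1 hn0 hapos.le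
            ((hM0 σ₀ ⟨hσ₀.1, by linarith [hσ₀.2]⟩ (n * a) ⟨hn0, hle.le.trans ht'.2⟩).trans
              (le_max_left _ _)) haM h1 (τ := t' - n * a) ⟨by linarith, by
                push_cast at hn; linarith⟩
          simpa using h2
    obtain ⟨n, hn⟩ := exists_nat_ge (t / a)
    exact hind n t ⟨ht, le_rfl⟩ (by rwa [div_le_iff₀ hapos] at hn)
  -- gluing in `σ`
  have hc := h.continuous_Fc ht
  have hglue : ∀ n : ℕ, ∀ s ∈ Set.Icc 0 S, s ≤ n * a → Sol ν 1 (Fc F t) 0 s := by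
    intro n
    induction n with
    | zero =>
      intro s hs h0
      have : s = 0 := le_antisymm (by simpa using h0) hs.1
      rw [this]
      intro k r hr
      have : r = 0 := le_antisymm hr.2 hr.1
      rw [this]
      simp
    | succ n ih =>
      intro s hs hn
      by_cases hle : s ≤ n * a
      · exact ih s hs hle
      · push Not at hle
        have hn0 : 0 ≤ (n : ℝ) * a := by positivity
        have h1 := ih (n * a) ⟨hn0, hle.le.trans hs.2⟩ le_rfl
        have h2 := (hloc (n * a) ⟨hn0, hle.le.trans hs.2⟩).shift (-(n * a))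
        simp only [sub_neg_eq_add, zero_add, neg_add_cancel_right] at h2
        push_cast at hn
        have h3 : Sol ν 1 (Fc F t) (n * a) s := by
          refine Lin.mono (a := n * a) (b := a + n * a) ?_ hc (B_continuous ν hc hc) le_rfl
            (by linarith) hle.le
          exact h2
        exact Lin.glue h1 h3 hc (B_continuous ν hc hc) hn0
  obtain ⟨n, hn⟩ := exists_nat_ge (S / a)
  exact hglue n S ⟨hS, le_rfl⟩ (by rwa [div_le_iff₀ hapos] at hn)

end Pool.Agent.Helper80.B9
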