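import Mathlib

/-!
# The quadratic Schrödinger equation in the weighted Wiener algebra: definitions
-/

set_option autoImplicit false

namespace Pool.Agent.Helper80.B9A139

open Filter Topology

/-- The norm `‖f‖ = ∑_k |f̂(k)| ν^|k|` of a continuous function on `𝕋 = ℝ/ℤ`. -/
noncomputable def wienerNorm (ν : ℝ) (f : C(UnitAddCircle, ℂ)) : ℝ :=
  ∑' k : ℤ, ‖fourierCoeff f k‖ * ν ^ k.natAbs

/-- `f` belongs to the weighted Wiener algebra `A_ν(𝕋)`. -/
def InWiener (ν : ℝ) (f : C(UnitAddCircle, ℂ)) : Prop :=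
  Summable fun k : ℤ => ‖fourierCoeff f k‖ * ν ^ k.natAbs

/-- `f` is real valued. -/
def IsReal (f : C(UnitAddCircle, ℂ)) : Prop := ∀ x, (f x).im = 0

/-- `u` is a solution of `-i u_t = u_xx + u²` on the time interval `J`, in `A_ν(𝕋)`:
`u : J → A_ν(𝕋)` is continuous for the norm of `A_ν(𝕋)`, and for every `k ∈ ℤ` the Fourier
coefficient `û(t, k)` is differentiable on `J` with
`d/dt û(t, k) = i (-(2πk)² û(t, k) + (u(t)²)^(k))`. -/
structure IsSolutionOn (ν : ℝ) (J : Set ℝ) (u : ℝ → C(UnitAddCircle, ℂ)) : Prop where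
  mem : ∀ t ∈ J, InWiener ν (u t)
  cont : ∀ t ∈ J, Tendsto (fun s => wienerNorm ν (u s - u t)) (𝓝[J] t) (𝓝 0)
  eqn : ∀ k : ℤ, ∀ t ∈ J, HasDerivWithinAt (fun s => fourierCoeff (u s) k)
    (Complex.I * (-(2 * (Real.pi : ℂ) * k) ^ 2 * fourierCoeff (u t) k +
      fourierCoeff (u t * u t) k)) J t

end Pool.Agent.Helper80.B9A139
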