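import Pool.Agent.Helper80.B9A139.Heat
import Pool.Agent.Helper80.B9A139.Commute

/-!
# The contradiction
-/

set_option autoImplicit false

namespace Pool.Agent.Helper80.B9

open Finset MeasureTheory

variable {ν : ℝ} [hν : Fact (1 ≤ ν)]

/-- Heat solutions starting near a constant `1 / w` with `|Im w| ≥ 3` stay in the unit ball. -/
lemma stays_in_ball {u : ℝ → X} (hu : Continuous u) (hs : ∀ b, 0 ≤ b → Sol ν 1 u 0 b)
    {w : ℂ} (hw : w * u 0 0 = 1) (him : 3 ≤ |w.im|) (hwn : ‖w‖ ≤ 7) (hm : ‖mf (u 0)‖ ≤ 1 / 100) :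
    ∀ s, 0 ≤ s → ‖u s‖ ≤ 1 := by
  have hwge : 3 ≤ ‖w‖ := him.trans (Complex.abs_im_le_norm w)
  have hna : ‖w‖ * ‖u 0 0‖ = 1 := by rw [← norm_mul, hw, norm_one]
  have ha1 : ‖u 0 0‖ ≤ 1 / 3 := by
    by_contra hc
    push Not at hc
    nlinarith
  have ha2 : 1 / 7 ≤ ‖u 0 0‖ := by
    by_contra hc
    push Not at hc
    nlinarith [norm_nonneg (u 0 0)]
  set v0 := ‖mf (u 0)‖ with hv0
  have hv00 : 0 ≤ v0 := norm_nonneg _
  have hv2 : v0 ^ 2 ≤ 1 / 10000 := by nlinarith
  intro T hT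
  have hmain : ∀ t ∈ Set.Icc 0 T, ‖u t‖ < 1 := by
    apply no_exit hu.norm
    · rw [norm_eq_mf]; linarith
    intro t ht hb
    have hv : ∀ s ∈ Set.Icc 0 t, ‖mf (u s)‖ ≤ v0 * Real.exp (-37 * s) := fun s hs' =>
      mf_decay hu (hs t ht.1) hb hs'
    have hq : ∀ s ∈ Set.Icc 0 t,
        ‖B ν (mf (u s)) (mf (u s)) 0‖ ≤ v0 ^ 2 * Real.exp (-74 * s) := by
      intro s hs'
      refine (norm_B_mf_coord_le ν (u s) 0).trans ?_
      have h1 := pow_le_pow_left₀ (norm_nonneg _) (hv s hs') 2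
      refine h1.trans (le_of_eq ?_)
      rw [mul_pow, ← Real.exp_nat_mul]
      congr 2
      push_cast
      ring
    -- weighted sup of psi
    have hcf : ContinuousOn (fun s => ‖psi u s‖ / (1 + s)) (Set.Icc 0 t) := by
      apply ContinuousOn.div (psi_continuous hu).norm.continuousOn
        (continuous_const.add continuous_id).continuousOn
      intro s hs'
      have : 0 ≤ s := hs'.1
      change 1 + s ≠ 0
      positivity
    obtain ⟨sM, hsM, hmax⟩ := isCompact_Icc.exists_isMaxOn (Set.nonempty_Icc.mpr ht.1) hcf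
    set S := ‖psi u sM‖ / (1 + sM) with hSdef
    have hsM0 : 0 ≤ sM := hsM.1
    have hS0 : 0 ≤ S := by positivity
    have hS : ∀ s ∈ Set.Icc 0 t, ‖psi u s‖ ≤ S * (1 + s) := by
      intro s hs'
      have h1 : ‖psi u s‖ / (1 + s) ≤ S := hmax hs'
      have : 0 < 1 + s := by linarith [hs'.1]
      rwa [div_le_iff₀ this] at h1
    have hchi : ∀ s ∈ Set.Icc 0 t, ‖chi u s - u 0 0‖ ≤ S * v0 ^ 2 := by
      intro s hs'
      have h2 := chi_sub hu (hs t ht.1) le_rfl hs'.1 hs'.2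
      rw [chi_zero] at h2
      rw [h2]
      have h3 : ‖∫ σ in (0 : ℝ)..s, B ν (mf (u σ)) (mf (u σ)) 0 * psi u σ‖ ≤
          ∫ σ in (0 : ℝ)..s, (S * v0 ^ 2) * Real.exp (-73 * σ) := by
        apply intervalIntegral.norm_integral_le_of_norm_le hs'.1
        · apply Filter.Eventually.of_forall
          intro σ hσ
          have hσ' : σ ∈ Set.Icc 0 t := ⟨hσ.1.le, hσ.2.trans hs'.2⟩
          rw [norm_mul]
          have h4 : 1 + σ ≤ Real.exp σ := by linarith [Real.add_one_le_exp σ]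
          calc _ ≤ (v0 ^ 2 * Real.exp (-74 * σ)) * (S * (1 + σ)) :=
                mul_le_mul (hq σ hσ') (hS σ hσ') (norm_nonneg _) (by positivity)
            _ = (S * v0 ^ 2 * Real.exp (-74 * σ)) * (1 + σ) := by ring
            _ ≤ (S * v0 ^ 2 * Real.exp (-74 * σ)) * Real.exp σ :=
                mul_le_mul_of_nonneg_left h4 (by positivity)
            _ = S * v0 ^ 2 * (Real.exp (-74 * σ) * Real.exp σ) := by ring
            _ = _ := by
              rw [← Real.exp_add]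
              congr 2
              ring
        · apply Continuous.intervalIntegrable
          fun_prop
      rw [intervalIntegral.integral_const_mul] at h3
      have h5 := int_exp (c := 73) (by norm_num) hs'.1
      simp only [mul_zero, Real.exp_zero] at h5
      have h6 : (S * v0 ^ 2) * ∫ σ in (0 : ℝ)..s, Real.exp (-73 * σ) ≤ (S * v0 ^ 2) * (1 / 73) :=
        mul_le_mul_of_nonneg_left h5 (by positivity)
      have h7 : 0 ≤ S * v0 ^ 2 := by positivity
      linarith
    have hpsi : ∀ s ∈ Set.Icc 0 t, ‖psi u s - (1 - u 0 0 * s)‖ ≤ s * (S * v0 ^ 2) := by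
      intro s hs'
      have h1 := psi_sub hu 0 s
      rw [psi_zero] at h1
      have h2 : psi u s - (1 - u 0 0 * s) = -∫ σ in (0 : ℝ)..s, (chi u σ - u 0 0) := by
        rw [intervalIntegral.integral_sub ((chi_continuous hu).intervalIntegrable _ _)
          (continuous_const.intervalIntegrable _ _), intervalIntegral.integral_const, sub_zero]
        simp only [Complex.real_smul]
        linear_combination h1
      rw [h2, norm_neg]
      have h3 := intervalIntegral.norm_integral_le_of_norm_le_const (a := 0) (b := s)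
        (f := fun σ => chi u σ - u 0 0) (C := S * v0 ^ 2) (by
          intro σ hσ
          rw [Set.uIoc_of_le hs'.1] at hσ
          exact hchi σ ⟨hσ.1.le, hσ.2.trans hs'.2⟩)
      rw [sub_zero, abs_of_nonneg hs'.1] at h3
      rwa [mul_comm] at h3
    have hS2 : S ≤ 2 := by
      have h1 := hpsi sM hsM
      have h2 : ‖psi u sM‖ ≤ ‖psi u sM - (1 - u 0 0 * sM)‖ + ‖1 - u 0 0 * (sM : ℂ)‖ := by
        have : psi u sM = (psi u sM - (1 - u 0 0 * sM)) + (1 - u 0 0 * sM) := by ring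
        conv_lhs => rw [this]
        exact norm_add_le _ _
      have h3 : ‖1 - u 0 0 * (sM : ℂ)‖ ≤ 1 + sM := by
        refine (norm_sub_le _ _).trans ?_
        rw [norm_one, norm_mul, Complex.norm_real, Real.norm_of_nonneg hsM0]
        nlinarith
      have h4 : ‖psi u sM‖ = S * (1 + sM) := by
        rw [hSdef, div_mul_cancel₀]
        positivity
      have h5 : S * (1 + sM) ≤ (1 + sM) * (S * v0 ^ 2) + (1 + sM) := by
        have h6 : 0 ≤ S * v0 ^ 2 := by positivity
        nlinarith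
      have h6 : S ≤ S * v0 ^ 2 + 1 := by
        have h7 : (1 + sM) * S ≤ (1 + sM) * (S * v0 ^ 2 + 1) := by linarith
        exact le_of_mul_le_mul_left h7 (by positivity)
      nlinarith
    have htt : t ∈ Set.Icc 0 t := ⟨ht.1, le_rfl⟩
    have h1 := hchi t htt
    have h2 := hpsi t htt
    have h3 : S * v0 ^ 2 ≤ 2 / 10000 := by nlinarith [sq_nonneg v0]
    have hchit : ‖chi u t‖ ≤ ‖u 0 0‖ + 2 / 10000 := by
      have : chi u t = (chi u t - u 0 0) + u 0 0 := by ring
      rw [this]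
      refine (norm_add_le _ _).trans ?_
      linarith
    have h4 : ‖1 - u 0 0 * (t : ℂ)‖ = ‖u 0 0‖ * ‖w - t‖ := by
      rw [← norm_mul]
      congr 1
      linear_combination -hw
    have h5 : 3 ≤ ‖w - (t : ℂ)‖ := by
      refine him.trans ?_
      have := Complex.abs_im_le_norm (w - (t : ℂ))
      simpa using this
    have h6 : t ≤ ‖w - (t : ℂ)‖ + 7 := by
      have h7 : (t : ℂ) = w - (w - t) := by ring
      have h8 : ‖(t : ℂ)‖ ≤ ‖w‖ + ‖w - (t : ℂ)‖ := by
        conv_lhs => rw [h7]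
        exact norm_sub_le _ _
      rw [Complex.norm_real, Real.norm_of_nonneg ht.1] at h8
      linarith
    have h7 : ‖u 0 0‖ * ‖w - t‖ - t * (2 / 10000) ≤ ‖psi u t‖ := by
      have h8 : (1 - u 0 0 * (t : ℂ)) = psi u t - (psi u t - (1 - u 0 0 * t)) := by ring
      have h9 : ‖1 - u 0 0 * (t : ℂ)‖ ≤ ‖psi u t‖ + ‖psi u t - (1 - u 0 0 * t)‖ := by
        conv_lhs => rw [h8]
        exact norm_sub_le _ _
      rw [h4] at h9
      have h10 : t * (S * v0 ^ 2) ≤ t * (2 / 10000) := mul_le_mul_of_nonneg_left h3 ht.1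
      linarith
    have h8 : ‖chi u t‖ = ‖u t 0‖ * ‖psi u t‖ := by rw [chi, norm_mul]
    have h9 : ‖u t 0‖ ≤ 9 / 10 := by
      by_contra hc
      push Not at hc
      have h10 : 0 < ‖psi u t‖ := norm_pos_iff.mpr (psi_ne_zero t)
      have h11 : 9 / 10 * ‖psi u t‖ < ‖chi u t‖ := by
        rw [h8]
        exact mul_lt_mul_of_pos_right hc h10
      nlinarith [mul_nonneg (sub_nonneg.mpr ha2) (sub_nonneg.mpr h5)]
    rw [norm_eq_mf]
    have h10 := hv t htt
    have h11 : Real.exp (-37 * t) ≤ 1 := by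
      rw [Real.exp_le_one_iff]
      nlinarith [ht.1]
    have h12 : v0 * Real.exp (-37 * t) ≤ 1 / 100 := by
      calc _ ≤ (1 / 100) * 1 := mul_le_mul hm h11 (Real.exp_pos _).le (by norm_num)
        _ = _ := by ring
    linarith
  exact (hmain T ⟨hT, le_rfl⟩).le

/-- Such solutions do not decay exponentially. -/
lemma no_decay {u : ℝ → X} (hu : Continuous u) (hs : ∀ b, 0 ≤ b → Sol ν 1 u 0 b)
    {w : ℂ} (hw : w * u 0 0 = 1) (him : 3 ≤ |w.im|) (hwn : ‖w‖ ≤ 7) (hm : ‖mf (u 0)‖ ≤ 1 / 100)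
    {K : ℝ} (hK : ∀ s, 0 ≤ s → ‖u s‖ ≤ K * Real.exp (-30 * s)) : False := by
  have h1 := (ball_case hu hs (stays_in_ball hu hs hw him hwn hm) hK).1
  have hna : ‖w‖ * ‖u 0 0‖ = 1 := by rw [← norm_mul, hw, norm_one]
  have h2 : ‖mf (u 0)‖ ^ 2 ≤ 1 / 10000 := by nlinarith [norm_nonneg (mf (u 0))]
  nlinarith [norm_nonneg (u 0 0)]

lemma B_sg_sg (a : ℂ) : B ν (sg 0 a) (sg 0 a) = sg 0 (a ^ 2) := by
  rw [B_sg_zero]
  ext k
  change a * sg 0 a k = _
  rw [sg_apply, sg_apply]
  split_ifs <;> ring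

/-- Constant solutions. -/
lemma const_sol {θ w : ℂ} (hw : ∀ t : ℝ, 0 ≤ t → w - θ * t ≠ 0) :
    Continuous (fun t : ℝ => sg 0 (1 / (w - θ * (max t 0 : ℝ)))) ∧
      ∀ b, 0 ≤ b → Sol ν θ (fun t : ℝ => sg 0 (1 / (w - θ * (max t 0 : ℝ)))) 0 b := by
  have hc1 : Continuous (fun t : ℝ => 1 / (w - θ * (max t 0 : ℝ))) := by
    apply Continuous.div continuous_const
    · fun_prop
    · intro t
      exact hw _ (le_max_right _ _)
  refine ⟨?_, ?_⟩
  · have : (fun t : ℝ => sg 0 (1 / (w - θ * (max t 0 : ℝ)))) =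
        fun t : ℝ => (1 / (w - θ * (max t 0 : ℝ))) • sg 0 1 := by
      funext t; rw [sg_eq_smul]
    rw [this]
    exact hc1.smul continuous_const
  · intro b hb k t ht
    simp only [B_sg_sg, sg_apply]
    split_ifs with hk
    · have hd : ∀ x ∈ Set.Ioo 0 t, HasDerivAt (fun t : ℝ => 1 / (w - θ * (max t 0 : ℝ)))
          (θ * (1 / (w - θ * (max x 0 : ℝ))) ^ 2) x := by
        intro x hx
        have h1 : HasDerivAt (fun t : ℝ => w - θ * (t : ℂ)) (-(θ * 1)) x :=
          ((Complex.ofRealCLM.hasDerivAt (x := x)).const_mul θ).const_sub w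
        have hne : w - θ * (x : ℂ) ≠ 0 := hw x hx.1.le
        have h2 := h1.fun_inv hne
        have h3 : (fun t : ℝ => 1 / (w - θ * (max t 0 : ℝ))) =ᶠ[nhds x]
            fun t : ℝ => (w - θ * (t : ℂ))⁻¹ := by
          filter_upwards [Ioi_mem_nhds hx.1] with s hs
          rw [max_eq_left (le_of_lt hs), one_div]
        apply (h2.congr_of_eventuallyEq h3).congr_deriv
        rw [max_eq_left hx.1.le]
        field_simp
      have h4 := intervalIntegral.integral_eq_sub_of_hasDerivAt_of_le ht.1 hc1.continuousOn hd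
        ((continuous_const.mul (hc1.pow 2)).intervalIntegrable _ _)
      subst hk
      rw [om_zero]
      simp only [Complex.ofReal_zero, neg_zero, zero_mul, zero_add]
      rw [h4]
      ring
    · simp

lemma mf_sub_sg (u : X) (a : ℂ) : mf u = mf (u - sg 0 a) := by
  ext k
  change mf u k = mf (u - sg 0 a) k
  rw [mf_apply, mf_apply]
  split_ifs with h
  · rfl
  · rw [X_sub_apply, sg_apply, if_neg h, sub_zero]

/-- Moving away from the singularity by a Schrödinger shift of length `4`. -/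
lemma shift_const {p : ℝ → X} (hp : Continuous p) {e : ℝ} (he : e = 1 ∨ e = -1)
    (hs : Sol ν ((e : ℂ) * Complex.I) p 0 4) (hn : ‖p 0‖ = 1)
    (hm : ‖mf (p 0)‖ * Real.exp 12 ≤ 1 / 100) {w : ℂ} (hw : w * p 0 0 = 1) (hew : e * w.im ≤ 0) :
    ‖mf (p 4)‖ ≤ 1 / 100 ∧ ∃ w' : ℂ, w' * p 4 0 = 1 ∧ 3 ≤ |w'.im| ∧ ‖w'‖ ≤ 7 := by
  have he2 : e ^ 2 = 1 := by rcases he with h | h <;> rw [h] <;> norm_num
  have hexp : 1 ≤ Real.exp 12 := Real.one_le_exp (by norm_num)
  have hm1 : ‖mf (p 0)‖ ≤ 1 / 100 := by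
    nlinarith [norm_nonneg (mf (p 0))]
  have hna : ‖w‖ * ‖p 0 0‖ = 1 := by rw [← norm_mul, hw, norm_one]
  have ha : ‖p 0 0‖ = 1 - ‖mf (p 0)‖ := by
    have := norm_eq_mf (p 0)
    rw [hn] at this
    linarith
  have hw1 : 1 ≤ ‖w‖ := by
    by_contra hc
    push Not at hc
    have h1 : ‖p 0 0‖ ≤ 1 := by rw [ha]; linarith [norm_nonneg (mf (p 0))]
    nlinarith [norm_nonneg (p 0 0), norm_nonneg w]
  have hw2 : ‖w‖ ≤ 1.02 := by
    by_contra hc
    push Not at hc
    have h1 : 0.99 ≤ ‖p 0 0‖ := by rw [ha]; linarith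
    nlinarith
  -- growth of the distance
  have hgrow : ∀ t : ℝ, 0 ≤ t → 1 ≤ ‖w - ((e : ℂ) * Complex.I) * t‖ := by
    intro t ht
    have h1 : ‖w‖ ^ 2 = w.re ^ 2 + w.im ^ 2 := by
      rw [← Complex.normSq_eq_norm_sq, Complex.normSq_apply]; ring
    have h2 : ‖w - ((e : ℂ) * Complex.I) * t‖ ^ 2 = w.re ^ 2 + (w.im - e * t) ^ 2 := by
      rw [← Complex.normSq_eq_norm_sq, Complex.normSq_apply]
      simp
      ring
    have h3 : (1 : ℝ) ≤ ‖w - ((e : ℂ) * Complex.I) * t‖ ^ 2 := by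
      rw [h2]
      have h4 : (w.im - e * t) ^ 2 = w.im ^ 2 + 2 * (t * -(e * w.im)) + t ^ 2 := by
        linear_combination t ^ 2 * he2
      have h5 := mul_nonneg ht (neg_nonneg.mpr hew)
      have h6 : (1 : ℝ) ≤ ‖w‖ ^ 2 := by nlinarith
      rw [h4]
      nlinarith [sq_nonneg t]
    nlinarith [norm_nonneg (w - ((e : ℂ) * Complex.I) * t)]
  obtain ⟨hc, hcs⟩ := const_sol (ν := ν) (θ := (e : ℂ) * Complex.I) (w := w) (fun t ht h0 => by
    have := hgrow t ht
    rw [h0, norm_zero] at this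
    linarith)
  have hw0 : w ≠ 0 := by
    intro h0
    rw [h0, norm_zero] at hw1
    linarith
  have hp0 : p 0 - sg 0 (1 / (w - (e : ℂ) * Complex.I * ((max (0 : ℝ) 0 : ℝ) : ℂ))) =
      mf (p 0) := by
    have h1 : 1 / (w - (e : ℂ) * Complex.I * ((max (0 : ℝ) 0 : ℝ) : ℂ)) = p 0 0 := by
      simp only [max_self, Complex.ofReal_zero, mul_zero, sub_zero]
      rw [div_eq_iff hw0]
      rw [← hw]; ring
    rw [h1, mf]
  have hpert := pert (θ := (e : ℂ) * Complex.I) (by simp) (by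
      rw [norm_mul, Complex.norm_I, mul_one, Complex.norm_real]
      rcases he with h | h <;> rw [h] <;> simp) hp hc (a := 0) (b := 4) (m := 1) zero_le_one hs
    (hcs 4 (by norm_num)) (by
      intro t ht
      rw [norm_sg, norm_div, norm_one, max_eq_left ht.1]
      rw [div_le_one (by linarith [hgrow t ht.1])]
      exact hgrow t ht.1) (by
      rw [hp0]
      have e12 : (2 * (1 : ℝ) + 1) * (4 - 0) = 12 := by norm_num
      rw [e12]
      linarith) (t := 4) ⟨by norm_num, le_rfl⟩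
  rw [hp0] at hpert
  have e12 : (2 * (1 : ℝ) + 1) * (4 - 0) = 12 := by norm_num
  rw [e12] at hpert
  have h4max : max (4 : ℝ) 0 = 4 := by norm_num
  rw [h4max] at hpert
  set W : ℂ := w - (e : ℂ) * Complex.I * ((4 : ℝ) : ℂ) with hW
  have hfin : ‖p 4 - sg 0 (1 / W)‖ ≤ 1 / 100 := hpert.trans hm
  have hWim : 4 ≤ |W.im| := by
    have h1 : W.im = w.im - e * 4 := by rw [hW]; simp
    rw [h1]
    rcases he with h | h
    · rw [h] at hew ⊢
      rw [abs_of_nonpos (by linarith)]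
      linarith
    · rw [h] at hew ⊢
      rw [abs_of_nonneg (by linarith)]
      linarith
  have hWn : ‖W‖ ≤ 5.02 := by
    rw [hW]
    refine (norm_sub_le _ _).trans ?_
    have : ‖(e : ℂ) * Complex.I * ((4 : ℝ) : ℂ)‖ = 4 := by
      rw [norm_mul, norm_mul, Complex.norm_I, mul_one, Complex.norm_real, Complex.norm_real]
      rcases he with h | h <;> rw [h] <;> norm_num
    rw [this]
    linarith
  have hW4 : 4 ≤ ‖W‖ := hWim.trans (Complex.abs_im_le_norm W)
  have hW0 : W ≠ 0 := by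
    intro h0
    rw [h0, norm_zero] at hW4
    linarith
  refine ⟨?_, ?_⟩
  · rw [mf_sub_sg (p 4) (1 / W)]
    exact (norm_mf_le _).trans hfin
  · have hb : ‖p 4 0 - 1 / W‖ ≤ 1 / 100 := by
      have h1 := X_norm_apply_le (p 4 - sg 0 (1 / W)) 0
      rw [X_sub_apply, sg_apply, if_pos rfl] at h1
      exact h1.trans hfin
    have hinv : ‖1 / W‖ * ‖W‖ = 1 := by
      rw [← norm_mul, one_div, inv_mul_cancel₀ hW0, norm_one]
    have hinv2 : 0.199 ≤ ‖1 / W‖ := by
      by_contra hcon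
      push Not at hcon
      nlinarith [norm_nonneg (1 / W)]
    have hbn : 0.189 ≤ ‖p 4 0‖ := by
      have h1 : 1 / W = p 4 0 - (p 4 0 - 1 / W) := by ring
      have h2 : ‖1 / W‖ ≤ ‖p 4 0‖ + ‖p 4 0 - 1 / W‖ := by
        conv_lhs => rw [h1]
        exact norm_sub_le _ _
      linarith
    have hb0 : p 4 0 ≠ 0 := by
      intro h0
      rw [h0, norm_zero] at hbn
      norm_num at hbn
    refine ⟨1 / p 4 0, by field_simp, ?_⟩
    have hdiff : 1 / p 4 0 - W = W * (1 / W - p 4 0) * (1 / p 4 0) := by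
      field_simp
    have hinvb : ‖1 / p 4 0‖ ≤ 5.3 := by
      rw [norm_div, norm_one, div_le_iff₀ (by linarith)]
      linarith
    have hd : ‖1 / p 4 0 - W‖ ≤ 1 := by
      rw [hdiff, norm_mul, norm_mul, norm_sub_rev (1 / W)]
      have h1 : ‖W‖ * ‖p 4 0 - 1 / W‖ ≤ 5.02 * (1 / 100) :=
        mul_le_mul hWn hb (norm_nonneg _) (by norm_num)
      have h2 : ‖W‖ * ‖p 4 0 - 1 / W‖ * ‖1 / p 4 0‖ ≤ 5.02 * (1 / 100) * 5.3 :=
        mul_le_mul h1 hinvb (norm_nonneg _) (by norm_num)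
      refine h2.trans ?_
      norm_num
    constructor
    · have h1 := Complex.abs_im_le_norm (1 / p 4 0 - W)
      rw [Complex.sub_im] at h1
      have h2 : |W.im| ≤ |(1 / p 4 0).im| + |(1 / p 4 0).im - W.im| := by
        have h3 : W.im = (1 / p 4 0).im - ((1 / p 4 0).im - W.im) := by ring
        conv_lhs => rw [h3]
        exact abs_sub _ _
      linarith
    · have h1 : 1 / p 4 0 = (1 / p 4 0 - W) + W := by ring
      rw [h1]
      refine (norm_add_le _ _).trans ?_
      linarith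

section family

variable {U : ℝ → X} {F : ℝ → ℝ → X}

lemma zero_sol (θ : ℂ) (b : ℝ) : Sol ν θ (fun _ => (0 : X)) 0 b := by
  intro k t _
  have : B ν (0 : X) 0 = 0 := by simp [B]
  simp [this]

/-- For `x` large, the Schrödinger solution issued from `U x` stays small on `[0, t]`. -/
lemma Fam.small (h : Fam ν U F) {C : ℝ} (hC : ∀ x, 0 ≤ x → ‖U x‖ ≤ C * Real.exp (-30 * x))
    {t : ℝ} (ht : 0 ≤ t) : ∃ x₀, 0 ≤ x₀ ∧ ∀ x, x₀ ≤ x → ∀ τ ∈ Set.Icc 0 t,
      ‖F x τ‖ ≤ ‖U x‖ * Real.exp t := by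
  have h1 : Filter.Tendsto (fun x : ℝ => C * Real.exp (-30 * x) * Real.exp t) Filter.atTop
      (nhds (C * 0 * Real.exp t)) := by
    apply Filter.Tendsto.mul_const
    apply Filter.Tendsto.const_mul
    apply Real.tendsto_exp_atBot.comp
    exact Filter.tendsto_id.const_mul_atTop_of_neg (by norm_num)
  rw [mul_zero, zero_mul] at h1
  obtain ⟨x1, hx1⟩ := Filter.eventually_atTop.mp (h1.eventually (gt_mem_nhds zero_lt_one))
  refine ⟨max x1 0, le_max_right _ _, ?_⟩
  intro x hx τ hτ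
  have hx0 : 0 ≤ x := (le_max_right _ _).trans hx
  have h2 := hx1 x ((le_max_left _ _).trans hx)
  have h3 := pert (θ := Complex.I) (by simp) (by simp) (h.cF x hx0)
    (continuous_const (y := (0 : X))) (a := 0) (b := t) (m := 0) le_rfl (h.sF x hx0 t ht)
    (zero_sol _ _) (by simp) (by
      simp only [sub_zero, mul_zero, zero_add, one_mul]
      rw [h.F0 x hx0]
      have h4 := mul_le_mul_of_nonneg_right (hC x hx0) (Real.exp_pos t).le
      linarith) hτ
  simp only [sub_zero, mul_zero, zero_add, one_mul] at h3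
  rw [h.F0 x hx0] at h3
  refine h3.trans ?_
  apply mul_le_mul_of_nonneg_left _ (norm_nonneg _)
  exact Real.exp_le_exp.mpr hτ.2

lemma Fam.decay (h : Fam ν U F) {C : ℝ} (hC : ∀ x, 0 ≤ x → ‖U x‖ ≤ C * Real.exp (-30 * x))
    {t : ℝ} (ht : 0 ≤ t) : ∃ K, ∀ x, 0 ≤ x → ‖F x t‖ ≤ K * Real.exp (-30 * x) := by
  obtain ⟨x₀, hx₀, hsmall⟩ := h.small hC ht
  obtain ⟨M, hM⟩ := h.bounded x₀ t
  have hC0 : 0 ≤ C := by
    have := (norm_nonneg _).trans (hC 0 le_rfl)
    simpa using this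
  refine ⟨max (C * Real.exp t) (max M 0 * Real.exp (30 * x₀)), ?_⟩
  intro x hx
  by_cases hxx : x₀ ≤ x
  · have h1 := hsmall x hxx t ⟨ht, le_rfl⟩
    calc _ ≤ ‖U x‖ * Real.exp t := h1
      _ ≤ (C * Real.exp (-30 * x)) * Real.exp t :=
        mul_le_mul_of_nonneg_right (hC x hx) (Real.exp_pos _).le
      _ = (C * Real.exp t) * Real.exp (-30 * x) := by ring
      _ ≤ _ := mul_le_mul_of_nonneg_right (le_max_left _ _) (Real.exp_pos _).le
  · push Not at hxx
    have h1 := hM x ⟨hx, hxx.le⟩ t ⟨ht, le_rfl⟩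
    have h2 : 1 ≤ Real.exp (30 * x₀) * Real.exp (-30 * x) := by
      rw [← Real.exp_add]
      apply Real.one_le_exp
      linarith
    calc _ ≤ max M 0 := h1.trans (le_max_left _ _)
      _ ≤ max M 0 * (Real.exp (30 * x₀) * Real.exp (-30 * x)) :=
        le_mul_of_one_le_right (le_max_right _ _) h2
      _ = (max M 0 * Real.exp (30 * x₀)) * Real.exp (-30 * x) := by ring
      _ ≤ _ := mul_le_mul_of_nonneg_right (le_max_right _ _) (Real.exp_pos _).le

/-- If `F 0 t` is tiny and `t ≥ 4`, the heat flow of `F 0 t` stays in the unit ball. -/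
lemma Fam.no_exit (h : Fam ν U F) {C : ℝ} (hC : ∀ x, 0 ≤ x → ‖U x‖ ≤ C * Real.exp (-30 * x))
    {t : ℝ} (ht : 4 ≤ t) (hsm : ‖F 0 t‖ * Real.exp 12 ≤ 1 / 100) (s : ℝ) (hs0 : 0 ≤ s) :
    ‖F s t‖ ≤ 1 := by
  have ht0 : 0 ≤ t := by linarith
  have hexp : 1 ≤ Real.exp 12 := Real.one_le_exp (by norm_num)
  have hF0 : ‖F 0 t‖ ≤ 1 / 100 := by nlinarith [norm_nonneg (F 0 t)]
  have hc := h.continuous_Fc ht0
  by_contra hcon
  push Not at hcon
  have hex : ∃ s1 ∈ Set.Icc 0 s, (∀ r ∈ Set.Icc 0 s1, ‖Fc F t r‖ ≤ 1) ∧ 1 ≤ ‖Fc F t s1‖ := by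
    by_contra hno
    push Not at hno
    have := B9.no_exit hc.norm (a := 0) (b := s) (M := 1) (by
      rw [Fc_of_nonneg F t le_rfl]; linarith) (fun t' ht' hr => hno t' ht' hr) s ⟨hs0, le_rfl⟩
    rw [Fc_of_nonneg F t hs0] at this
    linarith
  obtain ⟨s1, hs1, hball, hge⟩ := hex
  have hs10 : 0 ≤ s1 := hs1.1
  have hnorm : ‖F s1 t‖ = 1 := by
    have h1 := hball s1 ⟨hs10, le_rfl⟩
    rw [Fc_of_nonneg F t hs10] at h1 hge
    exact le_antisymm h1 hge
  have hmfdec := mf_decay hc (h.heat ht0 s1 hs10) hball (t := s1) ⟨hs10, le_rfl⟩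
  rw [Fc_of_nonneg F t hs10, Fc_of_nonneg F t le_rfl] at hmfdec
  have hmf : ‖mf (F s1 t)‖ * Real.exp 12 ≤ 1 / 100 := by
    have h1 : Real.exp (-37 * s1) ≤ 1 := by
      rw [Real.exp_le_one_iff]; nlinarith
    have h2 : ‖mf (F s1 t)‖ ≤ ‖F 0 t‖ := by
      calc _ ≤ _ := hmfdec
        _ ≤ ‖mf (F 0 t)‖ * 1 := mul_le_mul_of_nonneg_left h1 (norm_nonneg _)
        _ ≤ _ := by rw [mul_one]; exact norm_mf_le _
    nlinarith [Real.exp_pos 12]
  have ha0 : F s1 t 0 ≠ 0 := by
    intro h0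
    have h1 := norm_eq_mf (F s1 t)
    rw [hnorm, h0, norm_zero, zero_add] at h1
    rw [← h1] at hmf
    linarith
  set w : ℂ := 1 / F s1 t 0 with hw
  have hw1 : w * F s1 t 0 = 1 := by rw [hw]; field_simp
  have hcF := h.cF s1 hs10
  -- final contradiction at time `t' = t + 4 e`
  have hfinal : ∀ t', 0 ≤ t' → ‖mf (F s1 t')‖ ≤ 1 / 100 →
      (∃ w' : ℂ, w' * F s1 t' 0 = 1 ∧ 3 ≤ |w'.im| ∧ ‖w'‖ ≤ 7) → False := by
    rintro t' ht' hm' ⟨w', hw', him', hn'⟩
    obtain ⟨K, hK⟩ := h.decay hC ht'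
    have hK0 : 0 ≤ K := by
      have := (norm_nonneg _).trans (hK 0 le_rfl)
      simpa using this
    have hc' := h.continuous_Fc ht'
    apply no_decay (u := fun x => Fc F t' (x + s1))
      (hc'.comp (continuous_id.add continuous_const)) (ν := ν) (w := w') (K := K) _ _ him' hn' _ _
    · intro b hb
      have h1 := (h.heat ht' (b + s1) (by linarith)).mono hc' (B_continuous ν hc' hc')
        (a' := s1) (b' := b + s1) hs10 le_rfl (by linarith)
      have h2 := h1.shift s1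
      simp only [sub_self, add_sub_cancel_right] at h2
      exact h2
    · simp only [zero_add]
      rw [Fc_of_nonneg F t' hs10]
      exact hw'
    · simp only [zero_add]
      rw [Fc_of_nonneg F t' hs10]
      exact hm'
    · intro x hx
      have hx' : 0 ≤ x + s1 := by linarith
      rw [Fc_of_nonneg F t' hx']
      refine (hK _ hx').trans ?_
      apply mul_le_mul_of_nonneg_left _ hK0
      apply Real.exp_le_exp.mpr
      linarith
  by_cases him : w.im ≤ 0
  · -- forward shift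
    have hS : Sol ν (((1 : ℝ) : ℂ) * Complex.I) (fun τ => F s1 (τ + t)) 0 4 := by
      have h1 := (h.sF s1 hs10 (4 + t) (by linarith)).mono hcF (B_continuous ν hcF hcF)
        (a' := t) (b' := 4 + t) ht0 le_rfl (by linarith)
      have h2 := h1.shift t
      simp only [sub_self, add_sub_cancel_right] at h2
      simp only [Complex.ofReal_one, one_mul]
      exact h2
    obtain ⟨h3, h4⟩ := shift_const (p := fun τ => F s1 (τ + t))
      (hcF.comp (continuous_id.add continuous_const)) (Or.inl rfl) hS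
      (by simpa using hnorm) (by simpa using hmf) (w := w) (by simpa using hw1) (by linarith)
    exact hfinal (4 + t) (by linarith) h3 h4
  · push Not at him
    have hS : Sol ν (((-1 : ℝ) : ℂ) * Complex.I) (fun τ => F s1 (t - τ)) 0 4 := by
      have h1 := (h.sF s1 hs10 t ht0).reverse hcF (B_continuous ν hcF hcF) t ht0
      simp only [sub_self, sub_zero] at h1
      have hcr : Continuous fun τ => F s1 (t - τ) := hcF.comp (continuous_const.sub continuous_id)
      have h2 := h1.mono hcr (B_continuous ν hcr hcr) (a' := 0) (b' := 4) le_rfl ht (by norm_num)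
      simp only [Complex.ofReal_neg, Complex.ofReal_one, neg_mul, one_mul]
      exact h2
    obtain ⟨h3, h4⟩ := shift_const (p := fun τ => F s1 (t - τ))
      (hcF.comp (continuous_const.sub continuous_id)) (Or.inr rfl) hS
      (by simpa using hnorm) (by simpa using hmf) (w := w) (by simpa using hw1) (by linarith)
    exact hfinal (t - 4) (by linarith) h3 h4

/-- The first Fourier mode along the Schrödinger flow. -/
lemma Fam.first_mode (h : Fam ν U F) {x t D : ℝ} (hx : 0 ≤ x) (ht : 0 ≤ t)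
    (hD : ∀ τ ∈ Set.Icc 0 t, ‖F x τ‖ ≤ D) : ‖U x 1‖ ≤ ‖F x t 1‖ + t * D ^ 2 := by
  have hcF := h.cF x hx
  have hB := B_continuous ν hcF hcF
  have h1 := scalar_formula (μ := Complex.I * om 1) (f := fun τ => F x τ 1)
    (r := fun τ => Complex.I * B ν (F x τ) (F x τ) 1) (continuous_coord hcF 1)
    (continuous_const.mul (continuous_coord hB 1)) (a := 0) (b := t) (by
      intro τ hτ
      rw [h.sF x hx t ht 1 τ hτ]
      congr 1
      apply intervalIntegral.integral_congr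
      intro s _
      ring) (t := t) ⟨ht, le_rfl⟩
  have hn : ∀ s : ℝ, ‖Complex.exp (-(Complex.I * (om 1 : ℂ)) * (t - s))‖ = 1 := by
    intro s
    rw [Complex.norm_exp]
    have : (-(Complex.I * (om 1 : ℂ)) * ((t : ℂ) - s)).re = 0 := by
      simp [Complex.mul_re]
    rw [this, Real.exp_zero]
  have h2 : ‖∫ σ in (0 : ℝ)..t, Complex.exp (-(Complex.I * (om 1 : ℂ)) * (t - σ)) *
      (Complex.I * B ν (F x σ) (F x σ) 1)‖ ≤ D ^ 2 * |t - 0| := by
    apply intervalIntegral.norm_integral_le_of_norm_le_const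
    intro σ hσ
    rw [Set.uIoc_of_le ht] at hσ
    rw [norm_mul, hn, one_mul, norm_mul, Complex.norm_I, one_mul]
    refine (X_norm_apply_le _ _).trans ((B_norm_le ν _ _).trans ?_)
    have h3 := hD σ ⟨hσ.1.le, hσ.2⟩
    rw [sq]
    exact mul_le_mul h3 h3 (norm_nonneg _) ((norm_nonneg _).trans h3)
  have h3 : ‖Complex.exp (-(Complex.I * (om 1 : ℂ)) * (t - (0 : ℝ))) * F x 0 1‖ = ‖U x 1‖ := by
    rw [norm_mul, hn, one_mul, h.F0 x hx]
  rw [← h3]
  have h4 : Complex.exp (-(Complex.I * (om 1 : ℂ)) * (t - (0 : ℝ))) * F x 0 1 =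
      F x t 1 - ∫ σ in (0 : ℝ)..t, Complex.exp (-(Complex.I * (om 1 : ℂ)) * (t - σ)) *
      (Complex.I * B ν (F x σ) (F x σ) 1) := by
    rw [h1]; ring
  rw [h4]
  refine (norm_sub_le _ _).trans ?_
  rw [sub_zero, abs_of_nonneg ht] at h2
  linarith

/-- The main contradiction. -/
theorem Fam.contradiction (h : Fam ν U F) {C c₁ : ℝ}
    (hC : ∀ x, 0 ≤ x → ‖U x‖ ≤ C * Real.exp (-30 * x)) (hc₁ : 0 < c₁)
    (h1 : ∀ x, 0 ≤ x → c₁ * Real.exp (-om 1 * x) ≤ ‖U x 1‖)
    (hlim : Filter.Tendsto (fun t => ‖F 0 t‖) Filter.atTop (nhds 0)) : False := by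
  have hC0 : 0 ≤ C := by
    have := (norm_nonneg _).trans (hC 0 le_rfl)
    simpa using this
  have he : 0 < min (Real.exp (-12) / 100) (c₁ / 16) := by positivity
  obtain ⟨t, ht4, hsm⟩ := ((Filter.eventually_ge_atTop 4).and
    (hlim.eventually (gt_mem_nhds he))).exists
  have ht0 : 0 ≤ t := by linarith
  have hsm1 : ‖F 0 t‖ * Real.exp 12 ≤ 1 / 100 := by
    have h2 := hsm.le.trans (min_le_left _ _)
    calc _ ≤ (Real.exp (-12) / 100) * Real.exp 12 :=
          mul_le_mul_of_nonneg_right h2 (Real.exp_pos _).le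
      _ = (Real.exp (-12) * Real.exp 12) / 100 := by ring
      _ = _ := by rw [← Real.exp_add]; norm_num
  have hsm2 : ‖F 0 t‖ ≤ c₁ / 16 := hsm.le.trans (min_le_right _ _)
  have hc := h.continuous_Fc ht0
  obtain ⟨K, hK⟩ := h.decay hC ht0
  have hball := ball_case hc (fun b hb => h.heat ht0 b hb) (fun s hs => by
      rw [Fc_of_nonneg F t hs]
      exact h.no_exit hC ht4 hsm1 s hs) (K := K) (fun s hs => by
      rw [Fc_of_nonneg F t hs]
      exact hK s hs)
  have h2 := hball.2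
  obtain ⟨x₀, hx₀, hsmall⟩ := h.small hC ht0
  have h3 : ∀ x, x₀ ≤ x → c₁ ≤ c₁ / 2 + (t * (C * Real.exp t) ^ 2) * Real.exp (-20 * x) := by
    intro x hx
    have hx0 : 0 ≤ x := hx₀.trans hx
    have h4 := h.first_mode hx0 ht0 (hsmall x hx)
    have h5 := h2 x hx0
    rw [Fc_of_nonneg F t hx0, Fc_of_nonneg F t le_rfl] at h5
    have h6 := h1 x hx0
    have hE := Real.exp_pos (om 1 * x)
    have h7 : c₁ = Real.exp (om 1 * x) * (c₁ * Real.exp (-om 1 * x)) := by
      rw [mul_left_comm, ← Real.exp_add]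
      simp
    have h8 : Real.exp (om 1 * x) * (t * (‖U x‖ * Real.exp t) ^ 2) ≤
        (t * (C * Real.exp t) ^ 2) * Real.exp (-20 * x) := by
      have h9 : (‖U x‖ * Real.exp t) ^ 2 ≤ (C * Real.exp (-30 * x) * Real.exp t) ^ 2 := by
        apply pow_le_pow_left₀ (by positivity)
        exact mul_le_mul_of_nonneg_right (hC x hx0) (Real.exp_pos _).le
      have h10 : Real.exp (om 1 * x) ≤ Real.exp (40 * x) := by
        apply Real.exp_le_exp.mpr
        exact mul_le_mul_of_nonneg_right om_one_le hx0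
      calc _ ≤ Real.exp (40 * x) * (t * (C * Real.exp (-30 * x) * Real.exp t) ^ 2) := by
            apply mul_le_mul h10 _ (by positivity) (Real.exp_pos _).le
            exact mul_le_mul_of_nonneg_left h9 ht0
        _ = (t * (C * Real.exp t) ^ 2) *
            (Real.exp (40 * x) * (Real.exp (-30 * x) * Real.exp (-30 * x))) := by ring
        _ = _ := by
          rw [← Real.exp_add, ← Real.exp_add]
          congr 2
          ring
    have h9 : Real.exp (om 1 * x) * (c₁ * Real.exp (-om 1 * x)) ≤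
        Real.exp (om 1 * x) * (‖F x t 1‖ + t * (‖U x‖ * Real.exp t) ^ 2) :=
      mul_le_mul_of_nonneg_left (h6.trans h4) hE.le
    rw [← h7, mul_add] at h9
    linarith
  have h4 : Filter.Tendsto (fun x : ℝ => c₁ / 2 + (t * (C * Real.exp t) ^ 2) * Real.exp (-20 * x))
      Filter.atTop (nhds (c₁ / 2 + (t * (C * Real.exp t) ^ 2) * 0)) := by
    apply Filter.Tendsto.const_add
    apply Filter.Tendsto.const_mul
    apply Real.tendsto_exp_atBot.comp
    exact Filter.tendsto_id.const_mul_atTop_of_neg (by norm_num)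
  rw [mul_zero, add_zero] at h4
  have h5 : c₁ ≤ c₁ / 2 := by
    apply ge_of_tendsto h4
    filter_upwards [Filter.eventually_ge_atTop x₀] with x hx
    exact h3 x hx
  linarith

end family

end Pool.Agent.Helper80.B9
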