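import Pool.Agent.Helper80.B9A139.Flow

/-!
# Estimates for the heat flow in the unit ball
-/

set_option autoImplicit false

namespace Pool.Agent.Helper80.B9

open Finset MeasureTheory

variable {ν : ℝ} [hν : Fact (1 ≤ ν)]

lemma om_zero : om 0 = 0 := by simp [om]

lemma om_one : om 1 = (2 * Real.pi) ^ 2 := by simp [om]

lemma om_ge {k : ℤ} (hk : k ≠ 0) : 39 ≤ om k := by
  have h1 : (1 : ℝ) ≤ (k : ℝ) ^ 2 := by
    have : (1 : ℤ) ≤ k ^ 2 := by
      have := Int.one_le_abs hk
      nlinarith [sq_abs k]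
    exact_mod_cast this
  have h2 : 3.14 < Real.pi := Real.pi_gt_d2
  have h3 : om k = 4 * Real.pi ^ 2 * (k : ℝ) ^ 2 := by rw [om]; ring
  rw [h3]
  have h4 : (39 : ℝ) ≤ 4 * Real.pi ^ 2 := by nlinarith
  nlinarith [sq_nonneg Real.pi]

lemma om_one_le : om 1 ≤ 40 := by
  rw [om_one]
  have h2 : Real.pi < 3.15 := Real.pi_lt_d2
  have := Real.pi_pos
  nlinarith

lemma int_exp {c s t : ℝ} (hc : 0 < c) (_hst : s ≤ t) :
    ∫ σ in s..t, Real.exp (-c * σ) ≤ Real.exp (-c * s) / c := by
  have hd : ∀ x ∈ Set.uIcc s t, HasDerivAt (fun x => -Real.exp (-c * x) / c)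
      (Real.exp (-c * x)) x := by
    intro x _
    have h1 : HasDerivAt (fun x : ℝ => -c * x) (-c * 1) x := (hasDerivAt_id x).const_mul (-c)
    have h2 := (h1.exp.neg).div_const c
    apply h2.congr_deriv
    field_simp
  rw [intervalIntegral.integral_eq_sub_of_hasDerivAt hd
    ((Real.continuous_exp.comp (continuous_const.mul continuous_id)).intervalIntegrable _ _)]
  have h3 : 0 < Real.exp (-c * t) / c := by positivity
  have : -Real.exp (-c * t) / c - -Real.exp (-c * s) / c =
    Real.exp (-c * s) / c - Real.exp (-c * t) / c := by ring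
  rw [this]
  linarith

lemma Lin.hasDerivAt {θ : ℂ} {u g : ℝ → X} {a b : ℝ} (h : Lin θ u g a b) (hu : Continuous u)
    (hg : Continuous g) (k : ℤ) {t : ℝ} (ht : t ∈ Set.Ioo a b) :
    HasDerivAt (fun s => u s k) (θ * (-(om k : ℂ) * u t k + g t k)) t := by
  have hc : Continuous fun σ => θ * (-(om k : ℂ) * u σ k + g σ k) :=
    continuous_const.mul ((continuous_const.mul (continuous_coord hu k)).add (continuous_coord hg k))
  have h1 : HasDerivAt (fun s => u a k + ∫ σ in a..s, θ * (-(om k : ℂ) * u σ k + g σ k))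
      (θ * (-(om k : ℂ) * u t k + g t k)) t :=
    (hc.integral_hasStrictDerivAt a t).hasDerivAt.const_add _
  apply h1.congr_of_eventuallyEq
  filter_upwards [Ioo_mem_nhds ht.1 ht.2] with s hs
  exact h k s ⟨hs.1.le, hs.2.le⟩

/-- Decay of the mean-free part while the solution is in the unit ball. -/
lemma mf_decay {u : ℝ → X} (hu : Continuous u) {T : ℝ} (hs : Sol ν 1 u 0 T)
    (hb : ∀ s ∈ Set.Icc 0 T, ‖u s‖ ≤ 1) {t : ℝ} (ht : t ∈ Set.Icc 0 T) :
    ‖mf (u t)‖ ≤ ‖mf (u 0)‖ * Real.exp (-37 * t) := by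
  have hB := B_continuous ν hu hu
  have hmu := continuous_mf hu
  have hmB := continuous_mf hB
  have hD : Continuous fun t => Real.exp (39 * t) * ‖mf (u t)‖ := by
    have := hmu.norm
    fun_prop
  have key := gronwall hD (a := 0) (b := T) (c := ‖mf (u 0)‖) (K := 2) (by norm_num) (by
    intro t ht
    have h1 := hs.mf.norm_est hmu hmB (κ := 39) (by
      intro k
      by_cases hk : k = 0
      · left; intro σ; rw [hk]; simp
      · right
        rw [one_mul, Complex.ofReal_re]
        exact om_ge hk) ht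
    simp only [sub_zero, norm_one, one_mul] at h1
    have h2 : Real.exp (39 * t) * ‖mf (u t)‖ ≤ Real.exp (39 * t) *
      (Real.exp (-39 * t) * ‖mf (u 0)‖ +
        ∫ σ in (0 : ℝ)..t, Real.exp (-39 * (t - σ)) * ‖mf (B ν (u σ) (u σ))‖) :=
      mul_le_mul_of_nonneg_left h1 (Real.exp_pos _).le
    refine h2.trans ?_
    rw [mul_add, ← mul_assoc, ← Real.exp_add]
    have e1 : 39 * t + -39 * t = 0 := by ring
    rw [e1, Real.exp_zero, one_mul, ← intervalIntegral.integral_const_mul,
      ← intervalIntegral.integral_const_mul]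
    gcongr
    apply intervalIntegral.integral_mono_on ht.1
    · apply Continuous.intervalIntegrable
      have := hmB.norm
      fun_prop
    · apply Continuous.intervalIntegrable
      have := hmu.norm
      fun_prop
    · intro σ hσ
      have e2 : Real.exp (39 * t) * (Real.exp (-39 * (t - σ)) * ‖mf (B ν (u σ) (u σ))‖) =
          Real.exp (39 * σ) * ‖mf (B ν (u σ) (u σ))‖ := by
        rw [← mul_assoc, ← Real.exp_add]
        congr 2
        ring
      rw [e2]
      have h3 := norm_mf_B_le ν (u σ)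
      have h4 := hb σ ⟨hσ.1, hσ.2.trans ht.2⟩
      rw [norm_eq_mf] at h4
      have h5 : ‖mf (B ν (u σ) (u σ))‖ ≤ 2 * ‖mf (u σ)‖ := by
        refine h3.trans ?_
        apply mul_le_mul_of_nonneg_right _ (norm_nonneg _)
        linarith [norm_nonneg (mf (u σ)), norm_nonneg (u σ 0)]
      calc _ ≤ Real.exp (39 * σ) * (2 * ‖mf (u σ)‖) :=
            mul_le_mul_of_nonneg_left h5 (Real.exp_pos _).le
        _ = _ := by ring) ht
  simp only [sub_zero] at key
  have h6 : ‖mf (u t)‖ = Real.exp (-39 * t) * (Real.exp (39 * t) * ‖mf (u t)‖) := by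
    rw [← mul_assoc, ← Real.exp_add]
    simp
  rw [h6]
  calc _ ≤ Real.exp (-39 * t) * (‖mf (u 0)‖ * Real.exp (2 * t)) :=
        mul_le_mul_of_nonneg_left key (Real.exp_pos _).le
    _ = ‖mf (u 0)‖ * (Real.exp (-39 * t) * Real.exp (2 * t)) := by ring
    _ = _ := by
      rw [← Real.exp_add]
      congr 2
      ring

/-- The regularising factor `exp (-∫ mean)`. -/
noncomputable def psi (u : ℝ → X) (s : ℝ) : ℂ := Complex.exp (-∫ σ in (0 : ℝ)..s, u σ 0)

/-- `mean * psi`. -/
noncomputable def chi (u : ℝ → X) (s : ℝ) : ℂ := u s 0 * psi u s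

section psi
variable {u : ℝ → X} (hu : Continuous u)
include hu

lemma psi_hasDerivAt (s : ℝ) : HasDerivAt (psi u) (-chi u s) s := by
  have h1 : HasDerivAt (fun s => -∫ σ in (0 : ℝ)..s, u σ 0) (-(u s 0)) s :=
    ((continuous_coord hu 0).integral_hasStrictDerivAt 0 s).hasDerivAt.neg
  have h2 := h1.cexp
  apply h2.congr_deriv
  rw [chi, psi]
  ring

lemma psi_continuous : Continuous (psi u) :=
  continuous_iff_continuousAt.mpr fun s => (psi_hasDerivAt hu s).continuousAt

lemma chi_continuous : Continuous (chi u) := (continuous_coord hu 0).mul (psi_continuous hu)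

omit hu in
@[simp] lemma psi_zero : psi u 0 = 1 := by simp [psi]

omit hu in
@[simp] lemma chi_zero : chi u 0 = u 0 0 := by simp [chi]

omit hu in
lemma psi_ne_zero (s : ℝ) : psi u s ≠ 0 := Complex.exp_ne_zero _

lemma psi_sub (s t : ℝ) : psi u t - psi u s = -∫ σ in s..t, chi u σ := by
  have h := intervalIntegral.integral_eq_sub_of_hasDerivAt
    (fun x (_ : x ∈ Set.uIcc s t) => psi_hasDerivAt hu x)
    ((chi_continuous hu).neg.intervalIntegrable _ _)
  rw [intervalIntegral.integral_neg] at h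
  exact h.symm

lemma chi_sub {T : ℝ} (hs : Sol ν 1 u 0 T) {s t : ℝ} (h0 : 0 ≤ s) (hst : s ≤ t) (htT : t ≤ T) :
    chi u t - chi u s = ∫ σ in s..t, B ν (mf (u σ)) (mf (u σ)) 0 * psi u σ := by
  have hB := B_continuous ν hu hu
  have hmu := continuous_mf hu
  have hBm := continuous_coord (B_continuous ν hmu hmu) 0
  have hd : ∀ x ∈ Set.Ioo s t, HasDerivAt (chi u)
      (B ν (mf (u x)) (mf (u x)) 0 * psi u x) x := by
    intro x hx
    have h1 := hs.hasDerivAt hu hB 0 (t := x) ⟨h0.trans_lt hx.1, hx.2.trans_le htT⟩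
    have h2 := h1.mul (psi_hasDerivAt hu x)
    apply h2.congr_deriv
    rw [om_zero, B_self_zero, chi]
    push_cast
    ring
  have h3 := intervalIntegral.integral_eq_sub_of_hasDerivAt_of_le hst
    (chi_continuous hu).continuousOn hd ((hBm.mul (psi_continuous hu)).intervalIntegrable _ _)
  exact h3.symm

end psi

/-- A heat solution staying in the unit ball and decaying exponentially. -/
lemma ball_case {u : ℝ → X} (hu : Continuous u) (hs : ∀ b, 0 ≤ b → Sol ν 1 u 0 b)
    (hb : ∀ s, 0 ≤ s → ‖u s‖ ≤ 1) {K : ℝ} (hK : ∀ s, 0 ≤ s → ‖u s‖ ≤ K * Real.exp (-30 * s)) :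
    ‖u 0 0‖ ≤ ‖mf (u 0)‖ ^ 2 ∧ ∀ t, 0 ≤ t → Real.exp (om 1 * t) * ‖u t 1‖ ≤ 8 * ‖u 0‖ := by
  have hK0 : 0 ≤ K := by
    have := (norm_nonneg _).trans (hK 0 le_rfl)
    simpa using this
  set v0 := ‖mf (u 0)‖ with hv0
  have hv00 : 0 ≤ v0 := norm_nonneg _
  have hv01 : v0 ≤ 1 := (norm_mf_le _).trans (hb 0 le_rfl)
  have hv : ∀ t, 0 ≤ t → ‖mf (u t)‖ ≤ v0 * Real.exp (-37 * t) := fun t ht =>
    mf_decay hu (hs t ht) (fun s hs' => hb s hs'.1) ⟨ht, le_rfl⟩
  have hq : ∀ k t, 0 ≤ t → ‖B ν (mf (u t)) (mf (u t)) k‖ ≤ v0 ^ 2 * Real.exp (-74 * t) := by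
    intro k t ht
    refine (norm_B_mf_coord_le ν (u t) k).trans ?_
    have h1 := pow_le_pow_left₀ (norm_nonneg _) (hv t ht) 2
    refine h1.trans (le_of_eq ?_)
    rw [mul_pow, ← Real.exp_nat_mul]
    congr 2
    push_cast
    ring
  -- psi is bounded
  have hpb : ∀ s, 0 ≤ s → ‖psi u s‖ ≤ Real.exp (K / 30) := by
    intro s hs'
    rw [psi, Complex.norm_exp]
    apply Real.exp_le_exp.mpr
    have h1 : ‖∫ σ in (0 : ℝ)..s, u σ 0‖ ≤ K / 30 := by
      have h2 : ‖∫ σ in (0 : ℝ)..s, u σ 0‖ ≤ ∫ σ in (0 : ℝ)..s, K * Real.exp (-30 * σ) := by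
        apply intervalIntegral.norm_integral_le_of_norm_le hs'
        · apply Filter.Eventually.of_forall
          intro σ hσ
          exact (X_norm_apply_le _ _).trans (hK σ hσ.1.le)
        · apply Continuous.intervalIntegrable
          fun_prop
      rw [intervalIntegral.integral_const_mul] at h2
      have h3 := int_exp (c := 30) (by norm_num) hs'
      simp only [mul_zero, Real.exp_zero] at h3
      calc _ ≤ _ := h2
        _ ≤ K * (1 / 30) := mul_le_mul_of_nonneg_left h3 hK0
        _ = _ := by ring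
    have h4 := Complex.abs_re_le_norm (-∫ σ in (0 : ℝ)..s, u σ 0)
    rw [norm_neg] at h4
    exact (le_abs_self _).trans (h4.trans h1)
  -- decay of chi
  have hchi : ∀ S, (∀ s, 0 ≤ s → ‖psi u s‖ ≤ S) → ∀ s, 0 ≤ s →
      ‖chi u s‖ ≤ S * v0 ^ 2 * Real.exp (-74 * s) / 74 := by
    intro S hS s hs'
    have hS0 : 0 ≤ S := (norm_nonneg _).trans (hS 0 le_rfl)
    have h1 : ∀ t, s ≤ t → ‖chi u s‖ ≤ S * v0 ^ 2 * Real.exp (-74 * s) / 74 +
        K * Real.exp (K / 30) * Real.exp (-30 * t) := by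
      intro t hst
      have h2 := chi_sub hu (hs t (hs'.trans hst)) hs' hst le_rfl
      have h3 : ‖∫ σ in s..t, B ν (mf (u σ)) (mf (u σ)) 0 * psi u σ‖ ≤
          S * v0 ^ 2 * Real.exp (-74 * s) / 74 := by
        have h4 : ‖∫ σ in s..t, B ν (mf (u σ)) (mf (u σ)) 0 * psi u σ‖ ≤
            ∫ σ in s..t, (S * v0 ^ 2) * Real.exp (-74 * σ) := by
          apply intervalIntegral.norm_integral_le_of_norm_le hst
          · apply Filter.Eventually.of_forall
            intro σ hσ
            have hσ0 : 0 ≤ σ := hs'.trans hσ.1.le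
            rw [norm_mul]
            calc _ ≤ (v0 ^ 2 * Real.exp (-74 * σ)) * S :=
                  mul_le_mul (hq 0 σ hσ0) (hS σ hσ0) (norm_nonneg _) (by positivity)
              _ = _ := by ring
          · apply Continuous.intervalIntegrable
            fun_prop
        rw [intervalIntegral.integral_const_mul] at h4
        have h5 := int_exp (c := 74) (by norm_num) hst
        calc _ ≤ _ := h4
          _ ≤ (S * v0 ^ 2) * (Real.exp (-74 * s) / 74) :=
            mul_le_mul_of_nonneg_left h5 (by positivity)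
          _ = _ := by ring
      have h6 : ‖chi u t‖ ≤ K * Real.exp (K / 30) * Real.exp (-30 * t) := by
        rw [chi, norm_mul]
        calc _ ≤ (K * Real.exp (-30 * t)) * Real.exp (K / 30) :=
              mul_le_mul ((X_norm_apply_le _ _).trans (hK t (hs'.trans hst)))
                (hpb t (hs'.trans hst)) (norm_nonneg _) (by positivity)
          _ = _ := by ring
      have h7 : chi u s = chi u t - ∫ σ in s..t, B ν (mf (u σ)) (mf (u σ)) 0 * psi u σ := by
        rw [← h2]; ring
      rw [h7]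
      refine (norm_sub_le _ _).trans ?_
      linarith
    have h8 : Filter.Tendsto (fun t : ℝ => S * v0 ^ 2 * Real.exp (-74 * s) / 74 +
        K * Real.exp (K / 30) * Real.exp (-30 * t)) Filter.atTop
        (nhds (S * v0 ^ 2 * Real.exp (-74 * s) / 74 + K * Real.exp (K / 30) * 0)) := by
      apply Filter.Tendsto.const_add
      apply Filter.Tendsto.const_mul
      apply Real.tendsto_exp_atBot.comp
      exact Filter.tendsto_id.const_mul_atTop_of_neg (by norm_num)
    rw [mul_zero, add_zero] at h8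
    apply ge_of_tendsto h8
    filter_upwards [Filter.eventually_ge_atTop s] with t ht
    exact h1 t ht
  have hpsi1 : ∀ S, (∀ s, 0 ≤ s → ‖psi u s‖ ≤ S) → ∀ s, 0 ≤ s → ‖psi u s - 1‖ ≤ S / 1000 := by
    intro S hS s hs'
    have hS0 : 0 ≤ S := (norm_nonneg _).trans (hS 0 le_rfl)
    have h1 := psi_sub hu 0 s
    rw [psi_zero] at h1
    rw [h1, norm_neg]
    have h2 : ‖∫ σ in (0 : ℝ)..s, chi u σ‖ ≤ ∫ σ in (0 : ℝ)..s, (S / 74) * Real.exp (-74 * σ) := by
      apply intervalIntegral.norm_integral_le_of_norm_le hs'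
      · apply Filter.Eventually.of_forall
        intro σ hσ
        refine (hchi S hS σ hσ.1.le).trans ?_
        have : v0 ^ 2 ≤ 1 := by nlinarith
        have h3 := Real.exp_pos (-74 * σ)
        have h4 : S * v0 ^ 2 * Real.exp (-74 * σ) ≤ S * 1 * Real.exp (-74 * σ) := by gcongr
        linarith
      · apply Continuous.intervalIntegrable
        fun_prop
    rw [intervalIntegral.integral_const_mul] at h2
    have h3 := int_exp (c := 74) (by norm_num) hs'
    simp only [mul_zero, Real.exp_zero] at h3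
    have h4 : (S / 74) * ∫ σ in (0 : ℝ)..s, Real.exp (-74 * σ) ≤ (S / 74) * (1 / 74) :=
      mul_le_mul_of_nonneg_left h3 (by positivity)
    linarith
  -- the bound 2
  have hbdd : BddAbove (Set.range fun s : Set.Ici (0 : ℝ) => ‖psi u s‖) := by
    refine ⟨Real.exp (K / 30), ?_⟩
    rintro _ ⟨s, rfl⟩
    exact hpb s s.2
  set S := ⨆ s : Set.Ici (0 : ℝ), ‖psi u s‖ with hSdef
  have hS : ∀ s, 0 ≤ s → ‖psi u s‖ ≤ S := fun s hs' => le_ciSup hbdd (⟨s, hs'⟩ : Set.Ici (0 : ℝ))
  have hS2 : S ≤ 1 + S / 1000 := by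
    have : Nonempty (Set.Ici (0 : ℝ)) := ⟨⟨0, Set.mem_Ici.mpr le_rfl⟩⟩
    apply ciSup_le
    intro s
    have h1 := hpsi1 S hS s s.2
    have h2 : psi u s = (psi u s - 1) + 1 := by ring
    rw [h2]
    refine (norm_add_le _ _).trans ?_
    rw [norm_one]
    linarith
  have hS3 : S ≤ 2 := by linarith
  have hp2 : ∀ s, 0 ≤ s → ‖psi u s‖ ≤ 2 := fun s hs' => (hS s hs').trans hS3
  have hp3 : ∀ s, 0 ≤ s → 1 / 2 ≤ ‖psi u s‖ := by
    intro s hs'
    have h1 := hpsi1 2 hp2 s hs'
    have h2 : (1 : ℂ) = psi u s - (psi u s - 1) := by ring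
    have h3 : ‖(1 : ℂ)‖ ≤ ‖psi u s‖ + ‖psi u s - 1‖ := by
      conv_lhs => rw [h2]
      exact norm_sub_le _ _
    rw [norm_one] at h3
    linarith
  constructor
  · have h1 := hchi 2 hp2 0 le_rfl
    simp only [chi_zero, mul_zero, Real.exp_zero, mul_one] at h1
    refine h1.trans ?_
    nlinarith [sq_nonneg v0]
  · intro t ht
    -- the first mode
    have hy : ∀ x ∈ Set.Ioo 0 t, HasDerivAt
        (fun s : ℝ => u s 1 * psi u s ^ 2 * Complex.exp ((om 1 : ℂ) * s))
        (psi u x ^ 2 * Complex.exp ((om 1 : ℂ) * x) * B ν (mf (u x)) (mf (u x)) 1) x := by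
      intro x hx
      have h1 := (hs t ht).hasDerivAt hu (B_continuous ν hu hu) 1 hx
      have h2 := (psi_hasDerivAt hu x).pow 2
      have h3 : HasDerivAt (fun s : ℝ => Complex.exp ((om 1 : ℂ) * s))
          (Complex.exp ((om 1 : ℂ) * x) * (om 1 : ℂ)) x := by
        have h0 : HasDerivAt (fun s : ℝ => (om 1 : ℂ) * (s : ℂ)) ((om 1 : ℂ) * 1) x :=
          (Complex.ofRealCLM.hasDerivAt (x := x)).const_mul _
        rw [mul_one] at h0
        exact h0.cexp
      have h4 := (h1.mul h2).mul h3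
      apply h4.congr_deriv
      rw [B_self_coord ν one_ne_zero, chi]
      push_cast
      simp only [Pi.mul_apply, Pi.pow_apply]
      ring
    have hcont : Continuous fun s : ℝ => u s 1 * psi u s ^ 2 * Complex.exp ((om 1 : ℂ) * s) := by
      have h1 := continuous_coord hu 1
      have h2 := psi_continuous hu
      fun_prop
    have hmu := continuous_mf hu
    have hcont' : Continuous fun x : ℝ =>
        (psi u x ^ 2 * Complex.exp ((om 1 : ℂ) * x) * B ν (mf (u x)) (mf (u x)) 1) := by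
      have h1 := continuous_coord (B_continuous ν hmu hmu) 1
      have h2 := psi_continuous hu
      fun_prop
    have h5 := intervalIntegral.integral_eq_sub_of_hasDerivAt_of_le ht hcont.continuousOn hy
      (hcont'.intervalIntegrable _ _)
    have h6 : ‖∫ x in (0 : ℝ)..t,
        (psi u x ^ 2 * Complex.exp ((om 1 : ℂ) * x) * B ν (mf (u x)) (mf (u x)) 1)‖ ≤
        ∫ x in (0 : ℝ)..t, (4 * v0 ^ 2) * Real.exp (-34 * x) := by
      apply intervalIntegral.norm_integral_le_of_norm_le ht
      · apply Filter.Eventually.of_forall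
        intro x hx
        rw [norm_mul, norm_mul, norm_pow, Complex.norm_exp]
        have e1 : ((om 1 : ℂ) * x).re = om 1 * x := by simp
        rw [e1]
        have h7 : Real.exp (om 1 * x) ≤ Real.exp (40 * x) := by
          apply Real.exp_le_exp.mpr
          exact mul_le_mul_of_nonneg_right om_one_le hx.1.le
        have h8 := hp2 x hx.1.le
        have h9 : ‖psi u x‖ ^ 2 ≤ 4 := by nlinarith [norm_nonneg (psi u x)]
        have h10 := hq 1 x hx.1.le
        calc _ ≤ 4 * Real.exp (40 * x) * (v0 ^ 2 * Real.exp (-74 * x)) := by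
              apply mul_le_mul _ h10 (norm_nonneg _) (by positivity)
              exact mul_le_mul h9 h7 (Real.exp_pos _).le (by norm_num)
          _ = 4 * v0 ^ 2 * (Real.exp (40 * x) * Real.exp (-74 * x)) := by ring
          _ = _ := by
            rw [← Real.exp_add]
            congr 2
            ring
      · apply Continuous.intervalIntegrable
        fun_prop
    rw [intervalIntegral.integral_const_mul] at h6
    have h7 := int_exp (c := 34) (by norm_num) ht
    simp only [mul_zero, Real.exp_zero] at h7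
    have h8 : (4 * v0 ^ 2) * ∫ x in (0 : ℝ)..t, Real.exp (-34 * x) ≤ (4 * v0 ^ 2) * (1 / 34) :=
      mul_le_mul_of_nonneg_left h7 (by positivity)
    rw [h5] at h6
    simp only [psi_zero, one_pow, mul_one, Complex.ofReal_zero, mul_zero, Complex.exp_zero] at h6
    have h9 : ‖u t 1 * psi u t ^ 2 * Complex.exp ((om 1 : ℂ) * t)‖ ≤ 2 * ‖u 0‖ := by
      have h10 : u t 1 * psi u t ^ 2 * Complex.exp ((om 1 : ℂ) * t) =
          (u t 1 * psi u t ^ 2 * Complex.exp ((om 1 : ℂ) * t) - u 0 1) + u 0 1 := by ring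
      rw [h10]
      refine (norm_add_le _ _).trans ?_
      have h11 := X_norm_apply_le (u 0) 1
      have h12 : v0 ≤ ‖u 0‖ := norm_mf_le _
      nlinarith
    rw [norm_mul, norm_mul, norm_pow, Complex.norm_exp] at h9
    have e1 : ((om 1 : ℂ) * t).re = om 1 * t := by simp
    rw [e1] at h9
    have h10 := hp3 t ht
    have h11 : (1 / 4 : ℝ) ≤ ‖psi u t‖ ^ 2 := by nlinarith
    have h12 : 0 ≤ ‖u t 1‖ * Real.exp (om 1 * t) := by positivity
    have h13 : (1 / 4 : ℝ) * (‖u t 1‖ * Real.exp (om 1 * t)) ≤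
        ‖psi u t‖ ^ 2 * (‖u t 1‖ * Real.exp (om 1 * t)) := mul_le_mul_of_nonneg_right h11 h12
    have h14 : ‖u t 1‖ * ‖psi u t‖ ^ 2 * Real.exp (om 1 * t) =
      ‖psi u t‖ ^ 2 * (‖u t 1‖ * Real.exp (om 1 * t)) := by ring
    rw [h14] at h9
    rw [mul_comm]
    linarith

end Pool.Agent.Helper80.B9
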