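import Pool.Agent.Helper80.B9A139.Flow

/-!
# Local solutions in complex time
-/

set_option autoImplicit false

namespace Pool.Agent.Helper80.B9

open Finset MeasureTheory
open scoped Pointwise

lemma sg_eq_smul (k : ℤ) (a : ℂ) : sg k a = a • sg k 1 := by
  ext j
  change sg k a j = a * sg k 1 j
  rw [sg_apply, sg_apply]
  split_ifs <;> simp

lemma X_sum_apply {α : Type*} (s : Finset α) (f : α → X) (k : ℤ) :
    (∑ i ∈ s, f i) k = ∑ i ∈ s, f i k := map_sum (ev k) f s

/-- Finitely supported families of entire functions. -/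
structure FE where
  s : Finset ℤ
  f : ℤ → ℂ → ℂ
  diff : ∀ k, Differentiable ℂ (f k)
  supp : ∀ k ∉ s, ∀ z, f k z = 0

/-- Values in `ℓ¹`. -/
noncomputable def FE.toX (E : FE) (z : ℂ) : X := ∑ k ∈ E.s, sg k (E.f k z)

lemma FE.toX_apply (E : FE) (z : ℂ) (k : ℤ) : E.toX z k = E.f k z := by
  rw [FE.toX, X_sum_apply]
  simp only [sg_apply]
  rw [Finset.sum_ite_eq]
  split_ifs with h
  · rfl
  · rw [E.supp k h z]

lemma FE.continuous (E : FE) : Continuous E.toX := by
  unfold FE.toX
  apply continuous_finsetSum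
  intro k _
  have : (fun z => sg k (E.f k z)) = fun z => E.f k z • sg k 1 := by
    funext z; rw [sg_eq_smul]
  rw [this]
  exact (E.diff k).continuous.smul continuous_const

section
variable (ν : ℝ) [hν : Fact (1 ≤ ν)]

lemma FE.conv_eq (E : FE) (k : ℤ) (z : ℂ) : B ν (E.toX z) (E.toX z) k =
    ∑ j ∈ E.s, E.f j z * ((rho ν j (k - j) : ℂ) * E.f (k - j) z) := by
  rw [B_apply, tsum_eq_sum (s := E.s)]
  · simp only [FE.toX_apply]
  · intro j hj
    rw [FE.toX_apply, E.supp j hj, zero_mul]

lemma FE.conv_diff (E : FE) (k : ℤ) :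
    Differentiable ℂ fun z => B ν (E.toX z) (E.toX z) k := by
  simp only [FE.conv_eq]
  apply Differentiable.fun_sum
  intro j _
  exact (E.diff j).mul ((E.diff (k - j)).const_mul _)

lemma FE.conv_supp (E : FE) {k : ℤ} (hk : k ∉ E.s + E.s) (z : ℂ) :
    B ν (E.toX z) (E.toX z) k = 0 := by
  rw [FE.conv_eq]
  apply Finset.sum_eq_zero
  intro j hj
  have : k - j ∉ E.s := by
    intro h
    apply hk
    rw [Finset.mem_add]
    exact ⟨j, hj, k - j, h, by ring⟩
  rw [E.supp _ this z]
  ring

lemma ode_entire (μ c : ℂ) {r : ℂ → ℂ} (hr : Differentiable ℂ r) :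
    ∃ f : ℂ → ℂ, f 0 = c ∧ ∀ z, HasDerivAt f (-μ * f z + r z) z := by
  have h1 : Differentiable ℂ fun z => Complex.exp (μ * z) * r z :=
    ((differentiable_id.const_mul μ).cexp).mul hr
  obtain ⟨P, hP⟩ := h1.isExactOn_univ
  refine ⟨fun z => Complex.exp (-μ * z) * (c + P z - P 0), by simp, ?_⟩
  intro z
  have h2 : HasDerivAt (fun z => Complex.exp (-μ * z)) (Complex.exp (-μ * z) * (-μ)) z := by
    have h0 : HasDerivAt (fun z : ℂ => -μ * z) (-μ * 1) z := (hasDerivAt_id z).const_mul (-μ)
    rw [mul_one] at h0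
    exact h0.cexp
  have h3 : HasDerivAt (fun z => c + P z - P 0) (Complex.exp (μ * z) * r z) z :=
    ((hP z (Set.mem_univ z)).const_add c).sub_const (P 0)
  have h4 := h2.mul h3
  apply h4.congr_deriv
  have h5 : Complex.exp (-μ * z) * Complex.exp (μ * z) = 1 := by
    rw [← Complex.exp_add, show -μ * z + μ * z = 0 by ring, Complex.exp_zero]
  linear_combination (r z) * h5

lemma FE.next (E : FE) (g : X) (T : Finset ℤ) (hg : ∀ k ∉ T, g k = 0) :
    ∃ E' : FE, E'.toX 0 = g ∧
      ∀ k z, HasDerivAt (E'.f k) (-(om k : ℂ) * E'.f k z + B ν (E.toX z) (E.toX z) k) z := by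
  classical
  choose F hF0 hF using fun k : ℤ => ode_entire (om k : ℂ) (g k) (FE.conv_diff ν E k)
  refine ⟨⟨T ∪ (E.s + E.s), fun k z => if k ∈ T ∪ (E.s + E.s) then F k z else 0, ?_, ?_⟩, ?_, ?_⟩
  · intro k
    by_cases hk : k ∈ T ∪ (E.s + E.s)
    · simp only [if_pos hk]
      exact fun z => (hF k z).differentiableAt
    · simp only [if_neg hk]
      exact differentiable_const _
  · intro k hk z
    simp only [if_neg hk]
  · ext k
    change FE.toX _ 0 k = g k
    rw [FE.toX_apply]
    by_cases hk : k ∈ T ∪ (E.s + E.s)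
    · simp only [if_pos hk, hF0]
    · simp only [if_neg hk]
      rw [Finset.mem_union, not_or] at hk
      exact (hg k hk.1).symm
  · intro k z
    by_cases hk : k ∈ T ∪ (E.s + E.s)
    · simp only [if_pos hk]
      exact hF k z
    · simp only [if_neg hk]
      rw [Finset.mem_union, not_or] at hk
      rw [FE.conv_supp ν E hk.2]
      simpa using hasDerivAt_const z (0 : ℂ)

end

lemma exists_trunc (g : X) {ε : ℝ} (hε : 0 < ε) : ∃ (T : Finset ℤ) (g' : X), (∀ k ∉ T, g' k = 0) ∧
    ‖g'‖ ≤ ‖g‖ ∧ ‖g - g'‖ ≤ ε := by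
  have h := lp.hasSum_single (p := 1) (by simp) g
  have h2 := (Metric.tendsto_nhds.mp h ε hε)
  rw [SummationFilter.unconditional_filter, Filter.eventually_atTop] at h2
  obtain ⟨T, hT⟩ := h2
  have h3 := hT T le_rfl
  refine ⟨T, ∑ k ∈ T, lp.single 1 k (g k), ?_, ?_, ?_⟩
  · intro k hk
    rw [X_sum_apply]
    apply Finset.sum_eq_zero
    intro i hi
    rw [lp.single_apply_ne]
    rintro rfl
    exact hk hi
  · apply X_norm_le
    intro s
    refine le_trans ?_ (X_sum_le g s)
    apply Finset.sum_le_sum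
    intro k _
    rw [X_sum_apply]
    have : ∀ i ∈ T, (lp.single 1 i (g i) : X) k = if k = i then g i else 0 :=
      fun i _ => sg_apply i (g i) k
    rw [Finset.sum_congr rfl this, Finset.sum_ite_eq]
    split_ifs
    · exact le_rfl
    · simp
  · rw [← dist_eq_norm, dist_comm]
    exact h3.le

section lim

lemma Lin.limit {θ : ℂ} {un gn : ℕ → ℝ → X} {u g : ℝ → X} {a b : ℝ}
    (h : ∀ n, Lin θ (un n) (gn n) a b) (hun : ∀ n, Continuous (un n))
    (hgn : ∀ n, Continuous (gn n)) (hu : Continuous u) (hg : Continuous g) {ε δ : ℕ → ℝ}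
    (hε : Filter.Tendsto ε Filter.atTop (nhds 0)) (hδ : Filter.Tendsto δ Filter.atTop (nhds 0))
    (hue : ∀ n, ∀ t ∈ Set.Icc a b, ‖un n t - u t‖ ≤ ε n)
    (hge : ∀ n, ∀ t ∈ Set.Icc a b, ‖gn n t - g t‖ ≤ δ n) : Lin θ u g a b := by
  intro k t ht
  have ha : a ∈ Set.Icc a b := ⟨le_rfl, ht.1.trans ht.2⟩
  have hcoord : ∀ t ∈ Set.Icc a b, Filter.Tendsto (fun n => un n t k) Filter.atTop
      (nhds (u t k)) := by
    intro t ht
    rw [tendsto_iff_norm_sub_tendsto_zero]
    apply squeeze_zero (fun _ => norm_nonneg _) (fun n => _) hε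
    intro n
    refine le_trans ?_ (hue n t ht)
    rw [← X_sub_apply]
    exact X_norm_apply_le _ _
  have hc : ∀ (u g : ℝ → X), Continuous u → Continuous g →
      Continuous fun σ => θ * (-(om k : ℂ) * u σ k + g σ k) := fun u g hu hg =>
    continuous_const.mul ((continuous_const.mul (continuous_coord hu k)).add (continuous_coord hg k))
  have hint : Filter.Tendsto (fun n => ∫ σ in a..t, θ * (-(om k : ℂ) * un n σ k + gn n σ k))
      Filter.atTop (nhds (∫ σ in a..t, θ * (-(om k : ℂ) * u σ k + g σ k))) := by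
    rw [tendsto_iff_norm_sub_tendsto_zero]
    apply squeeze_zero (g := fun n => ‖θ‖ * (om k * ε n + δ n) * |t - a|)
      (fun _ => norm_nonneg _) (fun n => _)
    · have : Filter.Tendsto (fun n => ‖θ‖ * (om k * ε n + δ n) * |t - a|) Filter.atTop
          (nhds (‖θ‖ * (om k * 0 + 0) * |t - a|)) :=
        (((hε.const_mul _).add hδ).const_mul _).mul_const _
      simpa using this
    · intro n
      rw [← intervalIntegral.integral_sub ((hc _ _ (hun n) (hgn n)).intervalIntegrable _ _)
        ((hc _ _ hu hg).intervalIntegrable _ _)]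
      apply intervalIntegral.norm_integral_le_of_norm_le_const
      intro σ hσ
      rw [Set.uIoc_of_le ht.1] at hσ
      have hσ' : σ ∈ Set.Icc a b := ⟨hσ.1.le, hσ.2.trans ht.2⟩
      have e : θ * (-(om k : ℂ) * un n σ k + gn n σ k) - θ * (-(om k : ℂ) * u σ k + g σ k) =
          θ * (-(om k : ℂ) * (un n σ - u σ) k + (gn n σ - g σ) k) := by
        simp only [X_sub_apply]; ring
      rw [e, norm_mul]
      apply mul_le_mul_of_nonneg_left _ (norm_nonneg _)
      refine (norm_add_le _ _).trans ?_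
      rw [norm_mul, norm_neg, Complex.norm_real, Real.norm_of_nonneg (om_nonneg k)]
      apply add_le_add
      · exact mul_le_mul_of_nonneg_left ((X_norm_apply_le _ _).trans (hue n σ hσ')) (om_nonneg k)
      · exact (X_norm_apply_le _ _).trans (hge n σ hσ')
  apply tendsto_nhds_unique (hcoord t ht)
  have := (hcoord a ha).add hint
  refine this.congr (fun n => ?_)
  exact (h n k t ht).symm

end lim

/-- The closed rectangle `[0, a] × [-a, a]`. -/
def Rect (a : ℝ) : Set ℂ := {z | 0 ≤ z.re ∧ z.re ≤ a ∧ -a ≤ z.im ∧ z.im ≤ a}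

/-- Projection to the rectangle. -/
noncomputable def clip (a : ℝ) (z : ℂ) : ℂ :=
  ⟨max 0 (min a z.re), max (-a) (min a z.im)⟩

lemma clip_mem {a : ℝ} (ha : 0 ≤ a) (z : ℂ) : clip a z ∈ Rect a := by
  refine ⟨le_max_left _ _, max_le ha (min_le_left _ _), le_max_left _ _,
    max_le (by linarith) (min_le_left _ _)⟩

lemma clip_of_mem {a : ℝ} {z : ℂ} (hz : z ∈ Rect a) : clip a z = z := by
  obtain ⟨h1, h2, h3, h4⟩ := hz
  apply Complex.ext
  · simp [clip, h1, h2]
  · simp [clip, h3, h4]

lemma continuous_clip (a : ℝ) : Continuous (clip a) := by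
  have : clip a = fun z : ℂ => ((max 0 (min a z.re) : ℝ) : ℂ) +
      ((max (-a) (min a z.im) : ℝ) : ℂ) * Complex.I := by
    funext z
    apply Complex.ext <;> simp [clip]
  rw [this]
  fun_prop

lemma norm_le_of_mem_Rect {a : ℝ} {z : ℂ} (hz : z ∈ Rect a) : ‖z‖ ≤ 2 * a := by
  obtain ⟨h1, h2, h3, h4⟩ := hz
  have := Complex.norm_le_abs_re_add_abs_im z
  rw [abs_of_nonneg h1] at this
  have h5 : |z.im| ≤ a := abs_le.mpr ⟨h3, h4⟩
  linarith

lemma smul_mem_Rect {a : ℝ} {z : ℂ} (hz : z ∈ Rect a) {r : ℝ} (hr : r ∈ Set.Icc (0 : ℝ) 1) :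
    (r : ℂ) * z ∈ Rect a := by
  obtain ⟨h1, h2, h3, h4⟩ := hz
  obtain ⟨h5, h6⟩ := hr
  have ha : 0 ≤ a := by linarith
  refine ⟨?_, ?_, ?_, ?_⟩
  · rw [Complex.re_ofReal_mul]; positivity
  · rw [Complex.re_ofReal_mul]; nlinarith
  · rw [Complex.im_ofReal_mul]; nlinarith
  · rw [Complex.im_ofReal_mul]; nlinarith

section localsol

variable (ν : ℝ) [hν : Fact (1 ≤ ν)]

lemma FE.lin {E E' : FE}
    (h : ∀ k z, HasDerivAt (E'.f k) (-(om k : ℂ) * E'.f k z + B ν (E.toX z) (E.toX z) k) z)
    (z0 θ : ℂ) (a b : ℝ) :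
    Lin θ (fun r : ℝ => E'.toX (z0 + r * θ))
      (fun r : ℝ => B ν (E.toX (z0 + r * θ)) (E.toX (z0 + r * θ))) a b := by
  intro k t ht
  simp only [FE.toX_apply]
  have hd : ∀ s ∈ Set.uIcc a t, HasDerivAt (fun r : ℝ => E'.f k (z0 + r * θ))
      (θ * (-(om k : ℂ) * E'.f k (z0 + s * θ) +
        B ν (E.toX (z0 + s * θ)) (E.toX (z0 + s * θ)) k)) s := by
    intro s _
    have h1 : HasDerivAt (fun r : ℝ => z0 + (r : ℂ) * θ) (1 * θ) s :=
      ((Complex.ofRealCLM.hasDerivAt (x := s)).mul_const θ).const_add z0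
    have h2 := (h k (z0 + s * θ)).scomp s h1
    rw [one_mul, smul_eq_mul] at h2
    exact h2
  have hcE : Continuous fun r : ℝ => E.toX (z0 + r * θ) := by
    apply E.continuous.comp
    fun_prop
  have hc : Continuous fun s : ℝ => (θ * (-(om k : ℂ) * E'.f k (z0 + s * θ) +
        B ν (E.toX (z0 + s * θ)) (E.toX (z0 + s * θ)) k)) := by
    have h1 : Continuous fun s : ℝ => E'.f k (z0 + s * θ) := by
      apply (E'.diff k).continuous.comp
      fun_prop
    have h2 := continuous_coord (B_continuous ν hcE hcE) k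
    exact continuous_const.mul ((continuous_const.mul h1).add h2)
  rw [intervalIntegral.integral_eq_sub_of_hasDerivAt hd (hc.intervalIntegrable _ _)]
  ring

/-- Local existence in complex time. -/
theorem local_sol (g : X) {M a : ℝ} (hM : ‖g‖ ≤ M) (ha : 0 ≤ a) (haM : 16 * M * a ≤ 1) :
    ∃ G : ℂ → X, Continuous G ∧ G 0 = g ∧ (∀ z ∈ Rect a, ‖G z‖ ≤ 2 * M) ∧
      (∀ t ∈ Set.Icc (-a) a, Sol ν 1 (fun s : ℝ => G (s + t * Complex.I)) 0 a) ∧
      (∀ s ∈ Set.Icc (0 : ℝ) a, Sol ν Complex.I (fun t : ℝ => G (s + t * Complex.I)) (-a) a) := by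
  have hM0 : 0 ≤ M := (norm_nonneg g).trans hM
  -- truncations
  choose T g' hT hg1 hg2 using fun n : ℕ => exists_trunc g (ε := (1 / 4 : ℝ) ^ n) (by positivity)
  -- the sequence
  let E : ℕ → FE := fun n => Nat.rec (⟨∅, fun _ _ => 0, fun _ => differentiable_const _,
    fun _ _ _ => rfl⟩ : FE) (fun n En => Classical.choose (FE.next ν En (g' n) (T n) (hT n))) n
  have hE0 : ∀ z, (E 0).toX z = 0 := by
    intro z
    ext k
    change (E 0).toX z k = 0
    rw [FE.toX_apply]
    rfl
  have hEs : ∀ n, (E (n + 1)).toX 0 = g' n ∧ ∀ k z, HasDerivAt ((E (n + 1)).f k)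
      (-(om k : ℂ) * (E (n + 1)).f k z + B ν ((E n).toX z) ((E n).toX z) k) z := fun n =>
    Classical.choose_spec (FE.next ν (E n) (g' n) (T n) (hT n))
  have hcont : ∀ n (z : ℂ), Continuous fun r : ℝ => (E n).toX (0 + r * z) := by
    intro n z
    apply (E n).continuous.comp
    fun_prop
  -- the uniform bound
  have hbd : ∀ n, ∀ z ∈ Rect a, ‖(E n).toX z‖ ≤ 2 * M := by
    intro n
    induction n with
    | zero => intro z _; rw [hE0, norm_zero]; linarith
    | succ n ih =>
      intro z hz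
      have h1 := (FE.lin ν (hEs n).2 0 z 0 1).norm_est0 (hcont (n + 1) z)
        (B_continuous ν (hcont n z) (hcont n z)) hz.1 (t := 1) ⟨zero_le_one, le_rfl⟩
      simp only [Complex.ofReal_one, one_mul, zero_add, Complex.ofReal_zero, zero_mul,
        (hEs n).1] at h1
      have h2 : ∫ σ in (0 : ℝ)..1, ‖B ν ((E n).toX (σ * z)) ((E n).toX (σ * z))‖ ≤ 4 * M ^ 2 := by
        have h3 : ∀ σ ∈ Set.Icc (0 : ℝ) 1, ‖B ν ((E n).toX (σ * z)) ((E n).toX (σ * z))‖ ≤
            4 * M ^ 2 := by
          intro σ hσ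
          have h4 := ih _ (smul_mem_Rect hz hσ)
          refine (B_norm_le ν _ _).trans ?_
          nlinarith [norm_nonneg ((E n).toX (σ * z))]
        have h5 := intervalIntegral.integral_mono_on (μ := volume) (f := fun σ : ℝ =>
          ‖B ν ((E n).toX (σ * z)) ((E n).toX (σ * z))‖) (g := fun _ => 4 * M ^ 2) zero_le_one
          (by
            have := hcont n z
            simp only [zero_add] at this
            exact ((B_continuous ν this this).norm).intervalIntegrable _ _)
          (by simp) h3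
        simpa using h5
      have h6 := norm_le_of_mem_Rect hz
      have h7 : ‖z‖ * ∫ σ in (0 : ℝ)..1, ‖B ν ((E n).toX (σ * z)) ((E n).toX (σ * z))‖ ≤
          (2 * a) * (4 * M ^ 2) := by
        apply mul_le_mul h6 h2 _ (by linarith)
        exact intervalIntegral.integral_nonneg zero_le_one (fun _ _ => norm_nonneg _)
      have h8 := (hg1 n).trans hM
      have h9 : (2 * a) * (4 * M ^ 2) ≤ M := by nlinarith
      linarith
  -- differences
  have hdiff : ∀ n, ∀ z ∈ Rect a, ‖(E (n + 1)).toX z - (E n).toX z‖ ≤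
      (8 + 2 * M) * (3 / 4 : ℝ) ^ n := by
    intro n
    induction n with
    | zero =>
      intro z hz
      rw [hE0, sub_zero, pow_zero]
      have := hbd 1 z hz
      simp only [zero_add]
      linarith
    | succ n ih =>
      intro z hz
      have h1 := ((FE.lin ν (hEs (n + 1)).2 0 z 0 1).sub (FE.lin ν (hEs n).2 0 z 0 1)
        (hcont (n + 2) z) (B_continuous ν (hcont (n + 1) z) (hcont (n + 1) z))
        (hcont (n + 1) z) (B_continuous ν (hcont n z) (hcont n z))).norm_est0
        ((hcont (n + 2) z).sub (hcont (n + 1) z))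
        ((B_continuous ν (hcont (n + 1) z) (hcont (n + 1) z)).sub
          (B_continuous ν (hcont n z) (hcont n z))) hz.1 (t := 1) ⟨zero_le_one, le_rfl⟩
      simp only [Complex.ofReal_one, one_mul, zero_add, Complex.ofReal_zero, zero_mul,
        (hEs n).1, (hEs (n + 1)).1] at h1
      have hc : ∀ n, Continuous fun r : ℝ => (E n).toX (r * z) := by
        intro n
        have := hcont n z
        simpa only [zero_add] using this
      have h2 : ∫ σ in (0 : ℝ)..1, ‖B ν ((E (n + 1)).toX (σ * z)) ((E (n + 1)).toX (σ * z)) -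
          B ν ((E n).toX (σ * z)) ((E n).toX (σ * z))‖ ≤
          ((8 + 2 * M) * (3 / 4 : ℝ) ^ n) * (4 * M) := by
        have h3 : ∀ σ ∈ Set.Icc (0 : ℝ) 1,
            ‖B ν ((E (n + 1)).toX (σ * z)) ((E (n + 1)).toX (σ * z)) -
              B ν ((E n).toX (σ * z)) ((E n).toX (σ * z))‖ ≤
            ((8 + 2 * M) * (3 / 4 : ℝ) ^ n) * (4 * M) := by
          intro σ hσ
          refine (B_self_sub_norm_le ν _ _).trans ?_
          have h4 := ih _ (smul_mem_Rect hz hσ)
          have h5 := hbd n _ (smul_mem_Rect hz hσ)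
          have h6 := hbd (n + 1) _ (smul_mem_Rect hz hσ)
          apply mul_le_mul h4 _ (norm_nonneg _) (by positivity)
          refine (norm_add_le _ _).trans ?_
          linarith
        have h5 := intervalIntegral.integral_mono_on (μ := volume) (f := fun σ : ℝ =>
          ‖B ν ((E (n + 1)).toX (σ * z)) ((E (n + 1)).toX (σ * z)) -
              B ν ((E n).toX (σ * z)) ((E n).toX (σ * z))‖)
          (g := fun _ => ((8 + 2 * M) * (3 / 4 : ℝ) ^ n) * (4 * M)) zero_le_one
          (((B_continuous ν (hc (n + 1)) (hc (n + 1))).sub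
            (B_continuous ν (hc n) (hc n))).norm.intervalIntegrable _ _)
          (by simp) h3
        simpa using h5
      have h6 := norm_le_of_mem_Rect hz
      have h7 : ‖z‖ * ∫ σ in (0 : ℝ)..1,
          ‖B ν ((E (n + 1)).toX (σ * z)) ((E (n + 1)).toX (σ * z)) -
            B ν ((E n).toX (σ * z)) ((E n).toX (σ * z))‖ ≤
          (2 * a) * (((8 + 2 * M) * (3 / 4 : ℝ) ^ n) * (4 * M)) := by
        apply mul_le_mul h6 h2 _ (by linarith)
        exact intervalIntegral.integral_nonneg zero_le_one (fun _ _ => norm_nonneg _)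
      have h8 : ‖g' (n + 1) - g' n‖ ≤ 2 * (1 / 4 : ℝ) ^ n := by
        have e : g' (n + 1) - g' n = (g - g' n) - (g - g' (n + 1)) := by abel
        rw [e]
        refine (norm_sub_le _ _).trans ?_
        have h9 := hg2 n
        have h10 := hg2 (n + 1)
        have h11 : (1 / 4 : ℝ) ^ (n + 1) ≤ (1 / 4 : ℝ) ^ n :=
          pow_le_pow_of_le_one (by norm_num) (by norm_num) (Nat.le_succ n)
        linarith
      have h9 : (2 * a) * (((8 + 2 * M) * (3 / 4 : ℝ) ^ n) * (4 * M)) ≤
          ((8 + 2 * M) * (3 / 4 : ℝ) ^ n) / 2 := by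
        have h10 : 0 ≤ (8 + 2 * M) * (3 / 4 : ℝ) ^ n := by positivity
        nlinarith
      have h10 : (1 / 4 : ℝ) ^ n ≤ (3 / 4 : ℝ) ^ n :=
        pow_le_pow_left₀ (by norm_num) (by norm_num) n
      have h11 : (3 / 4 : ℝ) ^ (n + 1) = (3 / 4 : ℝ) ^ n * (3 / 4) := pow_succ _ _
      have h12 : 0 ≤ (3 / 4 : ℝ) ^ n := by positivity
      rw [h11]
      nlinarith [h1, h7, h8, h9, h10, h12, mul_nonneg hM0 h12]
  -- the limit
  set C : ℝ := 8 + 2 * M with hC
  have hdist : ∀ z n, dist ((E n).toX (clip a z)) ((E (n + 1)).toX (clip a z)) ≤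
      C * (3 / 4 : ℝ) ^ n := by
    intro z n
    rw [dist_comm, dist_eq_norm]
    exact hdiff n _ (clip_mem ha z)
  have hex : ∀ z, ∃ w : X, Filter.Tendsto (fun n => (E n).toX (clip a z)) Filter.atTop (nhds w) :=
    fun z => cauchySeq_tendsto_of_complete
      (cauchySeq_of_le_geometric (3 / 4) C (by norm_num) (hdist z))
  choose G hG using hex
  have hGd : ∀ z n, dist ((E n).toX (clip a z)) (G z) ≤ C * (3 / 4 : ℝ) ^ n / (1 - 3 / 4) :=
    fun z n => dist_le_of_le_geometric_of_tendsto (3 / 4) C (by norm_num) (hdist z) (hG z) n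
  have hε : Filter.Tendsto (fun n : ℕ => C * (3 / 4 : ℝ) ^ n / (1 - 3 / 4)) Filter.atTop
      (nhds 0) := by
    have h1 : Filter.Tendsto (fun n : ℕ => (3 / 4 : ℝ) ^ n) Filter.atTop (nhds 0) :=
      tendsto_pow_atTop_nhds_zero_of_lt_one (by norm_num) (by norm_num)
    have h2 := (h1.const_mul C).div_const (1 - 3 / 4)
    simpa using h2
  have hGc : Continuous G := by
    have hu : TendstoUniformly (fun n z => (E n).toX (clip a z)) G Filter.atTop := by
      rw [Metric.tendstoUniformly_iff]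
      intro e he
      filter_upwards [hε.eventually (gt_mem_nhds he)] with n hn z
      rw [dist_comm]
      exact (hGd z n).trans_lt hn
    apply hu.continuous
    apply Filter.Frequently.of_forall
    intro n
    exact (E n).continuous.comp (continuous_clip a)
  have hGb : ∀ z, ‖G z‖ ≤ 2 * M := by
    intro z
    apply le_of_tendsto (hG z).norm
    exact Filter.Eventually.of_forall fun n => hbd n _ (clip_mem ha z)
  -- limit of the equations along straight segments inside the rectangle
  have hlim : ∀ (z0 θ : ℂ) (c d : ℝ), (∀ r ∈ Set.Icc c d, z0 + r * θ ∈ Rect a) →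
      Sol ν θ (fun r : ℝ => G (z0 + r * θ)) c d := by
    intro z0 θ c d hin
    have hseg : Continuous fun r : ℝ => z0 + (r : ℂ) * θ := by fun_prop
    have hE1 : ∀ n, Continuous fun r : ℝ => (E n).toX (z0 + r * θ) :=
      fun n => (E n).continuous.comp hseg
    have hG1 : Continuous fun r : ℝ => G (z0 + r * θ) := hGc.comp hseg
    apply Lin.limit (un := fun n (r : ℝ) => (E (n + 1)).toX (z0 + r * θ))
      (gn := fun n (r : ℝ) => B ν ((E n).toX (z0 + r * θ)) ((E n).toX (z0 + r * θ)))
      (fun n => FE.lin ν (hEs n).2 z0 θ c d) (fun n => hE1 (n + 1))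
      (fun n => B_continuous ν (hE1 n) (hE1 n)) hG1 (B_continuous ν hG1 hG1)
      (ε := fun n => C * (3 / 4 : ℝ) ^ (n + 1) / (1 - 3 / 4))
      (δ := fun n => C * (3 / 4 : ℝ) ^ n / (1 - 3 / 4) * (4 * M))
      ((Filter.tendsto_add_atTop_iff_nat 1).mpr hε)
    · have := hε.mul_const (4 * M)
      simpa using this
    · intro n r hr
      rw [← dist_eq_norm]
      have := hGd (z0 + r * θ) (n + 1)
      rwa [clip_of_mem (hin r hr)] at this
    · intro n r hr
      have h1 := hGd (z0 + r * θ) n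
      rw [clip_of_mem (hin r hr), dist_eq_norm] at h1
      refine (B_self_sub_norm_le ν _ _).trans ?_
      apply mul_le_mul h1 _ (norm_nonneg _) ((norm_nonneg _).trans h1)
      refine (norm_add_le _ _).trans ?_
      have h2 := hbd n _ (hin r hr)
      have h3 := hGb (z0 + r * θ)
      linarith
  refine ⟨G, hGc, ?_, fun z _ => hGb z, ?_, ?_⟩
  · have h0 : (0 : ℂ) ∈ Rect a := ⟨by simp, by simpa using ha, by simpa using ha, by simpa using ha⟩
    have h1 := hG 0
    rw [clip_of_mem h0] at h1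
    have h2 : Filter.Tendsto (fun n => (E (n + 1)).toX 0) Filter.atTop (nhds g) := by
      simp only [fun n => (hEs n).1]
      rw [tendsto_iff_norm_sub_tendsto_zero]
      apply squeeze_zero (fun _ => norm_nonneg _) (fun n => _)
        (tendsto_pow_atTop_nhds_zero_of_lt_one (r := (1 / 4 : ℝ)) (by norm_num) (by norm_num))
      intro n
      rw [norm_sub_rev]
      exact hg2 n
    exact tendsto_nhds_unique ((Filter.tendsto_add_atTop_iff_nat 1).mpr h1) h2
  · intro t ht
    have h1 := hlim (t * Complex.I) 1 0 a (by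
      intro r hr
      refine ⟨?_, ?_, ?_, ?_⟩
      · simpa using hr.1
      · simpa using hr.2
      · simpa using ht.1
      · simpa using ht.2)
    apply h1.congr
    · intro s _
      simp only [mul_one]
      rw [add_comm]
    · intro s _
      simp only [mul_one]
      rw [add_comm]
  · intro s hs
    exact hlim s Complex.I (-a) a (by
      intro r hr
      refine ⟨?_, ?_, ?_, ?_⟩
      · simpa using hs.1
      · simpa using hs.2
      · simpa using hr.1
      · simpa using hr.2)

end localsol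

end Pool.Agent.Helper80.B9
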