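import Pool.Agent.Helper80.B9A139.Heat
import Pool.Agent.Helper80.B9A139.Local

/-!
# The threshold solution: a real heat solution decaying exponentially
-/

set_option autoImplicit false

namespace Pool.Agent.Helper80.B9

open Finset MeasureTheory
open scoped Pointwise

lemma integrable_of_exp {h : ℝ → ℝ} (hc : Continuous h) {G : ℝ}
    (hG : ∀ σ, 0 ≤ σ → |h σ| ≤ G * Real.exp (-60 * σ)) : IntegrableOn h (Set.Ioi 0) := by
  have h1 : IntegrableOn (fun σ => G * Real.exp (-60 * σ)) (Set.Ioi 0) :=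
    (exp_neg_integrableOn_Ioi 0 (by norm_num : (0 : ℝ) < 60)).const_mul G
  apply Integrable.mono' h1 hc.aestronglyMeasurable
  rw [ae_restrict_iff' measurableSet_Ioi]
  exact Filter.Eventually.of_forall fun σ hσ => hG σ (le_of_lt hσ)

/-- `-∫_s^∞ h`. -/
noncomputable def tailI (h : ℝ → ℝ) (s : ℝ) : ℝ :=
  -(∫ σ in Set.Ioi (0 : ℝ), h σ) + ∫ σ in (0 : ℝ)..s, h σ

lemma tailI_bound {h : ℝ → ℝ} (hc : Continuous h) {G : ℝ}
    (hG : ∀ σ, 0 ≤ σ → |h σ| ≤ G * Real.exp (-60 * σ)) {s : ℝ} (hs : 0 ≤ s) :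
    |tailI h s| ≤ G * Real.exp (-60 * s) / 60 := by
  have hG0 : 0 ≤ G := by
    have := (abs_nonneg _).trans (hG 0 le_rfl)
    simpa using this
  have h1 := intervalIntegral_tendsto_integral_Ioi 0 (integrable_of_exp hc hG) Filter.tendsto_id
  have h2 : Filter.Tendsto (fun t => -(∫ σ in (0 : ℝ)..t, h σ) + ∫ σ in (0 : ℝ)..s, h σ)
      Filter.atTop (nhds (tailI h s)) := (h1.neg).add_const _
  apply le_of_tendsto h2.abs
  filter_upwards [Filter.eventually_ge_atTop s] with t ht
  have h3 : -(∫ σ in (0 : ℝ)..t, h σ) + ∫ σ in (0 : ℝ)..s, h σ = -∫ σ in s..t, h σ := by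
    rw [← intervalIntegral.integral_add_adjacent_intervals (hc.intervalIntegrable 0 s)
      (hc.intervalIntegrable s t)]
    ring
  rw [h3, abs_neg]
  have h4 : ‖∫ σ in s..t, h σ‖ ≤ ∫ σ in s..t, G * Real.exp (-60 * σ) := by
    apply intervalIntegral.norm_integral_le_of_norm_le ht
    · exact Filter.Eventually.of_forall fun σ hσ => hG σ (hs.trans hσ.1.le)
    · apply Continuous.intervalIntegrable
      fun_prop
  rw [intervalIntegral.integral_const_mul] at h4
  have h5 := int_exp (c := 60) (by norm_num) ht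
  rw [← Real.norm_eq_abs]
  calc _ ≤ _ := h4
    _ ≤ G * (Real.exp (-60 * s) / 60) := mul_le_mul_of_nonneg_left h5 hG0
    _ = _ := by ring

lemma tailI_sub {h h' : ℝ → ℝ} (hc : Continuous h) (hc' : Continuous h') {G G' : ℝ}
    (hG : ∀ σ, 0 ≤ σ → |h σ| ≤ G * Real.exp (-60 * σ))
    (hG' : ∀ σ, 0 ≤ σ → |h' σ| ≤ G' * Real.exp (-60 * σ)) (s : ℝ) :
    tailI h s - tailI h' s = tailI (fun σ => h σ - h' σ) s := by
  unfold tailI
  rw [integral_sub (integrable_of_exp hc hG) (integrable_of_exp hc' hG'),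
    intervalIntegral.integral_sub (hc.intervalIntegrable _ _) (hc'.intervalIntegrable _ _)]
  ring

lemma tailI_hasDerivAt {h : ℝ → ℝ} (hc : Continuous h) (s : ℝ) :
    HasDerivAt (tailI h) (h s) s :=
  ((hc.integral_hasStrictDerivAt 0 s).hasDerivAt).const_add _

/-- Finitely supported families of real, even, continuous functions. -/
structure FR where
  s : Finset ℤ
  f : ℤ → ℝ → ℝ
  cont : ∀ k, Continuous (f k)
  supp : ∀ k ∉ s, ∀ x, f k x = 0
  even : ∀ k x, f (-k) x = f k x

/-- Values in `ℓ¹`. -/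
noncomputable def FR.toX (E : FR) (x : ℝ) : X := ∑ k ∈ E.s, sg k (E.f k x : ℂ)

lemma FR.toX_apply (E : FR) (x : ℝ) (k : ℤ) : E.toX x k = (E.f k x : ℂ) := by
  rw [FR.toX, X_sum_apply]
  simp only [sg_apply]
  rw [Finset.sum_ite_eq]
  split_ifs with h
  · rfl
  · rw [E.supp k h x, Complex.ofReal_zero]

lemma FR.continuous (E : FR) : Continuous E.toX := by
  unfold FR.toX
  apply continuous_finsetSum
  intro k _
  have : (fun x => sg k (E.f k x : ℂ)) = fun x => (E.f k x : ℂ) • sg k 1 := by
    funext z; rw [sg_eq_smul]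
  rw [this]
  exact (Complex.continuous_ofReal.comp (E.cont k)).smul continuous_const

set_option linter.unusedSectionVars false

variable (ν : ℝ) [hν : Fact (1 ≤ ν)]

/-- Coefficients of the square. -/
noncomputable def FR.G (E : FR) (k : ℤ) (x : ℝ) : ℝ :=
  ∑ j ∈ E.s, E.f j x * (rho ν j (k - j) * E.f (k - j) x)

lemma FR.conv_eq (E : FR) (k : ℤ) (x : ℝ) :
    B ν (E.toX x) (E.toX x) k = (E.G ν k x : ℂ) := by
  rw [B_apply, tsum_eq_sum (s := E.s)]
  · rw [FR.G]
    push_cast
    simp only [FR.toX_apply]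
  · intro j hj
    rw [FR.toX_apply, E.supp j hj, Complex.ofReal_zero, zero_mul]

lemma FR.G_cont (E : FR) (k : ℤ) : Continuous (E.G ν k) := by
  unfold FR.G
  apply continuous_finsetSum
  intro j _
  exact (E.cont j).mul (continuous_const.mul (E.cont _))

lemma FR.G_supp (E : FR) {k : ℤ} (hk : k ∉ E.s + E.s) (x : ℝ) : E.G ν k x = 0 := by
  rw [FR.G]
  apply Finset.sum_eq_zero
  intro j hj
  have : k - j ∉ E.s := by
    intro h
    apply hk
    rw [Finset.mem_add]
    exact ⟨j, hj, k - j, h, by ring⟩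
  rw [E.supp _ this x]
  ring

omit hν in
lemma rho_neg (j l : ℤ) : rho ν (-j) (-l) = rho ν j l := by
  have h : ∀ k : ℤ, wt ν (-k) = wt ν k := fun k => by rw [wt, wt, Int.natAbs_neg]
  rw [rho, rho, ← neg_add, h, h, h]

lemma B_even {u v : X} (hu : ∀ k, u (-k) = u k) (hv : ∀ k, v (-k) = v k) (k : ℤ) :
    B ν u v (-k) = B ν u v k := by
  rw [B_apply, B_apply, ← (Equiv.neg ℤ).tsum_eq]
  apply tsum_congr
  intro j
  simp only [Equiv.neg_apply]
  have e : -k - -j = -(k - j) := by ring
  rw [e, rho_neg, hu, hv]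

lemma FR.G_even (E : FR) (k : ℤ) (x : ℝ) : E.G ν (-k) x = E.G ν k x := by
  have h1 := B_even ν (u := E.toX x) (v := E.toX x) (fun k => by
    rw [FR.toX_apply, FR.toX_apply, E.even]) (fun k => by
    rw [FR.toX_apply, FR.toX_apply, E.even]) k
  rw [FR.conv_eq, FR.conv_eq] at h1
  exact Complex.ofReal_injective h1

lemma om_neg (k : ℤ) : om (-k) = om k := by
  rw [om, om]; push_cast; ring

/-- The next iterate, coefficientwise. -/
noncomputable def FR.nextf (E : FR) (ε : ℝ) (k : ℤ) (x : ℝ) : ℝ :=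
  if k = 0 then tailI (E.G ν 0) x
  else Real.exp (-om k * x) * ((if k = 1 ∨ k = -1 then ε else 0) +
    ∫ σ in (0 : ℝ)..x, Real.exp (om k * σ) * E.G ν k σ)

lemma FR.nextf_hasDerivAt (E : FR) (ε : ℝ) (k : ℤ) (x : ℝ) :
    HasDerivAt (E.nextf ν ε k) (-om k * E.nextf ν ε k x + E.G ν k x) x := by
  by_cases hk : k = 0
  · subst hk
    have h1 : E.nextf ν ε 0 = tailI (E.G ν 0) := by
      funext x; rw [FR.nextf, if_pos rfl]
    rw [h1, om_zero]
    simpa using tailI_hasDerivAt (E.G_cont ν 0) x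
  · have h1 : E.nextf ν ε k = fun x => Real.exp (-om k * x) * ((if k = 1 ∨ k = -1 then ε else 0) +
        ∫ σ in (0 : ℝ)..x, Real.exp (om k * σ) * E.G ν k σ) := by
      funext x; rw [FR.nextf, if_neg hk]
    rw [h1]
    have hc : Continuous fun σ => Real.exp (om k * σ) * E.G ν k σ := by
      have := E.G_cont ν k
      fun_prop
    have h2 : HasDerivAt (fun x => (if k = 1 ∨ k = -1 then ε else 0) +
        ∫ σ in (0 : ℝ)..x, Real.exp (om k * σ) * E.G ν k σ)
        (Real.exp (om k * x) * E.G ν k x) x :=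
      ((hc.integral_hasStrictDerivAt 0 x).hasDerivAt).const_add _
    have h3 : HasDerivAt (fun x => Real.exp (-om k * x)) (Real.exp (-om k * x) * (-om k)) x := by
      have h0 : HasDerivAt (fun x : ℝ => -om k * x) (-om k * 1) x :=
        (hasDerivAt_id x).const_mul _
      rw [mul_one] at h0
      exact h0.exp
    have h4 := h3.mul h2
    apply h4.congr_deriv
    have h5 : Real.exp (-om k * x) * Real.exp (om k * x) = 1 := by
      rw [← Real.exp_add]
      simp
    linear_combination (E.G ν k x) * h5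

/-- The next iterate. -/
noncomputable def FR.next (E : FR) (ε : ℝ) : FR where
  s := {0, 1, -1} ∪ (E.s + E.s)
  f := E.nextf ν ε
  cont := fun k => continuous_iff_continuousAt.mpr
    fun x => (E.nextf_hasDerivAt ν ε k x).continuousAt
  supp := by
    intro k hk x
    rw [Finset.mem_union, not_or] at hk
    obtain ⟨hk1, hk2⟩ := hk
    simp only [Finset.mem_insert, Finset.mem_singleton, not_or] at hk1
    rw [FR.nextf, if_neg hk1.1, if_neg (by rintro (h | h); exacts [hk1.2.1 h, hk1.2.2 h])]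
    simp only [E.G_supp ν hk2]
    simp
  even := by
    intro k x
    rw [FR.nextf, FR.nextf, om_neg]
    by_cases hk : k = 0
    · subst hk; simp
    · rw [if_neg (by simpa using hk), if_neg hk]
      have h1 : (-k = 1 ∨ -k = -1) ↔ (k = 1 ∨ k = -1) := by omega
      simp only [h1, E.G_even ν k]

lemma FR.next_lin (E : FR) (ε : ℝ) (b : ℝ) :
    Lin 1 (E.next ν ε).toX (fun x => B ν (E.toX x) (E.toX x)) 0 b := by
  intro k t _
  simp only [FR.toX_apply, FR.conv_eq]
  have hd : ∀ x ∈ Set.uIcc 0 t, HasDerivAt ((E.next ν ε).f k)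
      (-om k * (E.next ν ε).f k x + E.G ν k x) x := fun x _ => E.nextf_hasDerivAt ν ε k x
  have hc : Continuous fun x => (-om k * (E.next ν ε).f k x + E.G ν k x) := by
    have h1 := (E.next ν ε).cont k
    have h2 := E.G_cont ν k
    fun_prop
  have h1 := intervalIntegral.integral_eq_sub_of_hasDerivAt hd (hc.intervalIntegrable _ _)
  have h2 : (∫ σ in (0 : ℝ)..t, (1 : ℂ) * (-(om k : ℂ) * ((E.next ν ε).f k σ : ℂ) +
      (E.G ν k σ : ℂ))) =
      ((∫ σ in (0 : ℝ)..t, (-om k * (E.next ν ε).f k σ + E.G ν k σ) : ℝ) : ℂ) := by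
    rw [← intervalIntegral.integral_ofReal]
    apply intervalIntegral.integral_congr
    intro σ _
    push_cast
    ring
  rw [h2, h1]
  push_cast
  ring

lemma norm_pair (ε : ℝ) : ‖sg 1 (ε : ℂ) + sg (-1) (ε : ℂ)‖ ≤ 2 * |ε| := by
  refine (norm_add_le _ _).trans ?_
  rw [norm_sg, norm_sg, Complex.norm_real, Real.norm_eq_abs]
  linarith

lemma FR.next_mf_zero (E : FR) (ε : ℝ) :
    mf ((E.next ν ε).toX 0) = sg 1 (ε : ℂ) + sg (-1) (ε : ℂ) := by
  ext k
  change mf ((E.next ν ε).toX 0) k = sg 1 (ε : ℂ) k + sg (-1) (ε : ℂ) k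
  rw [mf_apply, FR.toX_apply, sg_apply, sg_apply]
  change (if k = 0 then (0 : ℂ) else (E.nextf ν ε k 0 : ℂ)) = _
  rw [FR.nextf]
  by_cases h0 : k = 0
  · subst h0; simp
  · rw [if_neg h0, if_neg h0]
    by_cases h1 : k = 1
    · subst h1; simp
    · by_cases h2 : k = -1
      · subst h2; simp
      · simp [h1, h2]

/-- The bound for one step of the iteration. -/
lemma step_bound {u g : ℝ → X} (hu : Continuous u) (hg : Continuous g)
    (hlin : ∀ b, Lin 1 u g 0 b) {η G : ℝ} (hη : ‖mf (u 0)‖ ≤ η)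
    (hG : ∀ x, 0 ≤ x → ‖g x‖ ≤ G * Real.exp (-60 * x))
    (h0 : ∀ x, 0 ≤ x → ‖u x 0‖ ≤ G * Real.exp (-60 * x) / 60) {x : ℝ} (hx : 0 ≤ x) :
    ‖u x‖ ≤ (η + G / 10) * Real.exp (-30 * x) := by
  have hG0 : 0 ≤ G := by
    have := (norm_nonneg _).trans (hG 0 le_rfl)
    simpa using this
  have hη0 : 0 ≤ η := (norm_nonneg _).trans hη
  have h1 := (hlin x).mf.norm_est (continuous_mf hu) (continuous_mf hg) (κ := 39) (by
      intro k
      by_cases hk : k = 0
      · left; intro σ; rw [hk]; simp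
      · right
        rw [one_mul, Complex.ofReal_re]
        exact om_ge hk) (t := x) ⟨hx, le_rfl⟩
  simp only [sub_zero, norm_one, one_mul] at h1
  have h2 : ∫ σ in (0 : ℝ)..x, Real.exp (-39 * (x - σ)) * ‖mf (g σ)‖ ≤
      ∫ σ in (0 : ℝ)..x, (G * Real.exp (-39 * x)) * Real.exp (-21 * σ) := by
    apply intervalIntegral.integral_mono_on hx
    · apply Continuous.intervalIntegrable
      have := (continuous_mf hg).norm
      fun_prop
    · apply Continuous.intervalIntegrable
      fun_prop
    · intro σ hσ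
      calc _ ≤ Real.exp (-39 * (x - σ)) * (G * Real.exp (-60 * σ)) :=
            mul_le_mul_of_nonneg_left ((norm_mf_le _).trans (hG σ hσ.1)) (Real.exp_pos _).le
        _ = G * (Real.exp (-39 * (x - σ)) * Real.exp (-60 * σ)) := by ring
        _ = G * (Real.exp (-39 * x) * Real.exp (-21 * σ)) := by
          rw [← Real.exp_add, ← Real.exp_add]
          congr 2
          ring
        _ = _ := by ring
  rw [intervalIntegral.integral_const_mul] at h2
  have h3 := int_exp (c := 21) (by norm_num) hx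
  simp only [mul_zero, Real.exp_zero] at h3
  have h4 : (G * Real.exp (-39 * x)) * ∫ σ in (0 : ℝ)..x, Real.exp (-21 * σ) ≤
      (G * Real.exp (-39 * x)) * (1 / 21) := mul_le_mul_of_nonneg_left h3 (by positivity)
  have h5 : Real.exp (-39 * x) ≤ Real.exp (-30 * x) := by
    apply Real.exp_le_exp.mpr
    nlinarith
  have h6 : Real.exp (-60 * x) ≤ Real.exp (-30 * x) := by
    apply Real.exp_le_exp.mpr
    nlinarith
  have h7 : Real.exp (-39 * x) * ‖mf (u 0)‖ ≤ Real.exp (-30 * x) * η :=
    mul_le_mul h5 hη (norm_nonneg _) (Real.exp_pos _).le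
  have h8 := h0 x hx
  rw [norm_eq_mf]
  have h9 : G * Real.exp (-39 * x) ≤ G * Real.exp (-30 * x) := mul_le_mul_of_nonneg_left h5 hG0
  have h10 : G * Real.exp (-60 * x) ≤ G * Real.exp (-30 * x) := mul_le_mul_of_nonneg_left h6 hG0
  have h11 : 0 ≤ G * Real.exp (-30 * x) := by positivity
  nlinarith

/-- Existence of the threshold solution. -/
theorem threshold {ε : ℝ} (hε : 0 < ε) (hε1 : ε ≤ 1 / 4) :
    ∃ U : ℝ → X, Continuous U ∧ (∀ b, 0 ≤ b → Sol ν 1 U 0 b) ∧
      (∀ x, 0 ≤ x → ‖U x‖ ≤ 4 * ε * Real.exp (-30 * x)) ∧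
      (∀ x, 0 ≤ x → ε / 5 * Real.exp (-om 1 * x) ≤ ‖U x 1‖) ∧
      (∀ x, 0 ≤ x → ∀ k, (U x k).im = 0 ∧ U x (-k) = U x k) := by
  set R := 4 * ε with hR
  have hR0 : 0 < R := by positivity
  obtain ⟨E, hE0, hEs⟩ : ∃ E : ℕ → FR, (∀ x, (E 0).toX x = 0) ∧
      ∀ n, E (n + 1) = (E n).next ν ε := by
    refine ⟨fun n => Nat.rec (⟨∅, fun _ _ => 0, fun _ => continuous_const,
      fun _ _ _ => rfl, fun _ _ => rfl⟩ : FR) (fun _ En => En.next ν ε) n, ?_, fun n => rfl⟩
    intro x
    simp [FR.toX]
  have hc : ∀ n, Continuous (E n).toX := fun n => (E n).continuous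
  have hcB : ∀ n, Continuous fun x => B ν ((E n).toX x) ((E n).toX x) :=
    fun n => B_continuous ν (hc n) (hc n)
  have hlinE : ∀ n b, Lin 1 (E (n + 1)).toX (fun x => B ν ((E n).toX x) ((E n).toX x)) 0 b :=
    fun n b => by rw [hEs]; exact FR.next_lin ν (E n) ε b
  -- bounds
  have hB : ∀ n, (∀ x, 0 ≤ x → ‖(E n).toX x‖ ≤ R * Real.exp (-30 * x)) →
      ∀ x, 0 ≤ x → ‖B ν ((E n).toX x) ((E n).toX x)‖ ≤ R ^ 2 * Real.exp (-60 * x) := by
    intro n h x hx
    refine (B_norm_le ν _ _).trans ?_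
    calc _ ≤ (R * Real.exp (-30 * x)) * (R * Real.exp (-30 * x)) :=
          mul_le_mul (h x hx) (h x hx) (norm_nonneg _) (by positivity)
      _ = R ^ 2 * (Real.exp (-30 * x) * Real.exp (-30 * x)) := by ring
      _ = _ := by
        rw [← Real.exp_add]
        congr 2
        ring
  have hGb : ∀ n, (∀ x, 0 ≤ x → ‖(E n).toX x‖ ≤ R * Real.exp (-30 * x)) →
      ∀ x, 0 ≤ x → |(E n).G ν 0 x| ≤ R ^ 2 * Real.exp (-60 * x) := by
    intro n h x hx
    have h1 := (X_norm_apply_le _ 0).trans (hB n h x hx)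
    rwa [FR.conv_eq, Complex.norm_real, Real.norm_eq_abs] at h1
  have hbd : ∀ n, ∀ x, 0 ≤ x → ‖(E n).toX x‖ ≤ R * Real.exp (-30 * x) := by
    intro n
    induction n with
    | zero => intro x hx; rw [hE0, norm_zero]; positivity
    | succ n ih =>
      intro x hx
      have h1 := step_bound (u := (E (n + 1)).toX) (g := fun x => B ν ((E n).toX x) ((E n).toX x))
        (hc _) (hcB _) (fun b => hlinE n b) (η := 2 * ε) (G := R ^ 2) (by
          rw [hEs, FR.next_mf_zero]
          have := norm_pair ε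
          rwa [abs_of_pos hε] at this) (hB n ih) (by
          intro x hx
          rw [FR.toX_apply, Complex.norm_real, Real.norm_eq_abs]
          have h2 : (E (n + 1)).f 0 x = tailI ((E n).G ν 0) x := by
            rw [hEs]
            change (E n).nextf ν ε 0 x = _
            rw [FR.nextf, if_pos rfl]
          rw [h2]
          exact tailI_bound ((E n).G_cont ν 0) (hGb n ih) hx) hx
      refine h1.trans ?_
      apply mul_le_mul_of_nonneg_right _ (Real.exp_pos _).le
      rw [hR]
      nlinarith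
  -- differences
  have hdiff : ∀ n, ∀ x, 0 ≤ x → ‖(E (n + 1)).toX x - (E n).toX x‖ ≤
      (R * (1 / 2 : ℝ) ^ n) * Real.exp (-30 * x) := by
    intro n
    induction n with
    | zero =>
      intro x hx
      rw [hE0, sub_zero, pow_zero, mul_one]
      exact hbd 1 x hx
    | succ n ih =>
      intro x hx
      set Δ := R * (1 / 2 : ℝ) ^ n with hΔ
      have hΔ0 : 0 ≤ Δ := by positivity
      have hBd : ∀ x, 0 ≤ x → ‖B ν ((E (n + 1)).toX x) ((E (n + 1)).toX x) -
          B ν ((E n).toX x) ((E n).toX x)‖ ≤ (2 * R * Δ) * Real.exp (-60 * x) := by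
        intro x hx
        refine (B_self_sub_norm_le ν _ _).trans ?_
        have h1 := ih x hx
        have h2 : ‖(E (n + 1)).toX x + (E n).toX x‖ ≤ 2 * R * Real.exp (-30 * x) := by
          refine (norm_add_le _ _).trans ?_
          have := hbd n x hx
          have := hbd (n + 1) x hx
          linarith
        calc _ ≤ (Δ * Real.exp (-30 * x)) * (2 * R * Real.exp (-30 * x)) :=
              mul_le_mul h1 h2 (norm_nonneg _) (by positivity)
          _ = 2 * R * Δ * (Real.exp (-30 * x) * Real.exp (-30 * x)) := by ring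
          _ = _ := by
            rw [← Real.exp_add]
            congr 2
            ring
      have h1 := step_bound (u := fun x => (E (n + 2)).toX x - (E (n + 1)).toX x)
        (g := fun x => B ν ((E (n + 1)).toX x) ((E (n + 1)).toX x) -
          B ν ((E n).toX x) ((E n).toX x))
        ((hc _).sub (hc _)) ((hcB _).sub (hcB _))
        (fun b => (hlinE (n + 1) b).sub (hlinE n b)
          (hc _) (hcB _) (hc _) (hcB _)) (η := 0) (G := 2 * R * Δ) (by
          rw [mf_sub, hEs (n + 1), hEs n, FR.next_mf_zero, FR.next_mf_zero, sub_self, norm_zero])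
        hBd (by
          intro x hx
          rw [X_sub_apply, FR.toX_apply, FR.toX_apply]
          have h2 : ∀ m, (E (m + 1)).f 0 x = tailI ((E m).G ν 0) x := by
            intro m
            rw [hEs]
            change (E m).nextf ν ε 0 x = _
            rw [FR.nextf, if_pos rfl]
          rw [h2 (n + 1), h2 n, ← Complex.ofReal_sub, Complex.norm_real, Real.norm_eq_abs,
            tailI_sub ((E (n + 1)).G_cont ν 0) ((E n).G_cont ν 0) (hGb _ (hbd _)) (hGb _ (hbd _))]
          apply tailI_bound (((E (n + 1)).G_cont ν 0).sub ((E n).G_cont ν 0)) _ hx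
          intro σ hσ
          have h3 := (X_norm_apply_le _ 0).trans (hBd σ hσ)
          rwa [X_sub_apply, FR.conv_eq, FR.conv_eq, ← Complex.ofReal_sub, Complex.norm_real,
            Real.norm_eq_abs] at h3) hx
      refine h1.trans ?_
      apply mul_le_mul_of_nonneg_right _ (Real.exp_pos _).le
      have h2 : R * (1 / 2 : ℝ) ^ (n + 1) = Δ / 2 := by rw [hΔ, pow_succ]; ring
      rw [h2]
      have h3 : R ≤ 1 := by rw [hR]; linarith
      nlinarith
  -- the limit
  have hdist : ∀ x : ℝ, ∀ n, dist ((E n).toX (max x 0)) ((E (n + 1)).toX (max x 0)) ≤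
      R * (1 / 2 : ℝ) ^ n := by
    intro x n
    rw [dist_comm, dist_eq_norm]
    refine (hdiff n _ (le_max_right _ _)).trans ?_
    have h1 : Real.exp (-30 * max x 0) ≤ 1 := by
      rw [Real.exp_le_one_iff]
      nlinarith [le_max_right x 0]
    calc _ ≤ (R * (1 / 2 : ℝ) ^ n) * 1 := mul_le_mul_of_nonneg_left h1 (by positivity)
      _ = _ := mul_one _
  have hex : ∀ x, ∃ w : X, Filter.Tendsto (fun n => (E n).toX (max x 0)) Filter.atTop (nhds w) :=
    fun x => cauchySeq_tendsto_of_complete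
      (cauchySeq_of_le_geometric (1 / 2) R (by norm_num) (hdist x))
  choose U hU using hex
  have hUd : ∀ x n, dist ((E n).toX (max x 0)) (U x) ≤ R * (1 / 2 : ℝ) ^ n / (1 - 1 / 2) :=
    fun x n => dist_le_of_le_geometric_of_tendsto (1 / 2) R (by norm_num) (hdist x) (hU x) n
  have hlimε : Filter.Tendsto (fun n : ℕ => R * (1 / 2 : ℝ) ^ n / (1 - 1 / 2)) Filter.atTop
      (nhds 0) := by
    have h1 : Filter.Tendsto (fun n : ℕ => (1 / 2 : ℝ) ^ n) Filter.atTop (nhds 0) :=
      tendsto_pow_atTop_nhds_zero_of_lt_one (by norm_num) (by norm_num)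
    have h2 := (h1.const_mul R).div_const (1 - 1 / 2)
    simpa using h2
  have hUc : Continuous U := by
    have hu : TendstoUniformly (fun n x => (E n).toX (max x 0)) U Filter.atTop := by
      rw [Metric.tendstoUniformly_iff]
      intro e he
      filter_upwards [hlimε.eventually (gt_mem_nhds he)] with n hn x
      rw [dist_comm]
      exact (hUd x n).trans_lt hn
    apply hu.continuous
    apply Filter.Frequently.of_forall
    intro n
    exact (hc n).comp (continuous_id.max continuous_const)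
  have hUb : ∀ x, 0 ≤ x → ‖U x‖ ≤ R * Real.exp (-30 * x) := by
    intro x hx
    apply le_of_tendsto (hU x).norm
    apply Filter.Eventually.of_forall
    intro n
    rw [max_eq_left hx]
    exact hbd n x hx
  have hUsol : ∀ b, 0 ≤ b → Sol ν 1 U 0 b := by
    intro b _
    apply Lin.limit (un := fun n => (E (n + 1)).toX)
      (gn := fun n x => B ν ((E n).toX x) ((E n).toX x))
      (fun n => hlinE n b) (fun n => hc (n + 1)) hcB hUc (B_continuous ν hUc hUc)
      (ε := fun n => R * (1 / 2 : ℝ) ^ (n + 1) / (1 - 1 / 2))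
      (δ := fun n => R * (1 / 2 : ℝ) ^ n / (1 - 1 / 2) * (2 * R))
      ((Filter.tendsto_add_atTop_iff_nat 1).mpr hlimε)
    · have := hlimε.mul_const (2 * R)
      simpa using this
    · intro n x hx
      rw [← dist_eq_norm]
      have := hUd x (n + 1)
      rwa [max_eq_left hx.1] at this
    · intro n x hx
      have h1 := hUd x n
      rw [max_eq_left hx.1, dist_eq_norm] at h1
      refine (B_self_sub_norm_le ν _ _).trans ?_
      apply mul_le_mul h1 _ (norm_nonneg _) ((norm_nonneg _).trans h1)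
      refine (norm_add_le _ _).trans ?_
      have h2 := hbd n x hx.1
      have h3 := hUb x hx.1
      have h4 : Real.exp (-30 * x) ≤ 1 := by
        rw [Real.exp_le_one_iff]
        nlinarith [hx.1]
      nlinarith
  have hcoord : ∀ x, 0 ≤ x → ∀ k, Filter.Tendsto (fun n => (((E n).f k x : ℝ) : ℂ)) Filter.atTop
      (nhds (U x k)) := by
    intro x hx k
    have h1 := ((ev k).continuous.tendsto (U x)).comp (hU x)
    refine h1.congr (fun n => ?_)
    simp only [Function.comp_apply, ev_apply]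
    rw [max_eq_left hx, FR.toX_apply]
  refine ⟨U, hUc, hUsol, hUb, ?_, ?_⟩
  · intro x hx
    have hB' := B_continuous ν hUc hUc
    have h1 := scalar_formula (μ := (om 1 : ℂ)) (f := fun x => U x 1)
      (r := fun x => B ν (U x) (U x) 1) (continuous_coord hUc 1)
      (continuous_coord hB' 1) (a := 0) (b := x) (by
        intro τ hτ
        rw [hUsol x hx 1 τ hτ]
        congr 1
        apply intervalIntegral.integral_congr
        intro s _
        ring) (t := x) ⟨hx, le_rfl⟩
    have hU01 : U 0 1 = (ε : ℂ) := by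
      have h2 := hcoord 0 le_rfl 1
      have h3 : Filter.Tendsto (fun n => (((E (n + 1)).f 1 0 : ℝ) : ℂ)) Filter.atTop
          (nhds (ε : ℂ)) := by
        have : ∀ n, (E (n + 1)).f 1 0 = ε := by
          intro n
          rw [hEs]
          change (E n).nextf ν ε 1 0 = ε
          rw [FR.nextf]
          simp
        simp only [this]
        exact tendsto_const_nhds
      exact tendsto_nhds_unique ((Filter.tendsto_add_atTop_iff_nat 1).mpr h2) h3
    have hnorm : ∀ s : ℝ, ‖Complex.exp (-(om 1 : ℂ) * (x - s))‖ = Real.exp (-om 1 * (x - s)) := by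
      intro s
      rw [Complex.norm_exp]
      congr 1
      simp [Complex.mul_re]
    have h2 : ‖∫ σ in (0 : ℝ)..x, Complex.exp (-(om 1 : ℂ) * (x - σ)) * B ν (U σ) (U σ) 1‖ ≤
        ∫ σ in (0 : ℝ)..x, (R ^ 2 * Real.exp (-om 1 * x)) * Real.exp (-20 * σ) := by
      apply intervalIntegral.norm_integral_le_of_norm_le hx
      · apply Filter.Eventually.of_forall
        intro σ hσ
        have hσ0 : 0 ≤ σ := hσ.1.le
        rw [norm_mul, hnorm]
        have h3 : ‖B ν (U σ) (U σ) 1‖ ≤ R ^ 2 * Real.exp (-60 * σ) := by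
          refine (X_norm_apply_le _ _).trans ((B_norm_le ν _ _).trans ?_)
          calc _ ≤ (R * Real.exp (-30 * σ)) * (R * Real.exp (-30 * σ)) :=
                mul_le_mul (hUb σ hσ0) (hUb σ hσ0) (norm_nonneg _) (by positivity)
            _ = R ^ 2 * (Real.exp (-30 * σ) * Real.exp (-30 * σ)) := by ring
            _ = _ := by
              rw [← Real.exp_add]
              congr 2
              ring
        calc _ ≤ Real.exp (-om 1 * (x - σ)) * (R ^ 2 * Real.exp (-60 * σ)) :=
              mul_le_mul_of_nonneg_left h3 (Real.exp_pos _).le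
          _ = R ^ 2 * (Real.exp (-om 1 * (x - σ)) * Real.exp (-60 * σ)) := by ring
          _ ≤ R ^ 2 * (Real.exp (-om 1 * x) * Real.exp (-20 * σ)) := by
            apply mul_le_mul_of_nonneg_left _ (by positivity)
            rw [← Real.exp_add, ← Real.exp_add]
            apply Real.exp_le_exp.mpr
            nlinarith [om_one_le]
          _ = _ := by ring
      · apply Continuous.intervalIntegrable
        fun_prop
    rw [intervalIntegral.integral_const_mul] at h2
    have h3 := int_exp (c := 20) (by norm_num) hx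
    simp only [mul_zero, Real.exp_zero] at h3
    have h4 : (R ^ 2 * Real.exp (-om 1 * x)) * ∫ σ in (0 : ℝ)..x, Real.exp (-20 * σ) ≤
        (R ^ 2 * Real.exp (-om 1 * x)) * (1 / 20) := mul_le_mul_of_nonneg_left h3 (by positivity)
    have h5 : Complex.exp (-(om 1 : ℂ) * (x - (0 : ℝ))) * U 0 1 =
        U x 1 - ∫ σ in (0 : ℝ)..x, Complex.exp (-(om 1 : ℂ) * (x - σ)) * B ν (U σ) (U σ) 1 := by
      rw [h1]; ring
    have h6 : ‖Complex.exp (-(om 1 : ℂ) * (x - (0 : ℝ))) * U 0 1‖ =
        Real.exp (-om 1 * x) * ε := by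
      rw [norm_mul, hnorm, sub_zero, hU01, Complex.norm_real, Real.norm_of_nonneg hε.le]
    have h7 : Real.exp (-om 1 * x) * ε ≤ ‖U x 1‖ + (R ^ 2 * Real.exp (-om 1 * x)) * (1 / 20) := by
      rw [← h6, h5]
      refine (norm_sub_le _ _).trans ?_
      linarith
    have h8 := Real.exp_pos (-om 1 * x)
    have h9 : R ^ 2 * (1 / 20) ≤ 4 / 5 * ε := by
      rw [hR]; nlinarith
    nlinarith
  · intro x hx k
    constructor
    · have h1 := (Complex.continuous_im.tendsto _).comp (hcoord x hx k)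
      have h2 : Filter.Tendsto (fun _ : ℕ => (0 : ℝ)) Filter.atTop (nhds (U x k).im) := by
        refine h1.congr (fun n => ?_)
        simp
      exact tendsto_nhds_unique h2 tendsto_const_nhds
    · have h1 := hcoord x hx (-k)
      have h2 := hcoord x hx k
      simp only [(E _).even] at h1
      exact tendsto_nhds_unique h1 h2

end Pool.Agent.Helper80.B9
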