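import Pool.Agent.Helper80.B9A139.Circle
import Pool.Agent.Helper80.B9A139.Exit
import Pool.Agent.Helper80.B9A139.Threshold

/-!
# Failure of convergence for real data
-/

set_option autoImplicit false

namespace Pool.Agent.Helper80.B9

open Finset MeasureTheory Pool.Agent.Helper80.B9A139
open scoped ComplexConjugate

variable {ν : ℝ} [hν : Fact (1 ≤ ν)]

/-- A forward solution on the circle gives a Schrödinger solution in `ℓ¹`. -/
lemma forward_sol {u : ℝ → C(UnitAddCircle, ℂ)} (h : IsSolutionOn ν (Set.Ici 0) u) :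
    Continuous (fun t => toX ν (u (max t 0))) ∧
      ∀ b, 0 ≤ b → Sol ν Complex.I (fun t => toX ν (u (max t 0))) 0 b := by
  have hcont : Continuous (fun t => toX ν (u (max t 0))) := by
    have h1 : ContinuousOn (fun t => toX ν (u t)) (Set.Ici 0) := by
      intro t ht
      rw [ContinuousWithinAt, tendsto_iff_norm_sub_tendsto_zero]
      apply (h.cont t ht).congr'
      filter_upwards [self_mem_nhdsWithin] with s hs
      rw [← toX_sub (h.mem s hs) (h.mem t ht), norm_toX (InWiener.sub' (h.mem s hs) (h.mem t ht))]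
    exact h1.comp_continuous (continuous_id.max continuous_const)
      (fun t => Set.mem_Ici.mpr (le_max_right _ _))
  refine ⟨hcont, fun b hb k t ht => ?_⟩
  have hcB := B_continuous ν hcont hcont
  have hmem : ∀ s, InWiener ν (u (max s 0)) := fun s => h.mem _ (Set.mem_Ici.mpr (le_max_right _ _))
  have hint : Continuous fun σ => Complex.I * (-(om k : ℂ) * toX ν (u (max σ 0)) k +
      B ν (toX ν (u (max σ 0))) (toX ν (u (max σ 0))) k) :=
    continuous_const.mul ((continuous_const.mul (continuous_coord hcont k)).add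
      (continuous_coord hcB k))
  have hd : ∀ x ∈ Set.Ioo 0 t, HasDerivAt (fun s => toX ν (u (max s 0)) k)
      (Complex.I * (-(om k : ℂ) * toX ν (u (max x 0)) k +
        B ν (toX ν (u (max x 0))) (toX ν (u (max x 0))) k)) x := by
    intro x hx
    have h1 : HasDerivAt (fun s => fourierCoeff (u s) k)
        (Complex.I * (-(2 * (Real.pi : ℂ) * k) ^ 2 * fourierCoeff (u x) k +
      fourierCoeff (u x * u x) k)) x := (h.eqn k x hx.1.le).hasDerivAt (Ici_mem_nhds hx.1)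
    have h2 := h1.mul_const ((wt ν k : ℝ) : ℂ)
    have h3 : (fun s => toX ν (u (max s 0)) k) =ᶠ[nhds x]
        fun s => fourierCoeff (u s) k * ((wt ν k : ℝ) : ℂ) := by
      filter_upwards [Ioi_mem_nhds hx.1] with s hs
      rw [toX_apply (hmem s), max_eq_left (le_of_lt hs)]
    apply (h2.congr_of_eventuallyEq h3).congr_deriv
    rw [B_toX (hmem x), toX_apply (hmem x), max_eq_left hx.1.le, om]
    push_cast
    ring
  have h4 := intervalIntegral.integral_eq_sub_of_hasDerivAt_of_le ht.1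
    (continuous_coord hcont k).continuousOn hd (hint.intervalIntegrable _ _)
  rw [h4]
  ring

/-- The main result, forward in time. -/
theorem forward_fail (ν : ℝ) (hν : 1 ≤ ν) (δ : ℝ) (hδ : 0 < δ) :
    ∃ u₀ : C(UnitAddCircle, ℂ), IsReal u₀ ∧ InWiener ν u₀ ∧ wienerNorm ν u₀ < δ ∧
      ¬ ∃ u : ℝ → C(UnitAddCircle, ℂ), IsSolutionOn ν (Set.Ici 0) u ∧ u 0 = u₀ ∧
        Filter.Tendsto (fun t => wienerNorm ν (u t)) Filter.atTop (nhds 0) := by
  have : Fact (1 ≤ ν) := ⟨hν⟩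
  by_contra hcon
  push Not at hcon
  set ε := min (1 / 4) (δ / 8) with hε
  have hεpos : 0 < ε := by positivity
  obtain ⟨U, hUc, hUs, hUb, hU1, hUr⟩ := threshold ν hεpos (min_le_left _ _)
  have h4ε : 4 * ε < δ := by
    have := min_le_right (1 / 4) (δ / 8)
    linarith
  have hex : ∀ σ : ℝ, ∃ u : ℝ → C(UnitAddCircle, ℂ), 0 ≤ σ → IsSolutionOn ν (Set.Ici 0) u ∧
      u 0 = ofX ν (U σ) ∧
        Filter.Tendsto (fun t => wienerNorm ν (u t)) Filter.atTop (nhds 0) := by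
    intro σ
    by_cases hσ : 0 ≤ σ
    · have h1 : wienerNorm ν (ofX ν (U σ)) < δ := by
        rw [← norm_toX (ofX_inWiener (U σ)), toX_ofX]
        refine (hUb σ hσ).trans_lt (lt_of_le_of_lt ?_ h4ε)
        have : Real.exp (-30 * σ) ≤ 1 := by
          rw [Real.exp_le_one_iff]; nlinarith
        calc _ ≤ 4 * ε * 1 := mul_le_mul_of_nonneg_left this (by positivity)
          _ = _ := mul_one _
      obtain ⟨u, hu⟩ := hcon (ofX ν (U σ)) (ofX_real (hUr σ hσ)) (ofX_inWiener _) h1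
      exact ⟨u, fun _ => hu⟩
    · exact ⟨fun _ => 0, fun h => absurd h hσ⟩
  choose u hu using hex
  have hfam : Fam ν U (fun σ t => toX ν (u σ (max t 0))) := by
    refine ⟨hUc, hUs, ?_, ?_, ?_⟩
    · intro σ hσ
      simp only [max_self]
      rw [(hu σ hσ).2.1, toX_ofX]
    · intro σ hσ
      exact (forward_sol (hu σ hσ).1).1
    · intro σ hσ b hb
      exact (forward_sol (hu σ hσ).1).2 b hb
  apply hfam.contradiction hUb (c₁ := ε / 5) (by positivity) hU1
  have h0 := (hu 0 le_rfl)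
  refine (h0.2.2).congr' ?_
  filter_upwards [Filter.eventually_ge_atTop 0] with t ht
  rw [max_eq_left ht, norm_toX (h0.1.mem t (Set.mem_Ici.mpr ht))]

omit hν in
/-- Solutions on a larger interval restrict. -/
lemma IsSolutionOn.mono {J J' : Set ℝ} {u : ℝ → C(UnitAddCircle, ℂ)} (h : IsSolutionOn ν J u)
    (hJ : J' ⊆ J) : IsSolutionOn ν J' u :=
  ⟨fun t ht => h.mem t (hJ ht), fun t ht => (h.cont t (hJ ht)).mono_left (nhdsWithin_mono t hJ),
    fun k t ht => (h.eqn k t (hJ ht)).mono hJ⟩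

/-- Forward and backward in time, for the same datum. -/
theorem both_fail (ν : ℝ) (hν : 1 ≤ ν) (δ : ℝ) (hδ : 0 < δ) :
    ∃ u₀ : C(UnitAddCircle, ℂ), IsReal u₀ ∧ InWiener ν u₀ ∧ wienerNorm ν u₀ < δ ∧
      (¬ ∃ u : ℝ → C(UnitAddCircle, ℂ), IsSolutionOn ν (Set.Ici 0) u ∧ u 0 = u₀ ∧
        Filter.Tendsto (fun t => wienerNorm ν (u t)) Filter.atTop (nhds 0)) ∧
      (¬ ∃ u : ℝ → C(UnitAddCircle, ℂ), IsSolutionOn ν (Set.Iic 0) u ∧ u 0 = u₀ ∧
        Filter.Tendsto (fun t => wienerNorm ν (u t)) Filter.atBot (nhds 0)) := by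
  have : Fact (1 ≤ ν) := ⟨hν⟩
  obtain ⟨u₀, hr, hw, hn, hf⟩ := forward_fail ν hν δ hδ
  refine ⟨u₀, hr, hw, hn, hf, ?_⟩
  rintro ⟨u, hu, hu0, hlim⟩
  apply hf
  refine ⟨fun t => star (u (-t)), reverse_solution hu, ?_, ?_⟩
  · simp only [neg_zero]
    rw [hu0]
    ext x
    simp only [ContinuousMap.star_apply]
    exact Complex.conj_eq_iff_im.mpr (hr x)
  · simp only [wienerNorm_star (ν := ν)]
    exact hlim.comp Filter.tendsto_neg_atTop_atBot

/-- Negation of Q1, and the strong form. -/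
theorem main (ν : ℝ) (hν : 1 ≤ ν) :
    (¬ ∀ u₀ : C(UnitAddCircle, ℂ), IsReal u₀ → InWiener ν u₀ →
      ∃ u : ℝ → C(UnitAddCircle, ℂ), IsSolutionOn ν Set.univ u ∧ u 0 = u₀ ∧
        Filter.Tendsto (fun t => wienerNorm ν (u t)) Filter.atTop (nhds 0) ∧
        Filter.Tendsto (fun t => wienerNorm ν (u t)) Filter.atBot (nhds 0)) ∧
    ∀ δ : ℝ, 0 < δ → ∃ u₀ : C(UnitAddCircle, ℂ), IsReal u₀ ∧ InWiener ν u₀ ∧ wienerNorm ν u₀ < δ ∧
      (¬ ∃ u : ℝ → C(UnitAddCircle, ℂ), IsSolutionOn ν (Set.Ici 0) u ∧ u 0 = u₀ ∧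
        Filter.Tendsto (fun t => wienerNorm ν (u t)) Filter.atTop (nhds 0)) ∧
      (¬ ∃ u : ℝ → C(UnitAddCircle, ℂ), IsSolutionOn ν (Set.Iic 0) u ∧ u 0 = u₀ ∧
        Filter.Tendsto (fun t => wienerNorm ν (u t)) Filter.atBot (nhds 0)) := by
  refine ⟨?_, fun δ hδ => both_fail ν hν δ hδ⟩
  intro h
  obtain ⟨u₀, hr, hw, -, hf, -⟩ := both_fail ν hν 1 one_pos
  obtain ⟨u, hu, hu0, hlim, -⟩ := h u₀ hr hw
  exact hf ⟨u, IsSolutionOn.mono hu (Set.subset_univ _), hu0, hlim⟩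

end Pool.Agent.Helper80.B9
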